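import Mathlib

/-!
# The rank `log₂ K` is optimal
-/

set_option autoImplicit false

namespace Pool.Agent.U546.FB

open Finset
open scoped Pointwise

/-- The box `{0, …, N-1}^d` has doubling less than `2^d`, and it is not covered by fewer than `N`
cosets of a group generated by fewer than `d` elements and a finite subgroup. -/
theorem box_opt (d N : ℕ) (hN : 1 ≤ N) :
    ∃ A : Finset (Fin d → ℤ), A.card = N ^ d ∧ (A + A).card ≤ 2 ^ d * A.card ∧
      ∀ (k : ℕ) (v : Fin k → (Fin d → ℤ)) (H : AddSubgroup (Fin d → ℤ))
        (T : Finset (Fin d → ℤ)), k < d → Finite H →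
        (∀ a ∈ A, ∃ t ∈ T, ∃ c : Fin k → ℤ, a - t - ∑ i, c i • v i ∈ H) → N ≤ T.card := by
  classical
  obtain ⟨A, hA⟩ : ∃ A : Finset (Fin d → ℤ),
      A = Fintype.piFinset fun _ => Finset.Ico (0 : ℤ) N := ⟨_, rfl⟩
  have hmem : ∀ x, x ∈ A ↔ ∀ i, 0 ≤ x i ∧ x i < N := by
    intro x
    rw [hA, Fintype.mem_piFinset]
    simp only [mem_Ico]
  have hcard : A.card = N ^ d := by
    rw [hA, Fintype.card_piFinset]
    simp
  refine ⟨A, hcard, ?_, ?_⟩
  · have hsub : A + A ⊆ Fintype.piFinset fun _ => Finset.Ico (0 : ℤ) (2 * N) := by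
      intro z hz
      obtain ⟨x, hx, y, hy, rfl⟩ := mem_add.1 hz
      rw [hmem] at hx hy
      rw [Fintype.mem_piFinset]
      intro i
      have h1 := hx i
      have h2 := hy i
      rw [mem_Ico, Pi.add_apply]
      constructor <;> linarith [h1.1, h1.2, h2.1, h2.2]
    refine (card_le_card hsub).trans (le_of_eq ?_)
    rw [hcard, Fintype.card_piFinset]
    have h3 : (Finset.Ico (0 : ℤ) (2 * N)).card = 2 * N := by
      rw [Int.card_Ico, sub_zero]
      exact_mod_cast Int.toNat_natCast (2 * N)
    simp only [h3, prod_const, card_univ, Fintype.card_fin]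
    rw [mul_pow]
  · intro k v H T hkd hH hcov
    -- the finite subgroup is trivial
    have hH0 : ∀ h ∈ H, h = 0 := by
      intro h hh
      haveI := hH
      have h1 : Nat.card H • (⟨h, hh⟩ : H) = 0 := card_nsmul_eq_zero'
      have h2 : Nat.card H • h = 0 := by
        have h3 := congrArg H.subtype h1
        rw [map_nsmul, map_zero] at h3
        exact h3
      have h4 : Nat.card H ≠ 0 := Nat.card_pos.ne'
      funext i
      have h5 := congrFun h2 i
      simp only [Pi.smul_apply, nsmul_eq_mul, Pi.zero_apply, mul_eq_zero, Nat.cast_eq_zero] at h5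
      rcases h5 with h5 | h5
      · exact absurd h5 h4
      · simpa using h5
    -- a linear form which vanishes on the generators
    obtain ⟨w, hw0, hw⟩ : ∃ w : Fin d → ℤ, w ≠ 0 ∧ ∀ i, ∑ j, v i j * w j = 0 := by
      rcases Nat.eq_zero_or_pos k with hk | hk
      · subst hk
        refine ⟨fun _ => 1, ?_, fun i => i.elim0⟩
        intro h
        have := congrFun h ⟨0, hkd⟩
        simp at this
      · obtain ⟨w, h1, h2, -⟩ := Int.Matrix.exists_ne_zero_int_vec_norm_le
          (Matrix.of fun i j => v i j) (by simpa using hkd) (by simpa using hk)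
        refine ⟨w, h1, fun i => ?_⟩
        have h3 := congrFun h2 i
        simpa [Matrix.mulVec, dotProduct] using h3
    obtain ⟨j₀, hj₀⟩ : ∃ j, w j ≠ 0 := by
      by_contra hcon
      push Not at hcon
      exact hw0 (funext hcon)
    obtain ⟨f, hf⟩ : ∃ f : (Fin d → ℤ) → ℤ, f = fun x => ∑ j, x j * w j := ⟨_, rfl⟩
    have hfT : ∀ a ∈ A, ∃ t ∈ T, f a = f t := by
      intro a ha
      obtain ⟨t, ht, c, hc⟩ := hcov a ha
      refine ⟨t, ht, ?_⟩
      have h1 := hH0 _ hc
      have h2 : a = t + ∑ i, c i • v i := by
        rw [← sub_eq_zero, ← h1]; abel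
      rw [h2, hf]
      simp only [Pi.add_apply, add_mul, sum_add_distrib]
      have h3 : ∑ j, (∑ i, c i • v i) j * w j = 0 := by
        have h4 : ∀ j, (∑ i, c i • v i) j * w j = ∑ i, c i * (v i j * w j) := by
          intro j
          rw [Finset.sum_apply, sum_mul]
          refine sum_congr rfl fun i _ => ?_
          rw [Pi.smul_apply, smul_eq_mul, mul_assoc]
        simp only [h4]
        rw [sum_comm]
        refine sum_eq_zero fun i _ => ?_
        rw [← mul_sum, hw i, mul_zero]
      rw [h3, add_zero]
    have hsub : (Finset.range N).image (fun n : ℕ => f (Pi.single j₀ (n : ℤ))) ⊆ T.image f := by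
      intro z hz
      obtain ⟨n, hn, rfl⟩ := mem_image.1 hz
      rw [mem_range] at hn
      obtain ⟨t, ht, e⟩ := hfT (Pi.single j₀ (n : ℤ)) (by
        rw [hmem]
        intro i
        by_cases hi : i = j₀
        · subst hi
          rw [Pi.single_eq_same]
          constructor
          · positivity
          · exact_mod_cast hn
        · rw [Pi.single_eq_of_ne hi]
          constructor
          · exact le_rfl
          · exact_mod_cast hN)
      rw [e]
      exact mem_image_of_mem _ ht
    have hfs : ∀ n : ℕ, f (Pi.single j₀ (n : ℤ)) = n * w j₀ := by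
      intro n
      rw [hf]
      simp only
      rw [sum_eq_single j₀]
      · rw [Pi.single_eq_same]
      · intro j _ hj
        rw [Pi.single_eq_of_ne hj, zero_mul]
      · intro h; exact absurd (mem_univ _) h
    have hinj : ((Finset.range N).image (fun n : ℕ => f (Pi.single j₀ (n : ℤ)))).card = N := by
      rw [card_image_of_injective, card_range]
      intro a b hab
      simp only [hfs] at hab
      exact_mod_cast mul_right_cancel₀ hj₀ hab
    calc N = _ := hinj.symm
      _ ≤ (T.image f).card := card_le_card hsub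
      _ ≤ T.card := card_image_le

end Pool.Agent.U546.FB
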