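import Pool.Agent.U546.PV.BM

/-!
# A local Brunn–Minkowski inequality: averaging over translates, and the choice of the scale
-/

set_option autoImplicit false

namespace Pool.Agent.U546.FB

open Finset
open scoped Pointwise

variable {G : Type*} [AddCommGroup G] [DecidableEq G]

/-- averaging over the translates of a large ball -/
theorem avg {U W D S B₁ B₂ B₃ : Finset G} (hS : U + W + D ⊆ S) (hB : B₁ + B₂ + D ⊆ B₃) {r : ℕ}
    {θ : ℝ} (hθ : 1 ≤ θ) (x₀ : G)
    (hx₀ : ∀ x, ((U.filter fun u => u - x ∈ B₂).card : ℝ) ≤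
      θ * (W.filter fun w => w - x₀ ∈ B₁).card)
    (hbm : ∀ x, 2 ^ r * min (W.filter fun w => w - x₀ ∈ B₁).card
        (U.filter fun u => u - x ∈ B₂).card ≤
      ((W.filter fun w => w - x₀ ∈ B₁) + (U.filter fun u => u - x ∈ B₂) + D).card) :
    2 ^ r * ((U.card : ℝ) * B₂.card) ≤ θ * (B₃.card * S.card) := by
  classical
  obtain ⟨W₀, hW₀⟩ : ∃ W₀, W₀ = W.filter fun w => w - x₀ ∈ B₁ := ⟨_, rfl⟩
  obtain ⟨Ux, hUx⟩ : ∃ Ux : G → Finset G, Ux = fun x => U.filter fun u => u - x ∈ B₂ := ⟨_, rfl⟩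
  obtain ⟨E, hE⟩ : ∃ E, E = U - B₂ := ⟨_, rfl⟩
  rw [← hW₀] at hx₀ hbm
  have hx₀' : ∀ x, ((Ux x).card : ℝ) ≤ θ * W₀.card := by rw [hUx]; exact hx₀
  have hbm' : ∀ x, 2 ^ r * min W₀.card (Ux x).card ≤ (W₀ + Ux x + D).card := by
    rw [hUx]; exact hbm
  -- first double count
  have h1 : ∑ x ∈ E, (Ux x).card = U.card * B₂.card := by
    have e1 : ∑ x ∈ E, (Ux x).card = ∑ u ∈ U, (E.filter fun x => u - x ∈ B₂).card := by
      rw [hUx]
      exact sum_card_bipartiteAbove_eq_sum_card_bipartiteBelow (s := E) (t := U)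
        (fun x u => u - x ∈ B₂)
    rw [e1]
    rw [sum_congr rfl (g := fun _ => B₂.card)]
    · rw [sum_const, smul_eq_mul]
    intro u hu
    have e2 : (E.filter fun x => u - x ∈ B₂) = B₂.image fun b => u - b := by
      ext x
      rw [mem_filter, mem_image]
      constructor
      · rintro ⟨-, h⟩
        exact ⟨u - x, h, by abel⟩
      · rintro ⟨b, hb, rfl⟩
        refine ⟨?_, by rw [sub_sub_cancel]; exact hb⟩
        rw [hE]
        exact sub_mem_sub hu hb
    rw [e2, card_image_of_injective _ fun a b h => sub_right_injective h]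
  -- second double count
  have h2 : ∑ x ∈ E, (W₀ + Ux x + D).card ≤ S.card * B₃.card := by
    have hsub : ∀ x, W₀ + Ux x + D ⊆ S := by
      intro x
      refine Subset.trans ?_ hS
      rw [add_comm U W]
      apply add_subset_add_right
      apply add_subset_add
      · rw [hW₀]; exact filter_subset _ _
      · rw [hUx]; exact filter_subset _ _
    have e1 : ∑ x ∈ E, (W₀ + Ux x + D).card =
        ∑ x ∈ E, (S.filter fun z => z ∈ W₀ + Ux x + D).card := by
      refine sum_congr rfl fun x _ => ?_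
      congr 1
      ext z
      rw [mem_filter]
      exact ⟨fun h => ⟨hsub x h, h⟩, fun h => h.2⟩
    rw [e1, show ∑ x ∈ E, (S.filter fun z => z ∈ W₀ + Ux x + D).card =
        ∑ z ∈ S, (E.filter fun x => z ∈ W₀ + Ux x + D).card from
      sum_card_bipartiteAbove_eq_sum_card_bipartiteBelow (s := E) (t := S)
        (fun x z => z ∈ W₀ + Ux x + D)]
    rw [← smul_eq_mul, ← sum_const]
    refine sum_le_sum fun z _ => ?_
    refine card_le_card_of_injOn (fun x => z - x₀ - x) ?_ ?_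
    · intro x hx
      rw [mem_coe, mem_filter] at hx
      obtain ⟨y, hy, d, hd, e⟩ := mem_add.1 hx.2
      obtain ⟨w, hw, u, hu, rfl⟩ := mem_add.1 hy
      rw [hW₀, mem_filter] at hw
      rw [hUx, mem_filter] at hu
      rw [mem_coe]
      apply hB
      have e3 : z - x₀ - x = (w - x₀) + (u - x) + d := by rw [← e]; abel
      simp only
      rw [e3]
      exact add_mem_add (add_mem_add hw.2 hu.2) hd
    · intro a _ b _ h
      exact sub_right_injective h
  -- conclusion
  have h3 : ∀ x ∈ E, (2 : ℝ) ^ r * (Ux x).card ≤ θ * ((W₀ + Ux x + D).card : ℝ) := by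
    intro x _
    have e1 : (2 : ℝ) ^ r * min (W₀.card : ℝ) (Ux x).card ≤ ((W₀ + Ux x + D).card : ℝ) := by
      exact_mod_cast hbm' x
    have e2 : ((Ux x).card : ℝ) ≤ θ * min (W₀.card : ℝ) (Ux x).card := by
      rcases le_total (W₀.card : ℝ) (Ux x).card with h | h
      · rw [min_eq_left h]; exact hx₀' x
      · rw [min_eq_right h]
        have : (0 : ℝ) ≤ (Ux x).card := by positivity
        nlinarith
    calc (2 : ℝ) ^ r * (Ux x).card ≤ 2 ^ r * (θ * min (W₀.card : ℝ) (Ux x).card) := by gcongr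
      _ = θ * (2 ^ r * min (W₀.card : ℝ) (Ux x).card) := by ring
      _ ≤ _ := by gcongr
  calc 2 ^ r * ((U.card : ℝ) * B₂.card) = 2 ^ r * ((∑ x ∈ E, (Ux x).card : ℕ) : ℝ) := by
        rw [h1]; push_cast; ring
    _ = ∑ x ∈ E, (2 : ℝ) ^ r * (Ux x).card := by
        push_cast
        rw [mul_sum]
    _ ≤ ∑ x ∈ E, θ * ((W₀ + Ux x + D).card : ℝ) := sum_le_sum h3
    _ = θ * ((∑ x ∈ E, (W₀ + Ux x + D).card : ℕ) : ℝ) := by
        push_cast
        rw [mul_sum]
    _ ≤ θ * ((S.card * B₃.card : ℕ) : ℝ) := by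
        have : ((∑ x ∈ E, (W₀ + Ux x + D).card : ℕ) : ℝ) ≤ ((S.card * B₃.card : ℕ) : ℝ) := by
          exact_mod_cast h2
        gcongr
    _ = _ := by push_cast; ring

/-- choice of a scale at which the concentration of `W` grows slowly -/
theorem scale {W T : Finset G} (hW : W.Nonempty) (B : ℕ → Finset G) {n : ℕ} (hn : 0 < n) {θ : ℝ}
    (hθ : 1 ≤ θ) (hcov : W ⊆ T + B 0) (hT : (T.card : ℝ) ≤ θ ^ n) :
    ∃ i < n, ∃ x₀, ∀ x, ((W.filter fun w => w - x ∈ B (i + 1)).card : ℝ) ≤
      θ * (W.filter fun w => w - x₀ ∈ B i).card := by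
  by_contra hcon
  push Not at hcon
  have hWc : (0 : ℝ) < W.card := by exact_mod_cast hW.card_pos
  have hTne : T.Nonempty := by
    obtain ⟨w, hw⟩ := hW
    obtain ⟨t, ht, _⟩ := mem_add.1 (hcov hw)
    exact ⟨t, ht⟩
  have hTc : (0 : ℝ) < T.card := by exact_mod_cast hTne.card_pos
  have h0 : ∃ x, (W.card : ℝ) ≤ T.card * (W.filter fun w => w - x ∈ B 0).card := by
    by_contra hc
    push Not at hc
    have h1 : W ⊆ T.biUnion fun t => W.filter fun w => w - t ∈ B 0 := by
      intro w hw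
      obtain ⟨t, ht, b, hb, e⟩ := mem_add.1 (hcov hw)
      rw [mem_biUnion]
      refine ⟨t, ht, mem_filter.2 ⟨hw, ?_⟩⟩
      rw [← e, add_sub_cancel_left]
      exact hb
    have h2 : (W.card : ℝ) ≤ ∑ t ∈ T, ((W.filter fun w => w - t ∈ B 0).card : ℝ) := by
      exact_mod_cast (card_le_card h1).trans card_biUnion_le
    have h3 : ∑ t ∈ T, (T.card * (W.filter fun w => w - t ∈ B 0).card : ℝ) < ∑ _t ∈ T, (W.card : ℝ) :=
      sum_lt_sum_of_nonempty hTne fun t _ => hc t
    rw [← mul_sum, sum_const, nsmul_eq_mul] at h3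
    have := lt_of_mul_lt_mul_left h3 hTc.le
    linarith
  have hind : ∀ i, i < n → ∃ x, θ ^ i * (W.card : ℝ) ≤
      T.card * (W.filter fun w => w - x ∈ B i).card := by
    intro i
    induction i with
    | zero =>
      intro _
      obtain ⟨x, hx⟩ := h0
      exact ⟨x, by rw [pow_zero, one_mul]; exact hx⟩
    | succ i ih =>
      intro hi
      obtain ⟨x₀, hx₀⟩ := ih (by omega)
      obtain ⟨x, hx⟩ := hcon i (by omega) x₀
      refine ⟨x, ?_⟩
      calc θ ^ (i + 1) * (W.card : ℝ) = θ * (θ ^ i * W.card) := by ring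
        _ ≤ θ * (T.card * (W.filter fun w => w - x₀ ∈ B i).card) := by gcongr
        _ = T.card * (θ * (W.filter fun w => w - x₀ ∈ B i).card) := by ring
        _ ≤ _ := by gcongr
  obtain ⟨m, rfl⟩ : ∃ m, n = m + 1 := ⟨n - 1, by omega⟩
  obtain ⟨x₀, hx₀⟩ := hind m (by omega)
  obtain ⟨x, hx⟩ := hcon m (by omega) x₀
  have h1 : ((W.filter fun w => w - x ∈ B (m + 1)).card : ℝ) ≤ W.card := by
    exact_mod_cast card_filter_le _ _
  have h2 : (T.card : ℝ) * W.card < T.card * W.card := by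
    calc (T.card : ℝ) * W.card ≤ θ ^ (m + 1) * W.card := by gcongr
      _ = θ * (θ ^ m * W.card) := by ring
      _ ≤ θ * (T.card * (W.filter fun w => w - x₀ ∈ B m).card) := by gcongr
      _ = T.card * (θ * (W.filter fun w => w - x₀ ∈ B m).card) := by ring
      _ < T.card * (W.filter fun w => w - x ∈ B (m + 1)).card := by gcongr
      _ ≤ _ := by gcongr
  exact lt_irrefl _ h2

end Pool.Agent.U546.FB
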