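import Pool.Agent.U546.FB.Loc
import Mathlib.Combinatorics.Additive.PluenneckeRuzsa

/-!
# The number of long generators of a coset progression without short relations
-/

set_option autoImplicit false

namespace Pool.Agent.U546.FB

open Finset H112
open scoped Pointwise

variable {G : Type*} [AddCommGroup G] [DecidableEq G]

/-- the Petridis minimiser -/
theorem exists_petridis {A : Finset G} (hA : A.Nonempty) {K : ℝ}
    (hK : ((A + A).card : ℝ) ≤ K * A.card) :
    ∃ X ⊆ A, X.Nonempty ∧ (∀ C : Finset G, ((C + X + A).card : ℝ) ≤ K * (C + X).card) ∧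
      (A.card : ℝ) ≤ K * X.card := by
  classical
  have hAc : (0 : ℝ) < A.card := by exact_mod_cast hA.card_pos
  obtain ⟨X, hX, hmin⟩ := exists_min_image (A.powerset.erase ∅)
    (fun X => ((X + A).card : ℝ) / X.card) ⟨A, by
      rw [mem_erase, mem_powerset]
      exact ⟨hA.ne_empty, Subset.rfl⟩⟩
  rw [mem_erase, mem_powerset] at hX
  have hXne : X.Nonempty := nonempty_iff_ne_empty.2 hX.1
  have hXc : (0 : ℝ) < X.card := by exact_mod_cast hXne.card_pos
  have h1 : ((X + A).card : ℝ) ≤ K * X.card := by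
    have h2 := hmin A (by
      rw [mem_erase, mem_powerset]
      exact ⟨hA.ne_empty, Subset.rfl⟩)
    have h3 : ((A + A).card : ℝ) / A.card ≤ K := by
      rw [div_le_iff₀ hAc]; exact hK
    have h4 := h2.trans h3
    rwa [div_le_iff₀ hXc] at h4
  refine ⟨X, hX.2, hXne, ?_, ?_⟩
  · intro C
    have h2 := pluennecke_petridis_inequality_add (A := X) (B := A) C (by
      intro X' hX'
      rcases X'.eq_empty_or_nonempty with rfl | hne
      · simp
      · have h3 := hmin X' (by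
          rw [mem_erase, mem_powerset]
          exact ⟨hne.ne_empty, hX'.trans hX.2⟩)
        have hc : (0 : ℝ) < X'.card := by exact_mod_cast hne.card_pos
        rw [div_le_div_iff₀ hXc hc] at h3
        exact_mod_cast h3)
    have h3 : ((C + X + A).card : ℝ) * X.card ≤ (X + A).card * (C + X).card := by
      exact_mod_cast h2
    have h4 : ((C + X + A).card : ℝ) * X.card ≤ (K * (C + X).card) * X.card := by
      calc _ ≤ ((X + A).card : ℝ) * (C + X).card := h3
        _ ≤ (K * X.card) * (C + X).card := by gcongr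
        _ = _ := by ring
    exact le_of_mul_le_mul_right h4 hXc
  · refine le_trans ?_ h1
    exact_mod_cast card_le_card_add_left hXne

section

variable {k : ℕ} {v : Fin k → G} {L : Fin k → ℕ} {H : AddSubgroup G} {Hf : Finset G}

theorem chain_step (hH : ∀ x, x ∈ Hf ↔ x ∈ H) {M R n : ℕ} (hM : Mp v L H M) (hR : 2 ≤ R)
    (hn : 0 < n) (hMR : 8 * R ^ n ≤ M) {A X T : Finset G} (hA : A.Nonempty) (hXA : X ⊆ A) {K : ℝ}
    (hX : ∀ C : Finset G, ((C + X + A).card : ℝ) ≤ K * (C + X).card)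
    (hcov : A ⊆ T + Bx v L Hf 1) {θ : ℝ} (hθ : 1 ≤ θ) (hT : (T.card : ℝ) ≤ θ ^ n)
    {I : Finset (Fin k)} {s : ℕ} (hs1 : 1 ≤ s) (hs : ∀ i ∈ I, s ≤ L i) :
    2 ^ I.card * ((Cb v I s + X).card : ℝ) ≤
      θ * (1 + 2 / R) ^ k * K * (Cb v I (2 * s) + X).card := by
  classical
  have h0 : (0 : G) ∈ Hf := (hH 0).2 H.zero_mem
  have hadd : ∀ x ∈ Hf, ∀ y ∈ Hf, x + y ∈ Hf := fun x hx y hy =>
    (hH _).2 (H.add_mem ((hH _).1 hx) ((hH _).1 hy))
  obtain ⟨U, hU⟩ : ∃ U, U = Cb v I s + X := ⟨_, rfl⟩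
  obtain ⟨W, hW⟩ : ∃ W, W = Cb v I s + A := ⟨_, rfl⟩
  have hCne : (Cb v I s).Nonempty := ⟨0, mem_Cb.2 ⟨0, fun i _ => by
    simp only [Pi.zero_apply]
    exact ⟨le_rfl, by exact_mod_cast hs1⟩, fun i _ => rfl, by simp⟩⟩
  have hWne : W.Nonempty := by rw [hW]; exact hCne.add hA
  have hUW : U ⊆ W := by rw [hU, hW]; exact add_subset_add_left hXA
  have hWcov : W ⊆ T + Bx v L Hf (2 * R ^ 0) := by
    rw [hW, pow_zero, mul_one]
    calc Cb v I s + A ⊆ Bx v L Hf 1 + (T + Bx v L Hf 1) := by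
          apply add_subset_add _ hcov
          apply Cb_sub_Bx h0
          intro i hi
          have := hs i hi
          omega
      _ = T + (Bx v L Hf 1 + Bx v L Hf 1) := by
          rw [add_left_comm]
      _ ⊆ T + Bx v L Hf 2 := add_subset_add_left (Bx_add hadd 1 1)
  obtain ⟨i, hi, x₀, hx₀⟩ := scale hWne (fun i => Bx v L Hf (2 * R ^ i)) hn hθ hWcov hT
  have hRn : R ^ (i + 1) ≤ R ^ n := Nat.pow_le_pow_right (by omega) (by omega)
  have hRi : 1 ≤ R ^ i := Nat.one_le_pow _ _ (by omega)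
  have hRi2 : 2 * R ^ i ≤ R ^ (i + 1) := by
    rw [pow_succ, mul_comm (R ^ i)]
    exact Nat.mul_le_mul_right _ hR
  obtain ⟨a, ha⟩ : ∃ a, a = 2 * R ^ i := ⟨_, rfl⟩
  obtain ⟨b, hb⟩ : ∃ b, b = 2 * R ^ (i + 1) := ⟨_, rfl⟩
  have hbR : b = R * a := by rw [ha, hb, pow_succ]; ring
  have ha1 : 1 ≤ a := by omega
  have hab : 2 * (a + b + 1) ≤ M := by omega
  have hx₀' : ∀ x, ((W.filter fun w => w - x ∈ Bx v L Hf b).card : ℝ) ≤
      θ * (W.filter fun w => w - x₀ ∈ Bx v L Hf a).card := by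
    rw [ha, hb]; exact hx₀
  have hI1 : ∀ i ∈ I, 1 ≤ L i := fun i hi => hs1.trans (hs i hi)
  have hS : U + W + Cb v I 2 ⊆ Cb v I (2 * s) + X + A := by
    have e1 : U + W + Cb v I 2 = (Cb v I s + Cb v I s + Cb v I 2) + X + A := by
      rw [hU, hW]
      abel
    rw [e1]
    exact add_subset_add_right (add_subset_add_right (Cb_add s))
  have hB : Bx v L Hf a + Bx v L Hf b + Cb v I 2 ⊆ Bx v L Hf (a + b + 1) := by
    refine (add_subset_add (Bx_add hadd a b) (Cb_sub_Bx h0 (N := 1) ?_)).trans (Bx_add hadd _ _)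
    intro i hi
    have := hI1 i hi
    omega
  have havg := avg (B₁ := Bx v L Hf a) (B₂ := Bx v L Hf b) hS hB (r := I.card) hθ x₀
    (fun x => by
      refine le_trans ?_ (hx₀' x)
      exact_mod_cast card_le_card (filter_subset_filter _ hUW))
    (fun x => locBM hH hM hab hI1 x₀ x _ _ (fun p hp => (mem_filter.1 hp).2)
      (fun q hq => (mem_filter.1 hq).2))
  -- comparison of the volumes
  have hc2 : (Bx v L Hf b).card = (∏ i, (2 * (b * L i) + 1)) * Hf.card :=
    card_Bx hH hM (by omega)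
  have hc3 : (Bx v L Hf (a + b + 1)).card = (∏ i, (2 * ((a + b + 1) * L i) + 1)) * Hf.card :=
    card_Bx hH hM hab
  have hR0 : (0 : ℝ) < R := by
    have : 0 < R := by omega
    exact_mod_cast this
  have hprod : ((∏ i, (2 * ((a + b + 1) * L i) + 1) : ℕ) : ℝ) ≤
      (1 + 2 / R) ^ k * ((∏ i, (2 * (b * L i) + 1) : ℕ) : ℝ) := by
    push_cast
    have hpow : (1 + 2 / (R : ℝ)) ^ k = ∏ _i : Fin k, (1 + 2 / (R : ℝ)) := by
      rw [prod_const, card_univ, Fintype.card_fin]
    rw [hpow, ← prod_mul_distrib]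
    refine prod_le_prod (fun i _ => by positivity) fun i _ => ?_
    have h1 : (a : ℝ) + 1 ≤ 2 * a := by
      have : (1 : ℝ) ≤ a := by exact_mod_cast ha1
      linarith
    have h2 : (b : ℝ) = R * a := by rw [hbR]; push_cast; ring
    have h3 : 2 / (R : ℝ) * (2 * (b * L i)) = 4 * a * L i := by
      rw [h2]; field_simp; ring
    have h4 : (0 : ℝ) ≤ 2 / R := by positivity
    have h5 : (0 : ℝ) ≤ L i := by positivity
    calc 2 * (((a : ℝ) + b + 1) * L i) + 1 = 2 * (b * L i) + 1 + 2 * ((a + 1) * L i) := by ring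
      _ ≤ 2 * (b * L i) + 1 + 2 * ((2 * a) * L i) := by gcongr
      _ = 2 * (b * L i) + 1 + 2 / (R : ℝ) * (2 * (b * L i)) := by rw [h3]; ring
      _ ≤ (1 + 2 / R) * (2 * (b * L i) + 1) := by nlinarith
  have hb0 : (0 : ℝ) < (Bx v L Hf b).card := by
    rw [hc2]
    have h1 : 0 < Hf.card := card_pos.2 ⟨0, h0⟩
    have h2 : 0 < ∏ i, (2 * (b * L i) + 1) := prod_pos fun i _ => by omega
    exact_mod_cast Nat.mul_pos h2 h1
  have hratio : ((Bx v L Hf (a + b + 1)).card : ℝ) ≤ (1 + 2 / R) ^ k * (Bx v L Hf b).card := by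
    rw [hc2, hc3]
    push_cast at hprod ⊢
    rw [← mul_assoc]
    gcongr
  have hfin : (2 ^ I.card * (U.card : ℝ)) * (Bx v L Hf b).card ≤
      (θ * (1 + 2 / R) ^ k * K * (Cb v I (2 * s) + X).card) * (Bx v L Hf b).card := by
    have hθ0 : 0 ≤ θ := by linarith
    calc (2 ^ I.card * (U.card : ℝ)) * (Bx v L Hf b).card
        = 2 ^ I.card * ((U.card : ℝ) * (Bx v L Hf b).card) := by ring
      _ ≤ θ * ((Bx v L Hf (a + b + 1)).card * (Cb v I (2 * s) + X + A).card) := havg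
      _ ≤ θ * (((1 + 2 / R) ^ k * (Bx v L Hf b).card) *
            (K * (Cb v I (2 * s) + X).card)) := by
          refine mul_le_mul_of_nonneg_left ?_ hθ0
          exact mul_le_mul hratio (hX (Cb v I (2 * s))) (Nat.cast_nonneg _)
            (mul_nonneg (pow_nonneg (by positivity) _) (Nat.cast_nonneg _))
      _ = _ := by ring
  rw [← hU]
  exact le_of_mul_le_mul_right hfin hb0

/-- **the number of long generators** -/
theorem chain (hH : ∀ x, x ∈ Hf ↔ x ∈ H) {M R n : ℕ} (hM : Mp v L H M) (hR : 2 ≤ R)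
    (hn : 0 < n) (hMR : 8 * R ^ n ≤ M) {A T : Finset G} (hA : A.Nonempty) {K : ℝ} (hK1 : 1 ≤ K)
    (hK : ((A + A).card : ℝ) ≤ K * A.card)
    (hcov : A ⊆ T + Bx v L Hf 1) {θ : ℝ} (hθ : 1 ≤ θ) (hT : (T.card : ℝ) ≤ θ ^ n) {W : ℝ}
    (hW : (((∏ i, (2 * L i + 1)) * Hf.card : ℕ) : ℝ) ≤ W * A.card)
    {I : Finset (Fin k)} {J : ℕ} (hI : ∀ i ∈ I, 2 ^ J ≤ L i) :
    (2 ^ I.card / (θ * (1 + 2 / R) ^ k * K)) ^ (J + 1) ≤ T.card * (3 ^ k * (W * K)) := by
  classical
  have h0 : (0 : G) ∈ Hf := (hH 0).2 H.zero_mem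
  have hadd : ∀ x ∈ Hf, ∀ y ∈ Hf, x + y ∈ Hf := fun x hx y hy =>
    (hH _).2 (H.add_mem ((hH _).1 hx) ((hH _).1 hy))
  obtain ⟨X, hXA, hXne, hX, hAX⟩ := exists_petridis hA hK
  have hXc : (0 : ℝ) < X.card := by exact_mod_cast hXne.card_pos
  have hR0 : (0 : ℝ) < R := by
    have : 0 < R := by omega
    exact_mod_cast this
  obtain ⟨D, hD⟩ : ∃ D : ℝ, D = θ * (1 + 2 / R) ^ k * K := ⟨_, rfl⟩
  have hD0 : 0 < D := by rw [hD]; positivity
  rw [← hD]
  have hind : ∀ j, j ≤ J + 1 →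
      (2 ^ I.card / D) ^ j * (X.card : ℝ) ≤ (Cb v I (2 ^ j) + X).card := by
    intro j
    induction j with
    | zero =>
      intro _
      rw [pow_zero, one_mul, pow_zero]
      have : X ⊆ Cb v I 1 + X := by
        intro x hx
        refine mem_add.2 ⟨0, mem_Cb.2 ⟨0, fun i _ => by simp, fun i _ => rfl, by simp⟩, x, hx, ?_⟩
        rw [zero_add]
      exact_mod_cast card_le_card this
    | succ j ih =>
      intro hj
      have h1 := ih (by omega)
      have h2 := chain_step (s := 2 ^ j) hH hM hR hn hMR hA hXA hX hcov hθ hT (I := I)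
        (Nat.one_le_two_pow) (fun i hi => (Nat.pow_le_pow_right (by norm_num) (by omega)).trans
          (hI i hi))
      rw [← hD, ← pow_succ'] at h2
      calc (2 ^ I.card / D) ^ (j + 1) * (X.card : ℝ)
          = (2 ^ I.card / D) * ((2 ^ I.card / D) ^ j * (X.card : ℝ)) := by ring
        _ ≤ (2 ^ I.card / D) * (Cb v I (2 ^ j) + X).card := by gcongr
        _ = (2 ^ I.card * ((Cb v I (2 ^ j) + X).card : ℝ)) / D := by ring
        _ ≤ (D * (Cb v I (2 ^ (j + 1)) + X).card) / D := by gcongr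
        _ = _ := by rw [mul_div_cancel_left₀ _ hD0.ne']
  have h1 := hind (J + 1) le_rfl
  have h2 : Cb v I (2 ^ (J + 1)) + X ⊆ T + Bx v L Hf 3 := by
    calc Cb v I (2 ^ (J + 1)) + X ⊆ Bx v L Hf 2 + (T + Bx v L Hf 1) := by
          apply add_subset_add _ (hXA.trans hcov)
          apply Cb_sub_Bx h0
          intro i hi
          have := hI i hi
          rw [pow_succ]
          omega
      _ = T + (Bx v L Hf 2 + Bx v L Hf 1) := by rw [add_left_comm]
      _ ⊆ T + Bx v L Hf 3 := add_subset_add_left (Bx_add hadd 2 1)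
  have h3 : (Bx v L Hf 3).card ≤ 3 ^ k * ((∏ i, (2 * L i + 1)) * Hf.card) := by
    unfold Bx
    refine card_image_le.trans ?_
    rw [card_product, gap_card_box, ← mul_assoc]
    refine Nat.mul_le_mul_right _ ?_
    calc ∏ i, (2 * (3 * L i) + 1) ≤ ∏ i, (3 * (2 * L i + 1)) :=
          Finset.prod_le_prod' fun i _ => by omega
      _ = 3 ^ k * ∏ i, (2 * L i + 1) := by
          rw [Finset.prod_mul_distrib, Finset.prod_const, Finset.card_univ, Fintype.card_fin]
  have h4 : ((Cb v I (2 ^ (J + 1)) + X).card : ℝ) ≤ T.card * (3 ^ k * (W * (K * X.card))) := by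
    have e1 : ((Cb v I (2 ^ (J + 1)) + X).card : ℝ) ≤ T.card * (Bx v L Hf 3).card := by
      exact_mod_cast (card_le_card h2).trans card_add_le
    have e2 : ((Bx v L Hf 3).card : ℝ) ≤ 3 ^ k * (((∏ i, (2 * L i + 1)) * Hf.card : ℕ) : ℝ) := by
      exact_mod_cast h3
    have hW0 : 0 ≤ W := by
      have hAc : (0 : ℝ) < A.card := by exact_mod_cast hA.card_pos
      by_contra hcon
      push Not at hcon
      have h5 : (0 : ℝ) ≤ (((∏ i, (2 * L i + 1)) * Hf.card : ℕ) : ℝ) := by positivity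
      nlinarith
    calc ((Cb v I (2 ^ (J + 1)) + X).card : ℝ) ≤ T.card * (Bx v L Hf 3).card := e1
      _ ≤ T.card * (3 ^ k * (W * A.card)) := by
          gcongr
          exact e2.trans (by gcongr)
      _ ≤ _ := by gcongr
  have h5 : (2 ^ I.card / D) ^ (J + 1) * (X.card : ℝ) ≤ (T.card * (3 ^ k * (W * K))) * X.card := by
    refine (h1.trans h4).trans (le_of_eq ?_)
    ring
  exact le_of_mul_le_mul_right h5 hXc

end

end Pool.Agent.U546.FB
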