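import Pool.Agent.U546.FB.LIter

/-!
# From coset progressions to norms and back
-/

set_option autoImplicit false

namespace Pool.Agent.U546.FB

open Finset H112
open scoped Pointwise

variable {G : Type*} [AddCommGroup G] [DecidableEq G]

/-- a progression with long generators as the unit ball of a thick norm -/
theorem initLat {k : ℕ} {v : Fin k → G} {L : Fin k → ℕ} {H : AddSubgroup G} {T A : Finset G}
    (hst : St v L H T A) {D : ℕ} (hD : 1 ≤ D) (hL : ∀ i, D ≤ L i) :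
    ∃ (N : Seminorm ℝ (Fin k → ℝ)) (ψ : (Fin k → ℤ) →+ G), (∀ t, (LL N t).Finite) ∧
      Th N (1 / D) ∧ (LL N 1).ncard ≤ ∏ i, (2 * L i + 1) ∧ Lst N ψ H T A := by
  classical
  have hL0 : ∀ i, (0 : ℝ) < L i := fun i => by
    have : 0 < L i := by have := hL i; omega
    exact_mod_cast this
  have hD0 : (0 : ℝ) < D := by exact_mod_cast hD
  obtain ⟨Φ, hΦ⟩ : ∃ Φ : (Fin k → ℝ) →ₗ[ℝ] (Fin k → ℝ), ∀ y i, Φ y i = y i / L i := by
    refine ⟨⟨⟨fun y i => y i / L i, ?_⟩, ?_⟩, fun y i => rfl⟩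
    · intro x y
      funext i
      simp only [Pi.add_apply]
      ring
    · intro r x
      funext i
      simp only [Pi.smul_apply, smul_eq_mul, RingHom.id_apply]
      ring
  obtain ⟨N, hN⟩ : ∃ N : Seminorm ℝ (Fin k → ℝ), N = (normSeminorm ℝ (Fin k → ℝ)).comp Φ :=
    ⟨_, rfl⟩
  have hmem : ∀ (y : Fin k → ℤ) (r : ℝ), 0 ≤ r → (y ∈ LL N r ↔ ∀ i, |(y i : ℝ)| ≤ r * L i) := by
    intro y r hr
    have h1 : y ∈ LL N r ↔ ‖Φ fun j => (y j : ℝ)‖ ≤ r := by
      unfold LL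
      rw [Set.mem_ofPred_eq, hN]
      rfl
    rw [h1, pi_norm_le_iff_of_nonneg hr]
    refine forall_congr' fun i => ?_
    rw [hΦ, Real.norm_eq_abs, abs_div, abs_of_pos (hL0 i), div_le_iff₀ (hL0 i)]
  obtain ⟨ψ, hψ⟩ : ∃ ψ : (Fin k → ℤ) →+ G, ∀ n, ψ n = ∑ i, n i • v i := by
    refine ⟨⟨⟨fun n => ∑ i, n i • v i, by simp⟩, ?_⟩, fun n => rfl⟩
    intro a b
    simp only [Pi.add_apply, add_smul, sum_add_distrib]
  refine ⟨N, ψ, ?_, ?_, ?_, ?_⟩
  · intro t
    refine (gapBox fun i => ⌈|t| * L i⌉₊).finite_toSet.subset ?_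
    intro y hy
    rw [mem_coe, gap_mem_box]
    intro i
    have h1 := (hmem y |t| (abs_nonneg t)).1 (gap_LL_mono N (le_abs_self t) hy) i
    have h2 := Nat.le_ceil (|t| * (L i : ℝ))
    have h3 : |(y i : ℝ)| ≤ ((⌈|t| * (L i : ℝ)⌉₊ : ℤ) : ℝ) := by
      push_cast
      exact h1.trans h2
    exact_mod_cast h3
  · intro y
    refine ⟨fun i => y i / 2, ?_⟩
    rw [hmem _ _ (by positivity)]
    intro i
    have h1 : (y - (2 : ℤ) • fun i => y i / 2) i = y i % 2 := by
      simp only [Pi.sub_apply, Pi.smul_apply, smul_eq_mul]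
      have := Int.emod_add_mul_ediv (y i) 2
      linarith
    have h2 : |y i % 2| ≤ 1 := by
      rw [abs_le]; constructor <;> omega
    have h3 : |((y i % 2 : ℤ) : ℝ)| ≤ 1 := by exact_mod_cast h2
    rw [h1]
    refine h3.trans ?_
    rw [one_div, inv_mul_eq_div, le_div_iff₀ hD0, one_mul]
    exact_mod_cast hL i
  · rw [← gap_card_box, ← Set.ncard_coe_finset]
    refine Set.ncard_le_ncard ?_ (finite_toSet _)
    intro y hy
    rw [mem_coe, gap_mem_box]
    intro i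
    have h1 := (hmem y 1 (by norm_num)).1 hy i
    rw [one_mul] at h1
    exact_mod_cast h1
  · intro a ha
    obtain ⟨t, ht, c, hc, h⟩ := hst a ha
    refine ⟨t, ht, c, ?_, by rw [hψ]; exact h⟩
    rw [hmem c 1 (by norm_num)]
    intro i
    rw [one_mul]
    exact_mod_cast hc i

/-- the unit ball of a norm without short relations as a progression without short relations -/
theorem toGap {m : ℕ} {N : Seminorm ℝ (Fin m → ℝ)} (hfin : ∀ t, (LL N t).Finite)
    {ψ : (Fin m → ℤ) →+ G} {H : AddSubgroup G} {M : ℝ} (hNR : NR N ψ H M) {M' : ℕ}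
    (hM' : (M' : ℝ) * m ≤ M) {T A : Finset G} (hL : Lst N ψ H T A) :
    ∃ (k : ℕ) (v : Fin k → G) (L : Fin k → ℕ) (T' : Finset G), k ≤ m ∧ Mp v L H M' ∧
      ∏ i, (2 * L i + 1) ≤ (LL N 1).ncard ∧
      (T'.card : ℝ) ≤ T.card * ((4 * m + 1) ^ m * (12 * m ^ 3) ^ m) ∧ St v L H T' A := by
  classical
  obtain ⟨k, v, L, Y, hkm, hlin, hgap, hvol, hY, hcov⟩ := cov_john' N (r := 1) (by norm_num)
    (hfin _)
  have hsum : ∀ c : Fin k → ℤ, ∑ i, c i • ψ (v i) = ψ (∑ i, c i • v i) := by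
    intro c
    rw [map_sum]
    exact sum_congr rfl fun i _ => (map_zsmul ψ _ _).symm
  refine ⟨k, fun i => ψ (v i), L, T + Y.image ψ, hkm, ?_, hvol, ?_, ?_⟩
  · intro c hc hcH
    rw [hsum] at hcH
    have h1 : ∀ i, (L i : ℝ) * N (fun j => (v i j : ℝ)) ≤ 1 := by
      intro i
      have h2 := hgap (Pi.single i (L i : ℤ)) (fun j => by
        by_cases h : j = i
        · subst h
          rw [Pi.single_eq_same]
          simp
        · rw [Pi.single_eq_of_ne h]; simp)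
      have h3 : ∑ j, (Pi.single i (L i : ℤ) : Fin k → ℤ) j • v j = (L i : ℤ) • v i := by
        rw [sum_eq_single i]
        · rw [Pi.single_eq_same]
        · intro j _ hj
          rw [Pi.single_eq_of_ne hj, zero_smul]
        · intro h; exact absurd (mem_univ i) h
      rw [h3, mem_LL] at h2
      have h4 : (fun j => ((((L i : ℤ) • v i) j : ℤ) : ℝ)) = (L i : ℝ) • fun j => (v i j : ℝ) := by
        funext j; simp
      rw [h4, map_smul_eq_mul, Real.norm_eq_abs, Nat.abs_cast] at h2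
      exact h2
    have h5 : ∑ i, c i • v i ∈ LL N M := by
      rw [mem_LL]
      have h6 : (fun j => (((∑ i, c i • v i) j : ℤ) : ℝ)) =
          ∑ i, (c i : ℝ) • fun j => (v i j : ℝ) := by
        funext j
        simp
      rw [h6]
      refine (Dim_sum_le N _ _).trans ?_
      calc ∑ i, N ((c i : ℝ) • fun j => (v i j : ℝ)) ≤ ∑ _i : Fin k, (M' : ℝ) := by
            refine sum_le_sum fun i _ => ?_
            rw [map_smul_eq_mul, Real.norm_eq_abs]
            have h7 : |(c i : ℝ)| ≤ M' * L i := by exact_mod_cast hc i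
            have h8 : 0 ≤ N (fun j => (v i j : ℝ)) := apply_nonneg N _
            calc |(c i : ℝ)| * N (fun j => (v i j : ℝ)) ≤ (M' * L i) * N (fun j => (v i j : ℝ)) := by
                  gcongr
              _ = M' * (L i * N (fun j => (v i j : ℝ))) := by ring
              _ ≤ M' * 1 := by
                  have := h1 i
                  gcongr
              _ = M' := mul_one _
        _ = M' * k := by
            rw [sum_const, card_univ, Fintype.card_fin, nsmul_eq_mul]; ring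
        _ ≤ M' * m := by
            have : (k : ℝ) ≤ m := by exact_mod_cast hkm
            gcongr
        _ ≤ M := hM'
    have h9 := hNR _ h5 hcH
    funext i
    exact Fintype.linearIndependent_iff.1 hlin c h9 i
  · have h1 : ((T + Y.image ψ).card : ℝ) ≤ T.card * Y.card := by
      exact_mod_cast card_add_le.trans (Nat.mul_le_mul_left _ card_image_le)
    refine h1.trans ?_
    gcongr
  · intro a ha
    obtain ⟨t, ht, c, hc, h⟩ := hL a ha
    obtain ⟨y, hy, b, hb, e⟩ := hcov c hc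
    refine ⟨t + ψ y, add_mem_add ht (mem_image_of_mem _ hy), b, hb, ?_⟩
    have e1 : a - (t + ψ y) - ∑ i, b i • ψ (v i) = a - t - ψ c := by
      rw [e, map_add, hsum]
      abel
    rw [e1]
    exact h

/-- **removal of all short relations at near-polynomial cost** -/
theorem iter2 {A T₀ : Finset G} {k₀ : ℕ} {v₀ : Fin k₀ → G} {L₀ : Fin k₀ → ℕ}
    {H₀ : AddSubgroup G} (hH₀ : Finite H₀) (hst₀ : St v₀ L₀ H₀ T₀ A) {M' : ℕ} (hM' : 1 ≤ M')
    {kh : ℕ} (hkh : k₀ + 1 ≤ kh) :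
    ∃ (k : ℕ) (v : Fin k → G) (L : Fin k → ℕ) (H : AddSubgroup G) (T : Finset G),
      k ≤ k₀ ∧ Finite H ∧ Mp v L H M' ∧
      (T.card : ℝ) ≤ T₀.card * ((32 * kh) ^ kh * ((4 * kh + 1) ^ kh * (12 * kh ^ 3) ^ kh)) ∧
      (((∏ i, (2 * L i + 1)) * Nat.card H : ℕ) : ℝ) ≤
        (32 * kh ^ 2 * M') ^ kh * (((∏ i, (2 * L₀ i + 1)) * Nat.card H₀ : ℕ) : ℝ) ∧
      St v L H T A := by
  classical
  obtain ⟨D, hD⟩ : ∃ D : ℕ, D = 16 * kh := ⟨_, rfl⟩
  have hD1 : 1 ≤ D := by omega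
  obtain ⟨I, hI⟩ : ∃ I : Finset (Fin k₀), I = univ.filter fun i => D ≤ L₀ i := ⟨_, rfl⟩
  have hMp0 : Mp v₀ L₀ H₀ 0 := by
    intro c hc _
    funext i
    have := hc i
    simp only [Nat.cast_zero, zero_mul] at this
    exact abs_nonpos_iff.1 this
  obtain ⟨v₁, L₁, T₁, -, hT₁, hvol₁, hL₁, hst₁⟩ := drop hMp0 hst₀ I
  have hL₁' : ∀ i, D ≤ L₁ i := by
    intro i
    obtain ⟨j, hj, e⟩ := hL₁ i
    rw [hI, mem_filter] at hj
    rw [e]; exact hj.2
  have hIc : I.card ≤ k₀ := by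
    have := card_le_univ I
    rwa [Fintype.card_fin] at this
  obtain ⟨N, ψ, hfin, hTh, hN1, hL⟩ := initLat hst₁ hD1 hL₁'
  have hkh1 : (1 : ℝ) ≤ kh := by
    have : 1 ≤ kh := by omega
    exact_mod_cast this
  have hM'1 : (1 : ℝ) ≤ M' := by exact_mod_cast hM'
  obtain ⟨M, hM⟩ : ∃ M : ℝ, M = M' * kh := ⟨_, rfl⟩
  have hM1 : 1 ≤ M := by rw [hM]; nlinarith
  have hDr : (D : ℝ) = 16 * kh := by rw [hD]; push_cast; ring
  have hIk : (I.card : ℝ) ≤ kh := by
    have : I.card ≤ kh := by omega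
    exact_mod_cast this
  obtain ⟨m', N', ψ', H', hm', hH', hfin', hTh', hNR', hvol', hL'⟩ := latIter (M := M) hM1
    (k₀ := kh) (by omega) (δ := 1 / D) (by positivity) (by
      rw [hDr]
      have : (0 : ℝ) < 16 * kh := by linarith
      rw [mul_one_div_cancel this.ne']) I.card N ψ H₀ 1 hH₀ hfin hTh (by
      have h1 : 3 * (I.card : ℝ) / (8 * kh) ≤ 3 / 8 := by
        rw [div_le_div_iff₀ (by positivity) (by norm_num)]
        nlinarith
      linarith) le_rfl hL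
  have hm'k : m' ≤ k₀ := hm'.trans hIc
  have hm'h : (m' : ℝ) ≤ kh := by
    have : m' ≤ kh := by omega
    exact_mod_cast this
  obtain ⟨k, v, L, T, hk, hMp, hvol, hT, hst⟩ := toGap hfin' hNR' (M' := M') (by
    rw [hM]; gcongr) hL'
  refine ⟨k, v, L, H', T, hk.trans hm'k, hH', hMp, ?_, ?_, hst⟩
  · have h1 : ∏ i, (2 * (if i ∈ I then 0 else L₀ i) + 1) ≤ (32 * kh) ^ k₀ := by
      have hp : (32 * kh) ^ k₀ = ∏ _i : Fin k₀, (32 * kh) := by
        rw [prod_const, card_univ, Fintype.card_fin]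
      rw [hp]
      refine Finset.prod_le_prod' fun i _ => ?_
      by_cases hi : i ∈ I
      · rw [if_pos hi]; omega
      · rw [if_neg hi]
        rw [hI, mem_filter] at hi
        have hi' : ¬ D ≤ L₀ i := fun h => hi ⟨mem_univ i, h⟩
        omega
    have h2 : (T₁.card : ℝ) ≤ T₀.card * (32 * kh) ^ kh := by
      have h3 : (T₁.card : ℝ) ≤ T₀.card * (32 * kh) ^ k₀ := by
        exact_mod_cast hT₁.trans (Nat.mul_le_mul_left _ h1)
      refine h3.trans ?_
      have h4 : (32 * (kh : ℝ)) ^ k₀ ≤ (32 * kh) ^ kh :=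
        pow_le_pow_right₀ (by linarith) (by omega)
      gcongr
    have h5 : (4 * (m' : ℝ) + 1) ^ m' ≤ (4 * kh + 1) ^ kh := by
      calc (4 * (m' : ℝ) + 1) ^ m' ≤ (4 * kh + 1) ^ m' := by gcongr
        _ ≤ (4 * kh + 1) ^ kh := pow_le_pow_right₀ (by linarith) (by omega)
    have h6 : (12 * (m' : ℝ) ^ 3) ^ m' ≤ (12 * kh ^ 3) ^ kh := gap_pow_le (by omega)
    calc (T.card : ℝ) ≤ T₁.card * ((4 * m' + 1) ^ m' * (12 * m' ^ 3) ^ m') := hT
      _ ≤ (T₀.card * (32 * kh) ^ kh) * ((4 * kh + 1) ^ kh * (12 * kh ^ 3) ^ kh) := by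
          gcongr
      _ = _ := by ring
  · have h1 : ((LL N' 1).ncard : ℝ) ≤ 2 ^ kh * (LL N' (5 / 8)).ncard := by
      have h2 := sc1 hTh' (t := 1 / 2) (hfin' _)
      rw [mul_one_div_cancel (by norm_num : (2 : ℝ) ≠ 0)] at h2
      have h3 : (LL N' (1 / 2 + 1 / (D : ℝ) / 2)).ncard ≤ (LL N' (5 / 8)).ncard := by
        refine Set.ncard_le_ncard (gap_LL_mono N' ?_) (hfin' _)
        have h4 : 1 / (D : ℝ) ≤ 1 / 16 := by
          apply one_div_le_one_div_of_le (by norm_num)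
          rw [hDr]; linarith
        linarith
      have h5 : ((LL N' 1).ncard : ℝ) ≤ 2 ^ m' * (LL N' (5 / 8)).ncard := by
        exact_mod_cast h2.trans (Nat.mul_le_mul_left _ h3)
      refine h5.trans ?_
      have h6 : (2 : ℝ) ^ m' ≤ 2 ^ kh := pow_le_pow_right₀ (by norm_num) (by omega)
      gcongr
    have h2 : (((∏ i, (2 * L i + 1)) * Nat.card H' : ℕ) : ℝ) ≤ (LL N' 1).ncard * Nat.card H' := by
      exact_mod_cast Nat.mul_le_mul_right _ hvol
    have h3 : ((LL N 1).ncard : ℝ) ≤ ((∏ i, (2 * L₀ i + 1) : ℕ) : ℝ) := by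
      exact_mod_cast hN1.trans hvol₁
    have hkM : (1 : ℝ) ≤ 16 * kh * M := by nlinarith
    calc (((∏ i, (2 * L i + 1)) * Nat.card H' : ℕ) : ℝ)
        ≤ (LL N' 1).ncard * Nat.card H' := h2
      _ ≤ (2 ^ kh * (LL N' (5 / 8)).ncard) * Nat.card H' := by gcongr
      _ = 2 ^ kh * ((LL N' (5 / 8)).ncard * Nat.card H') := by ring
      _ ≤ 2 ^ kh * ((16 * kh * M) ^ I.card * ((LL N 1).ncard * Nat.card H₀)) := by gcongr
      _ ≤ 2 ^ kh * ((16 * kh * M) ^ kh *
            (((∏ i, (2 * L₀ i + 1) : ℕ) : ℝ) * Nat.card H₀)) := by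
          have h4 : (16 * (kh : ℝ) * M) ^ I.card ≤ (16 * kh * M) ^ kh :=
            pow_le_pow_right₀ hkM (by omega)
          gcongr
      _ = (2 * (16 * kh * M)) ^ kh * (((∏ i, (2 * L₀ i + 1) : ℕ) : ℝ) * Nat.card H₀) := by
          rw [mul_pow 2 (16 * (kh : ℝ) * M) kh]
          exact (mul_assoc _ _ _).symm
      _ = _ := by
          have e1 : 2 * (16 * (kh : ℝ) * M) = 32 * kh ^ 2 * M' := by rw [hM]; ring
          rw [e1, Nat.cast_mul]

end Pool.Agent.U546.FB
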