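import Pool.Agent.U546.FB.Conv
import Pool.Agent.U546.FB.Chain

/-!
# The main argument, with parameters
-/

set_option autoImplicit false

namespace Pool.Agent.U546.FB

open Finset H112
open scoped Pointwise

variable {G : Type*} [AddCommGroup G] [DecidableEq G]

/-- the second half of the argument: from a progression without short relations to one of
rank at most `log₂ K + s` -/
theorem coreA {A : Finset G} (hA : A.Nonempty) {K : ℝ} (hK1 : 1 ≤ K)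
    (hK : ((A + A).card : ℝ) ≤ K * A.card) {s : ℝ} {k₁ : ℕ} {v₁ : Fin k₁ → G}
    {L₁ : Fin k₁ → ℕ} {H₁ : AddSubgroup G} {T₁ : Finset G} (hH₁ : Finite H₁)
    (hst₁ : St v₁ L₁ H₁ T₁ A) {n R J : ℕ} (hMp : Mp v₁ L₁ H₁ (8 * R ^ n)) (hn : 0 < n)
    (hR : 2 ≤ R) (hs : 0 < s) {Θ W : ℝ} (hT₁' : (T₁.card : ℝ) ≤ Θ)
    (hΘ : Θ ≤ ((2 : ℝ) ^ (s / 4)) ^ n) (hW1 : 1 ≤ W)
    (hvol₁' : (((∏ i, (2 * L₁ i + 1)) * Nat.card H₁ : ℕ) : ℝ) ≤ W * A.card) {k₀ : ℕ}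
    (hk₁ : k₁ ≤ k₀) (hR' : (1 + 2 / (R : ℝ)) ^ k₀ ≤ 2 ^ (s / 4))
    (hJ : Θ * (3 ^ k₀ * (W * K)) < ((2 : ℝ) ^ (s / 2)) ^ (J + 1)) :
    ∃ (k : ℕ) (v : Fin k → G) (L : Fin k → ℕ) (H : AddSubgroup G) (T : Finset G),
      ((k : ℝ) ≤ Real.logb 2 K + s ∨
        (k = 1 ∧ ∃ H₂ : AddSubgroup G, Finite H₂ ∧ A.card < Nat.card H₂)) ∧
      Finite H ∧ Mp v L H 2 ∧ (∏ i, (2 * L i + 1)) * Nat.card H ≤ A.card ∧
      (T.card : ℝ) ≤ Θ * (2 ^ (J + 1)) ^ k₀ * (9 ^ k₀ * (3 * W ^ 2)) ∧ St v L H T A := by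
  classical
  have hR0 : 0 < R := by omega
  have hM2 : 2 ≤ 8 * R ^ n := by
    have : 0 < R ^ n := Nat.pow_pos hR0
    omega
  have hsetfin : (H₁ : Set G).Finite := Set.toFinite _
  obtain ⟨Hf, hHfd⟩ : ∃ Hf : Finset G, Hf = hsetfin.toFinset := ⟨_, rfl⟩
  have hHf : ∀ x, x ∈ Hf ↔ x ∈ H₁ := by
    intro x; rw [hHfd, Set.Finite.mem_toFinset]; rfl
  have hHfc : Hf.card = Nat.card H₁ := by
    rw [hHfd, ← Set.ncard_eq_toFinset_card _ hsetfin]; rfl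
  obtain ⟨I, hI⟩ : ∃ I : Finset (Fin k₁), I = univ.filter fun i => 2 ^ J ≤ L₁ i := ⟨_, rfl⟩
  obtain ⟨θ, hθ⟩ : ∃ θ : ℝ, θ = (2 : ℝ) ^ (s / 4) := ⟨_, rfl⟩
  have hθ1 : 1 ≤ θ := by
    rw [hθ]
    exact Real.one_le_rpow (by norm_num) (by positivity)
  have hcov : A ⊆ T₁ + Bx v₁ L₁ Hf 1 := by
    intro a ha
    obtain ⟨t, ht, c, hc, h⟩ := hst₁ a ha
    refine mem_add.2 ⟨t, ht, a - t, mem_Bx.2 ⟨c, fun i => by simpa using hc i,
      a - t - ∑ i, c i • v₁ i, (hHf _).2 h, by abel⟩, by abel⟩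
  have hRr : (0 : ℝ) < R := by exact_mod_cast hR0
  have hch := chain hHf hMp hR hn le_rfl hA hK1 hK hcov hθ1 (hT₁'.trans (by rw [hθ]; exact hΘ))
    (W := W) (by rw [hHfc]; exact hvol₁') (I := I) (J := J) (fun i hi => by
      rw [hI, mem_filter] at hi; exact hi.2)
  have hΘ0 : 0 ≤ Θ := le_trans (by positivity) hT₁'
  have h1 : (2 ^ I.card / (θ * (1 + 2 / (R : ℝ)) ^ k₁ * K)) ^ (J + 1) <
      ((2 : ℝ) ^ (s / 2)) ^ (J + 1) := by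
    refine lt_of_le_of_lt (hch.trans ?_) hJ
    have h3 : (3 : ℝ) ^ k₁ ≤ 3 ^ k₀ := pow_le_pow_right₀ (by norm_num) hk₁
    gcongr
  have h2 : 2 ^ I.card / (θ * (1 + 2 / (R : ℝ)) ^ k₁ * K) < (2 : ℝ) ^ (s / 2) :=
    lt_of_pow_lt_pow_left₀ _ (by positivity) h1
  have h3 : (1 + 2 / (R : ℝ)) ^ k₁ ≤ θ := by
    rw [hθ]
    refine le_trans (pow_le_pow_right₀ ?_ hk₁) hR'
    have : (0 : ℝ) ≤ 2 / R := by positivity
    linarith
  have hK0 : 0 < K := by linarith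
  have hθ0 : 0 < θ := by linarith
  have h4 : (2 : ℝ) ^ I.card < 2 ^ s * K := by
    rw [div_lt_iff₀ (by positivity)] at h2
    calc (2 : ℝ) ^ I.card < 2 ^ (s / 2) * (θ * (1 + 2 / (R : ℝ)) ^ k₁ * K) := h2
      _ ≤ 2 ^ (s / 2) * (θ * θ * K) := by gcongr
      _ = (2 ^ (s / 2) * (2 ^ (s / 4) * 2 ^ (s / 4))) * K := by rw [hθ]; ring
      _ = 2 ^ s * K := by
          rw [← Real.rpow_add (by norm_num), ← Real.rpow_add (by norm_num)]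
          congr 2
          ring
  have h5 : (I.card : ℝ) ≤ Real.logb 2 K + s := by
    have h6 : (2 : ℝ) ^ (I.card : ℝ) ≤ 2 ^ (Real.logb 2 K + s) := by
      rw [Real.rpow_natCast, Real.rpow_add (by norm_num),
        Real.rpow_logb (by norm_num) (by norm_num) hK0]
      linarith
    exact (Real.rpow_le_rpow_left_iff (by norm_num)).1 h6
  obtain ⟨v₂, L₂, T₂, hMp₂, hT₂, hvol₂, -, hst₂⟩ := drop hMp hst₁ I
  have hvol₂' : (((∏ i, (2 * L₂ i + 1)) * Nat.card H₁ : ℕ) : ℝ) ≤ W * A.card := by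
    refine le_trans ?_ hvol₁'
    exact_mod_cast Nat.mul_le_mul_right _ hvol₂
  obtain ⟨k, v, L, H, T, hk, hH, hMp', hvol, hT, hst⟩ := finish hMp₂ hM2 hA hst₂ hW1 hvol₂'
  refine ⟨k, v, L, H, T, ?_, hH, hMp', hvol, ?_, hst⟩
  · rcases hk with h | h
    · left
      rw [h]
      exact h5
    · right
      exact ⟨h.1, H₁, hH₁, h.2⟩
  · have h7 : ∏ i, (2 * (if i ∈ I then 0 else L₁ i) + 1) ≤ (2 ^ (J + 1)) ^ k₁ := by
      have hp : ((2 : ℕ) ^ (J + 1)) ^ k₁ = ∏ _i : Fin k₁, 2 ^ (J + 1) := by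
        rw [prod_const, card_univ, Fintype.card_fin]
      rw [hp]
      refine Finset.prod_le_prod' fun i _ => ?_
      by_cases hi : i ∈ I
      · rw [if_pos hi]
        have : 1 ≤ 2 ^ (J + 1) := Nat.one_le_two_pow
        omega
      · rw [if_neg hi]
        rw [hI, mem_filter] at hi
        have hi' : ¬ 2 ^ J ≤ L₁ i := fun h => hi ⟨mem_univ i, h⟩
        rw [pow_succ]
        omega
    have h8 : (T₂.card : ℝ) ≤ Θ * (2 ^ (J + 1)) ^ k₀ := by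
      have h9 : (T₂.card : ℝ) ≤ T₁.card * (2 ^ (J + 1)) ^ k₁ := by
        exact_mod_cast hT₂.trans (Nat.mul_le_mul_left _ h7)
      refine h9.trans ?_
      have h10 : ((2 : ℝ) ^ (J + 1)) ^ k₁ ≤ (2 ^ (J + 1)) ^ k₀ :=
        pow_le_pow_right₀ (one_le_pow₀ (by norm_num)) hk₁
      gcongr
    have h11 : (9 : ℝ) ^ I.card ≤ 9 ^ k₀ := by
      apply pow_le_pow_right₀ (by norm_num)
      have := card_le_univ I
      rw [Fintype.card_fin] at this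
      omega
    calc (T.card : ℝ) ≤ T₂.card * (9 ^ I.card * (3 * W ^ 2)) := hT
      _ ≤ (Θ * (2 ^ (J + 1)) ^ k₀) * (9 ^ k₀ * (3 * W ^ 2)) := by gcongr

end Pool.Agent.U546.FB
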