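import Pool.Agent.H112R2.Gap

/-!
# Covering the lattice points of a ball by few translates of a box, and shrinking a box
-/

set_option autoImplicit false

namespace Pool.Agent.U546.FB

open Finset H112
open scoped Pointwise

/-- covering the lattice points of a ball by translates of the progression of the discrete John
theorem -/
theorem cov_john' {m : ℕ} (N : Seminorm ℝ (Fin m → ℝ)) {r : ℝ} (hr : 0 ≤ r)
    (hfin : (LL N (2 * r)).Finite) :
    ∃ (k : ℕ) (v : Fin k → (Fin m → ℤ)) (L : Fin k → ℕ) (Y : Finset (Fin m → ℤ)), k ≤ m ∧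
      LinearIndependent ℤ v ∧ (∀ a : Fin k → ℤ, (∀ i, |a i| ≤ L i) → ∑ i, a i • v i ∈ LL N r) ∧
      ∏ i, (2 * L i + 1) ≤ (LL N r).ncard ∧
      (Y.card : ℝ) ≤ (4 * m + 1) ^ m * (12 * m ^ 3) ^ m ∧
      ∀ c ∈ LL N r, ∃ y ∈ Y, ∃ a : Fin k → ℤ, (∀ i, |a i| ≤ L i) ∧ c = y + ∑ i, a i • v i := by
  classical
  have hfr : (LL N r).Finite := hfin.subset (gap_LL_mono N (by linarith))
  obtain ⟨k, v, L, hkm, hlin, hgap, hcard⟩ := discrete_john N hr hfr
  obtain ⟨f, hf⟩ : ∃ f : (Fin k → ℤ) → (Fin m → ℤ), f = fun a => ∑ i, a i • v i := ⟨_, rfl⟩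
  have hinj : Function.Injective f := by
    intro a b hab
    have h0 : ∑ i, (a i - b i) • v i = 0 := by
      simp only [sub_smul, Finset.sum_sub_distrib]
      rw [hf] at hab
      exact sub_eq_zero.2 hab
    have := Fintype.linearIndependent_iff.1 hlin (fun i => a i - b i) h0
    funext i
    exact sub_eq_zero.1 (this i)
  have hprod : ∏ i, (2 * L i + 1) ≤ (LL N r).ncard := by
    rw [← gap_card_box]
    have himg : (f '' (gapBox L : Set (Fin k → ℤ))) ⊆ LL N r := by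
      rintro _ ⟨a, ha, rfl⟩
      rw [hf]
      exact hgap a (gap_mem_box.1 ha)
    have hc := Set.ncard_le_ncard himg hfr
    rw [Set.ncard_image_of_injective _ hinj, Set.ncard_coe_finset] at hc
    exact hc
  obtain ⟨L', hL'⟩ : ∃ L' : Fin k → ℕ, L' = fun i => L i / 2 := ⟨_, rfl⟩
  obtain ⟨Q, hQ⟩ : ∃ Q : Finset (Fin m → ℤ), Q = (gapBox L').image f := ⟨_, rfl⟩
  have hL'L : ∀ i, 2 * L' i ≤ L i := fun i => by rw [hL']; simp only; omega
  have hQcard : Q.card = ∏ i, (2 * L' i + 1) := by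
    rw [← gap_card_box, hQ, Finset.card_image_of_injective _ hinj]
  have hQpos : Q.Nonempty := by
    rw [← Finset.card_pos, hQcard]
    exact Finset.prod_pos fun i _ => by omega
  have hQge : (∏ i, (2 * L i + 1) : ℕ) ≤ 3 ^ k * Q.card := by
    rw [hQcard]
    calc (∏ i, (2 * L i + 1) : ℕ) ≤ ∏ i, (3 * (2 * L' i + 1)) :=
          Finset.prod_le_prod' fun i _ => by
            rw [hL']; simp only; omega
      _ = 3 ^ k * ∏ i, (2 * L' i + 1) := by
          rw [Finset.prod_mul_distrib, Finset.prod_const, Finset.card_univ, Fintype.card_fin]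
  have hQmem : ∀ q ∈ Q, q ∈ LL N r := by
    intro q hq
    rw [hQ] at hq
    obtain ⟨a, ha, rfl⟩ := Finset.mem_image.1 hq
    rw [hf]
    refine hgap a fun i => ?_
    have h1 := gap_mem_box.1 ha i
    have h2 : (L' i : ℤ) ≤ L i := by have := hL'L i; omega
    exact h1.trans h2
  obtain ⟨B, hB⟩ : ∃ B : Finset (Fin m → ℤ), B = hfr.toFinset := ⟨_, rfl⟩
  have hBQ : (B + Q).card ≤ (LL N (2 * r)).ncard := by
    rw [← Set.ncard_coe_finset]
    refine Set.ncard_le_ncard ?_ hfin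
    intro z hz
    rw [Finset.mem_coe] at hz
    obtain ⟨b, hb, q, hq, rfl⟩ := Finset.mem_add.1 hz
    rw [hB, Set.Finite.mem_toFinset] at hb
    have := gap_LL_add N hb (hQmem q hq)
    rwa [← two_mul] at this
  have hdbl : ((LL N (2 * r)).ncard : ℝ) ≤ (4 * (m : ℝ) + 1) ^ m * (LL N r).ncard := by
    have h := doubling N (r := 2 * r) (by positivity) hfin
    rw [mul_div_cancel_left₀ r (two_ne_zero)] at h
    exact_mod_cast h
  have hkey1 : ((LL N r).ncard : ℝ) ≤ (12 * (m : ℝ) ^ 3) ^ m * Q.card := by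
    have hc1 : ((LL N r).ncard : ℝ) ≤ (4 * (k : ℝ) ^ 3) ^ k * (3 ^ k * Q.card) := by
      calc ((LL N r).ncard : ℝ) ≤ (((4 * k ^ 3) ^ k * ∏ i, (2 * L i + 1) : ℕ) : ℝ) := by
            exact_mod_cast hcard
        _ ≤ (((4 * k ^ 3) ^ k * (3 ^ k * Q.card) : ℕ) : ℝ) := by
            exact_mod_cast Nat.mul_le_mul_left _ hQge
        _ = (4 * (k : ℝ) ^ 3) ^ k * (3 ^ k * Q.card) := by push_cast; ring
    calc ((LL N r).ncard : ℝ) ≤ (4 * (k : ℝ) ^ 3) ^ k * (3 ^ k * Q.card) := hc1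
      _ = (12 * (k : ℝ) ^ 3) ^ k * Q.card := by
          rw [← mul_assoc, ← mul_pow]
          ring_nf
      _ ≤ (12 * (m : ℝ) ^ 3) ^ m * Q.card := by
          have := gap_pow_le hkm
          gcongr
  have hM1 : (0 : ℝ) ≤ (4 * (m : ℝ) + 1) ^ m := by positivity
  have hK : (((B + Q).card : ℕ) : ℝ) ≤
      ((4 * (m : ℝ) + 1) ^ m * (12 * (m : ℝ) ^ 3) ^ m) * Q.card := by
    calc (((B + Q).card : ℕ) : ℝ) ≤ (LL N (2 * r)).ncard := by exact_mod_cast hBQ
      _ ≤ (4 * (m : ℝ) + 1) ^ m * (LL N r).ncard := hdbl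
      _ ≤ (4 * (m : ℝ) + 1) ^ m * ((12 * (m : ℝ) ^ 3) ^ m * Q.card) :=
          mul_le_mul_of_nonneg_left hkey1 hM1
      _ = _ := by ring
  obtain ⟨Y, hYB, hYcard, hYcov⟩ := Finset.ruzsa_covering_add hQpos hK
  refine ⟨k, v, L, Y, hkm, hlin, hgap, hprod, hYcard, ?_⟩
  intro c hc
  have hB' : c ∈ B := by rw [hB]; simpa using hc
  obtain ⟨y, hy, d, hd, hyd⟩ := Finset.mem_add.1 (hYcov hB')
  obtain ⟨q, hq, q', hq', hqq⟩ := Finset.mem_sub.1 hd
  rw [hQ] at hq hq'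
  obtain ⟨a, ha, rfl⟩ := Finset.mem_image.1 hq
  obtain ⟨b, hb, rfl⟩ := Finset.mem_image.1 hq'
  refine ⟨y, hy, fun i => a i - b i, fun i => ?_, ?_⟩
  · have h3 := gap_mem_box.1 ha i
    have h4 := gap_mem_box.1 hb i
    have h5 : (L' i : ℤ) + L' i ≤ L i := by
      have := hL'L i
      omega
    calc |a i - b i| ≤ |a i| + |b i| := abs_sub _ _
      _ ≤ L i := by linarith
  · have : ∑ i, (a i - b i) • v i = f a - f b := by
      rw [hf]
      simp only [sub_smul, Finset.sum_sub_distrib]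
    rw [this, hqq, hyd]

theorem cov_john {m : ℕ} (N : Seminorm ℝ (Fin m → ℝ)) {r : ℝ} (hr : 0 ≤ r)
    (hfin : (LL N (2 * r)).Finite) :
    ∃ (k : ℕ) (v : Fin k → (Fin m → ℤ)) (L : Fin k → ℕ) (Y : Finset (Fin m → ℤ)), k ≤ m ∧
      ∏ i, (2 * L i + 1) ≤ (LL N r).ncard ∧
      (Y.card : ℝ) ≤ (4 * m + 1) ^ m * (12 * m ^ 3) ^ m ∧
      ∀ c ∈ LL N r, ∃ y ∈ Y, ∃ a : Fin k → ℤ, (∀ i, |a i| ≤ L i) ∧ c = y + ∑ i, a i • v i := by
  obtain ⟨k, v, L, Y, h1, -, -, h2, h3, h4⟩ := cov_john' N hr hfin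
  exact ⟨k, v, L, Y, h1, h2, h3, h4⟩

/-- balanced division -/
theorem bdiv (n : ℤ) (L L' : ℕ) (h : |n| ≤ L) :
    ∃ q : ℤ, |q| ≤ ((L + L') / (2 * L' + 1) : ℕ) ∧ |n - (2 * L' + 1) * q| ≤ L' := by
  rw [abs_le] at h
  have hb : (0 : ℤ) < 2 * L' + 1 := by positivity
  refine ⟨(n + L') / (2 * L' + 1), ?_, ?_⟩
  · rw [abs_le]
    push_cast
    constructor
    · rw [neg_le_iff_add_nonneg]
      have h1 : (n + L') + (L + L') ≥ 2 * L' := by linarith
      have h2 := Int.emod_add_mul_ediv (n + L') (2 * L' + 1)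
      have h3 := Int.emod_add_mul_ediv (L + L' : ℤ) (2 * L' + 1)
      have h4 := Int.emod_lt_of_pos (n + L') hb
      have h5 := Int.emod_lt_of_pos (L + L' : ℤ) hb
      by_contra hcon
      push Not at hcon
      have h6 : (n + L') / (2 * L' + 1) + (L + L' : ℤ) / (2 * L' + 1) ≤ -1 := by omega
      nlinarith
    · apply Int.ediv_le_ediv hb
      linarith
  · have h2 := Int.emod_add_mul_ediv (n + L') (2 * L' + 1)
    have h3 := Int.emod_nonneg (n + L') hb.ne'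
    have h4 := Int.emod_lt_of_pos (n + L') hb
    rw [abs_le]
    constructor <;> linarith

/-- **shrinking a box**: covering a box by translates of a sub-box of volume at most `V` -/
theorem shrink {k : ℕ} (L : Fin k → ℕ) {V : ℕ} (hV : 1 ≤ V) {M : ℝ} (hM : 1 ≤ M)
    (hLM : ((∏ i, (2 * L i + 1) : ℕ) : ℝ) ≤ M * V) :
    ∃ (L' : Fin k → ℕ) (Y : Finset (Fin k → ℤ)), (∀ i, L' i ≤ L i) ∧
      ∏ i, (2 * L' i + 1) ≤ V ∧ (Y.card : ℝ) ≤ 9 ^ k * M ∧
      ∀ a : Fin k → ℤ, (∀ i, |a i| ≤ L i) → ∃ y ∈ Y, ∀ i, |a i - y i| ≤ L' i := by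
  classical
  by_cases h0 : ∏ i, (2 * L i + 1) ≤ V
  · refine ⟨L, {0}, fun i => le_rfl, h0, ?_, ?_⟩
    · rw [card_singleton]
      have : (1 : ℝ) ≤ 9 ^ k := one_le_pow₀ (by norm_num)
      push_cast
      nlinarith
    · intro a ha
      exact ⟨0, by simp, fun i => by simpa using ha i⟩
  push Not at h0
  have hex : ∃ j : ℕ, ∏ i, (2 * (L i / 2 ^ j) + 1) ≤ V := by
    refine ⟨∑ i, L i, ?_⟩
    have h1 : ∀ i, L i / 2 ^ (∑ i, L i) = 0 := by
      intro i
      apply Nat.div_eq_of_lt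
      have h2 : L i ≤ ∑ i, L i := single_le_sum (f := L) (fun _ _ => Nat.zero_le _) (mem_univ i)
      exact lt_of_le_of_lt h2 Nat.lt_two_pow_self
    simp only [h1]
    simpa using hV
  obtain ⟨j, hj⟩ : ∃ j, j = Nat.find hex := ⟨_, rfl⟩
  have hj1 : ∏ i, (2 * (L i / 2 ^ j) + 1) ≤ V := by rw [hj]; exact Nat.find_spec hex
  have hj0 : 0 < j := by
    by_contra hcon
    have : j = 0 := by omega
    rw [this] at hj1
    simp only [pow_zero, Nat.div_one] at hj1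
    omega
  have hj2 : V < ∏ i, (2 * (L i / 2 ^ (j - 1)) + 1) := by
    have := Nat.find_min hex (m := j - 1) (by omega)
    omega
  obtain ⟨L', hL'⟩ : ∃ L' : Fin k → ℕ, L' = fun i => L i / 2 ^ j := ⟨_, rfl⟩
  have hV3 : V ≤ 3 ^ k * ∏ i, (2 * L' i + 1) := by
    refine hj2.le.trans ?_
    calc ∏ i, (2 * (L i / 2 ^ (j - 1)) + 1) ≤ ∏ i, (3 * (2 * L' i + 1)) :=
          Finset.prod_le_prod' fun i _ => by
            have h1 : L' i = L i / 2 ^ (j - 1) / 2 := by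
              rw [hL']
              simp only
              rw [Nat.div_div_eq_div_mul]
              congr 1
              obtain ⟨i, rfl⟩ : ∃ i, j = i + 1 := ⟨j - 1, by omega⟩
              rw [Nat.add_sub_cancel, pow_succ]
            rw [h1]
            omega
      _ = 3 ^ k * ∏ i, (2 * L' i + 1) := by
          rw [Finset.prod_mul_distrib, Finset.prod_const, Finset.card_univ, Fintype.card_fin]
  obtain ⟨q, hq⟩ : ∃ q : Fin k → ℕ, q = fun i => (L i + L' i) / (2 * L' i + 1) := ⟨_, rfl⟩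
  have hqL : (∏ i, (2 * q i + 1)) * ∏ i, (2 * L' i + 1) ≤ 3 ^ k * ∏ i, (2 * L i + 1) := by
    rw [← Finset.prod_mul_distrib]
    calc ∏ i, ((2 * q i + 1) * (2 * L' i + 1)) ≤ ∏ i, (3 * (2 * L i + 1)) :=
          Finset.prod_le_prod' fun i _ => by
            have h1 : q i * (2 * L' i + 1) ≤ L i + L' i := by
              rw [hq]; exact Nat.div_mul_le_self _ _
            have h2 : L' i ≤ L i := by rw [hL']; exact Nat.div_le_self _ _
            nlinarith
      _ = 3 ^ k * ∏ i, (2 * L i + 1) := by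
          rw [Finset.prod_mul_distrib, Finset.prod_const, Finset.card_univ, Fintype.card_fin]
  refine ⟨L', (gapBox q).image fun b i => (2 * L' i + 1) * b i, fun i => by
    rw [hL']; exact Nat.div_le_self _ _, by rw [hL']; exact hj1, ?_, ?_⟩
  · have hP : (0 : ℝ) < ((∏ i, (2 * L' i + 1) : ℕ) : ℝ) := by
      exact_mod_cast Finset.prod_pos fun i _ => by omega
    have h1 : (((gapBox q).image fun b i => (2 * (L' i : ℤ) + 1) * b i).card : ℝ) ≤
        ((∏ i, (2 * q i + 1) : ℕ) : ℝ) := by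
      rw [← gap_card_box]
      exact_mod_cast card_image_le
    refine h1.trans ?_
    have h2 : (((∏ i, (2 * q i + 1)) : ℕ) : ℝ) * ((∏ i, (2 * L' i + 1) : ℕ) : ℝ) ≤
        3 ^ k * ((∏ i, (2 * L i + 1) : ℕ) : ℝ) := by exact_mod_cast hqL
    have h3 : (V : ℝ) ≤ 3 ^ k * ((∏ i, (2 * L' i + 1) : ℕ) : ℝ) := by exact_mod_cast hV3
    have h4 : (((∏ i, (2 * q i + 1)) : ℕ) : ℝ) * ((∏ i, (2 * L' i + 1) : ℕ) : ℝ) ≤
        9 ^ k * M * ((∏ i, (2 * L' i + 1) : ℕ) : ℝ) := by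
      calc _ ≤ 3 ^ k * ((∏ i, (2 * L i + 1) : ℕ) : ℝ) := h2
        _ ≤ 3 ^ k * (M * (3 ^ k * ((∏ i, (2 * L' i + 1) : ℕ) : ℝ))) := by
            gcongr
            exact hLM.trans (mul_le_mul_of_nonneg_left h3 (by linarith))
        _ = (3 * 3) ^ k * M * ((∏ i, (2 * L' i + 1) : ℕ) : ℝ) := by
            rw [mul_pow]; ring
        _ = _ := by norm_num
    exact le_of_mul_le_mul_right h4 hP
  · intro a ha
    choose b hb1 hb2 using fun i => bdiv (a i) (L i) (L' i) (ha i)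
    refine ⟨fun i => (2 * L' i + 1) * b i, ?_, hb2⟩
    rw [mem_image]
    refine ⟨b, ?_, rfl⟩
    rw [gap_mem_box]
    intro i
    rw [hq]
    exact hb1 i

end Pool.Agent.U546.FB
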