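import Pool.Agent.U546.FB.Init

/-!
# Dropping the short generators, and shrinking to the volume of `A`
-/

set_option autoImplicit false

namespace Pool.Agent.U546.FB

open Finset H112
open scoped Pointwise

variable {G : Type*} [AddCommGroup G] [DecidableEq G]

omit [DecidableEq G] in
theorem sum_equiv' {k : ℕ} (v : Fin k → G) (I : Finset (Fin k)) (e : Fin I.card ≃ I)
    (c : Fin k → ℤ) (hc : ∀ i, i ∉ I → c i = 0) :
    ∑ i, c i • v i = ∑ j, c (e j) • v (e j) := by
  have h1 : ∑ i, c i • v i = ∑ i ∈ I, c i • v i := by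
    symm
    apply sum_subset (subset_univ I)
    intro i _ hi
    rw [hc i hi, zero_smul]
  rw [h1, ← sum_coe_sort I, ← Equiv.sum_comp e]

/-- dropping the generators outside `I` -/
theorem drop {k : ℕ} {v : Fin k → G} {L : Fin k → ℕ} {H : AddSubgroup G} {M : ℕ}
    (hM : Mp v L H M) {T A : Finset G} (hst : St v L H T A) (I : Finset (Fin k)) :
    ∃ (v' : Fin I.card → G) (L' : Fin I.card → ℕ) (T' : Finset G), Mp v' L' H M ∧
      T'.card ≤ T.card * ∏ i, (2 * (if i ∈ I then 0 else L i) + 1) ∧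
      ∏ i, (2 * L' i + 1) ≤ ∏ i, (2 * L i + 1) ∧ (∀ j, ∃ i ∈ I, L' j = L i) ∧
      St v' L' H T' A := by
  classical
  let e : Fin I.card ≃ I := I.equivFin.symm
  refine ⟨fun j => v (e j), fun j => L (e j),
    T + (gapBox fun i => if i ∈ I then 0 else L i).image fun c => ∑ i, c i • v i, ?_, ?_, ?_,
    fun j => ⟨e j, (e j).2, rfl⟩, ?_⟩
  · intro c' hc' hH
    obtain ⟨c, hc⟩ : ∃ c : Fin k → ℤ, c = fun i => if h : i ∈ I then c' (e.symm ⟨i, h⟩) else 0 :=
      ⟨_, rfl⟩
    have hce : ∀ j, c (e j) = c' j := by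
      intro j
      rw [hc]
      simp only [(e j).2, dif_pos]
      simp
    have hc0 : ∀ i, i ∉ I → c i = 0 := fun i hi => by rw [hc]; simp only [dif_neg hi]
    have h1 := hM c (fun i => by
      by_cases hi : i ∈ I
      · have h2 := hc' (e.symm ⟨i, hi⟩)
        simp only [Equiv.apply_symm_apply] at h2
        rw [hc]
        simp only [dif_pos hi]
        exact h2
      · rw [hc0 i hi, abs_zero]; positivity) (by
      rw [sum_equiv' v I e c hc0]
      simp only [hce]
      exact hH)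
    funext j
    rw [← hce j, h1]
    rfl
  · refine card_add_le.trans (Nat.mul_le_mul_left _ (card_image_le.trans ?_))
    rw [gap_card_box]
  · have h1 : ∏ j, (2 * L (e j) + 1) = ∏ i ∈ I, (2 * L i + 1) := by
      rw [← prod_coe_sort I, ← Equiv.prod_comp e]
    rw [h1]
    exact prod_le_prod_of_subset_of_one_le' (subset_univ I) fun i _ _ => by omega
  · intro a ha
    obtain ⟨t, ht, c, hc, h⟩ := hst a ha
    refine ⟨t + ∑ i, (if i ∈ I then 0 else c i) • v i, add_mem_add ht (mem_image_of_mem _ ?_),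
      fun j => c (e j), fun j => hc _, ?_⟩
    · rw [gap_mem_box]
      intro i
      by_cases hi : i ∈ I
      · simp [hi]
      · rw [if_neg hi, if_neg hi]; exact hc i
    · have h1 := sum_equiv' v I e (fun i => if i ∈ I then c i else 0) (fun i hi => by
        simp only [if_neg hi])
      simp only [(e _).2, if_true] at h1
      rw [← h1]
      have h2 : ∑ i, c i • v i = ∑ i, (if i ∈ I then 0 else c i) • v i +
          ∑ i, (if i ∈ I then c i else 0) • v i := by
        rw [← sum_add_distrib]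
        refine sum_congr rfl fun i _ => ?_
        by_cases hi : i ∈ I
        · simp [hi]
        · simp [hi]
      have h3 : a - (t + ∑ i, (if i ∈ I then 0 else c i) • v i) -
          ∑ i, (if i ∈ I then c i else 0) • v i = a - t - ∑ i, c i • v i := by
        rw [h2]; abel
      rw [h3]
      exact h

omit [DecidableEq G] in
theorem Mp.mono {k : ℕ} {v : Fin k → G} {L L' : Fin k → ℕ} {H : AddSubgroup G} {M M' : ℕ}
    (hM : Mp v L H M) (hL : ∀ i, L' i ≤ L i) (hMM : M' ≤ M) : Mp v L' H M' := by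
  intro c hc
  apply hM c
  intro i
  refine (hc i).trans ?_
  have h1 : (L' i : ℤ) ≤ L i := by exact_mod_cast hL i
  have h2 : (M' : ℤ) ≤ M := by exact_mod_cast hMM
  gcongr

/-- a finite abelian group larger than `a` is covered by few translates of a proper
one-dimensional coset progression of volume at most `a` -/
theorem big_proper (H₀ : AddSubgroup G) (hfin : Finite H₀) {a : ℕ} (ha : 1 ≤ a)
    (hbig : a < Nat.card H₀) :
    ∃ (l : ℕ) (g : G) (H₁ : AddSubgroup G) (T : Finset G), Finite H₁ ∧ H₁ ≤ H₀ ∧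
      (2 * l + 1) * Nat.card H₁ ≤ a ∧ (T.card : ℝ) * a ≤ 3 * Nat.card H₀ ∧
      (∀ c : ℤ, |c| ≤ 2 * l → c • g ∈ H₁ → c = 0) ∧
      ∀ h ∈ H₀, ∃ t ∈ T, ∃ c : ℤ, |c| ≤ l ∧ ∃ h' ∈ H₁, h = t + c • g + h' := by
  classical
  have hex : ∃ n : ℕ, n ≤ a ∧ ∃ H₁ : AddSubgroup G, H₁ ≤ H₀ ∧ Nat.card H₁ = n := by
    exact ⟨1, ha, ⊥, bot_le, by simp⟩
  obtain ⟨n, ⟨hna, H₁, hle, hcard⟩, hmax⟩ : ∃ n : ℕ, (n ≤ a ∧ ∃ H₁ : AddSubgroup G, H₁ ≤ H₀ ∧ Nat.card H₁ = n) ∧
      ∀ n', (n' ≤ a ∧ ∃ H₁ : AddSubgroup G, H₁ ≤ H₀ ∧ Nat.card H₁ = n') → n' ≤ n := by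
    obtain ⟨n0, h0⟩ := hex
    refine ⟨Nat.findGreatest (fun n => n ≤ a ∧ ∃ H₁ : AddSubgroup G, H₁ ≤ H₀ ∧ Nat.card H₁ = n) a, ?_, ?_⟩
    · exact Nat.findGreatest_spec (P := fun n => n ≤ a ∧ ∃ H₁ : AddSubgroup G, H₁ ≤ H₀ ∧ Nat.card H₁ = n) h0.1 h0
    · intro n' h'
      exact Nat.le_findGreatest h'.1 h'
  have hfin1 : Finite H₁ := Finite.of_injective (fun x : H₁ => (⟨x.1, hle x.2⟩ : H₀)) (by
    intro x y h
    apply Subtype.ext
    exact congrArg (fun z : H₀ => (z : G)) h)
  have hH1pos : 0 < Nat.card H₁ := Nat.card_pos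
  have hne : ∃ g ∈ H₀, g ∉ H₁ := by
    by_contra hcon
    push Not at hcon
    have : H₀ = H₁ := le_antisymm hcon hle
    rw [this] at hbig
    omega
  obtain ⟨g, hg0, hg1⟩ := hne
  have hsup_le : H₁ ⊔ AddSubgroup.zmultiples g ≤ H₀ := by
    apply sup_le hle
    rw [AddSubgroup.zmultiples_le]
    exact hg0
  have hsup_big : a < Nat.card (H₁ ⊔ AddSubgroup.zmultiples g : AddSubgroup G) := by
    by_contra hcon
    push Not at hcon
    have h1 := hmax _ ⟨hcon, _, hsup_le, rfl⟩
    have hfin2 : Finite (H₁ ⊔ AddSubgroup.zmultiples g : AddSubgroup G) :=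
      Finite.of_injective (fun x : (H₁ ⊔ AddSubgroup.zmultiples g : AddSubgroup G) => (⟨x.1, hsup_le x.2⟩ : H₀)) (by
        intro x y h
        apply Subtype.ext
        exact congrArg (fun z : H₀ => (z : G)) h)
    have h2 : H₁ = H₁ ⊔ AddSubgroup.zmultiples g := by
      apply AddSubgroup.eq_of_le_of_card_ge le_sup_left
      rw [hcard]; exact h1
    apply hg1
    rw [h2]
    exact (le_sup_right : AddSubgroup.zmultiples g ≤ _) (AddSubgroup.mem_zmultiples g)
  set x := a / Nat.card H₁ with hx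
  have hx1 : 1 ≤ x := by
    rw [hx, Nat.le_div_iff_mul_le hH1pos]; omega
  have hxa : x * Nat.card H₁ ≤ a := Nat.div_mul_le_self _ _
  have hxa2 : a < (x + 1) * Nat.card H₁ := by
    have := Nat.lt_div_mul_add hH1pos (a := a)
    rw [← hx] at this
    linarith [add_mul x 1 (Nat.card H₁)]
  set l := (x - 1) / 2 with hl
  have hl1 : 2 * l + 1 ≤ x := by omega
  have hl2 : x + 1 ≤ 3 * (l + 1) := by omega
  have hsetfin0 : (H₀ : Set G).Finite := Set.toFinite _
  have hsetfin1 : (H₁ : Set G).Finite := Set.toFinite _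
  set F0 := hsetfin0.toFinset with hF0
  set F1 := hsetfin1.toFinset with hF1
  have hF0c : F0.card = Nat.card H₀ := by
    rw [hF0, ← Set.ncard_eq_toFinset_card _ hsetfin0]; rfl
  have hF1c : F1.card = Nat.card H₁ := by
    rw [hF1, ← Set.ncard_eq_toFinset_card _ hsetfin1]; rfl
  set P := ((Finset.range (l + 1)) ×ˢ F1).image (fun p : ℕ × G => p.1 • g + p.2) with hP
  have hnotin : ∀ k : ℕ, 0 < k → k ≤ x → k • g ∉ H₁ := by
    intro k hk hkl hmem
    have h1 := cover_sup_card H₁ g hk hmem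
    have h2 : k * Nat.card H₁ ≤ x * Nat.card H₁ := Nat.mul_le_mul_right _ hkl
    omega
  have hPc : P.card = (l + 1) * Nat.card H₁ := by
    rw [hP, Finset.card_image_of_injOn, Finset.card_product, Finset.card_range, hF1c]
    have key : ∀ c c' : ℕ, ∀ h h' : G, c' < c → c ≤ l → h ∈ H₁ → h' ∈ H₁ → c • g + h = c' • g + h' → False := by
      intro c c' h h' hlt hcl hh hh' heq
      apply hnotin (c - c') (by omega) (by omega)
      have : (c - c') • g = h' - h := by
        have e1 : c • g = (c - c') • g + c' • g := by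
          rw [← add_smul]; congr 1; omega
        rw [e1] at heq
        have : (c - c') • g + h + c' • g = h' + c' • g := by
          rw [add_right_comm, heq, add_comm]
        have := add_right_cancel this
        rw [← this]; abel
      rw [this]
      exact H₁.sub_mem hh' hh
    rintro ⟨c, h⟩ hc ⟨c', h'⟩ hc' heq
    simp only [Finset.coe_product, Set.mem_prod, Finset.mem_coe, Finset.mem_range, hF1,
      Set.Finite.mem_toFinset, SetLike.mem_coe] at hc hc'
    simp only at heq
    rcases lt_trichotomy c c' with hlt | heqc | hgt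
    · exact (key c' c h' h hlt (by omega) hc'.2 hc.2 heq.symm).elim
    · subst heqc
      rw [add_left_cancel heq]
    · exact (key c c' h h' hgt (by omega) hc.2 hc'.2 heq).elim
  have hPne : P.Nonempty := by
    rw [← Finset.card_pos, hPc]; positivity
  have hPsub : ∀ p ∈ P, p ∈ H₀ := by
    intro p hp
    rw [hP, Finset.mem_image] at hp
    obtain ⟨⟨c, h⟩, hch, rfl⟩ := hp
    simp only [Finset.mem_product, Finset.mem_range, hF1, Set.Finite.mem_toFinset,
      SetLike.mem_coe] at hch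
    exact H₀.add_mem (H₀.nsmul_mem hg0 _) (hle hch.2)
  have hadd : ((F0 + P).card : ℝ) ≤ ((Nat.card H₀ : ℝ) / P.card) * P.card := by
    have hPpos : (0 : ℝ) < P.card := by exact_mod_cast hPne.card_pos
    rw [div_mul_cancel₀ _ hPpos.ne', ← hF0c]
    norm_cast
    apply Finset.card_le_card
    intro z hz
    obtain ⟨u, hu, v, hv, rfl⟩ := Finset.mem_add.1 hz
    rw [hF0, Set.Finite.mem_toFinset] at hu ⊢
    exact H₀.add_mem hu (hPsub v hv)
  obtain ⟨T, hTsub, hTc, hcov⟩ := Finset.ruzsa_covering_add hPne hadd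
  refine ⟨l, g, H₁, T, hfin1, hle, ?_, ?_, ?_, ?_⟩
  · calc (2 * l + 1) * Nat.card H₁ ≤ x * Nat.card H₁ := Nat.mul_le_mul_right _ hl1
      _ ≤ a := hxa
  · have hPpos : (0 : ℝ) < P.card := by exact_mod_cast hPne.card_pos
    rw [le_div_iff₀ hPpos] at hTc
    have h3 : (a : ℝ) ≤ 3 * P.card := by
      have : a ≤ 3 * P.card := by
        rw [hPc]
        have := Nat.mul_le_mul_right (Nat.card H₁) hl2
        nlinarith
      exact_mod_cast this
    have hT0 : (0:ℝ) ≤ T.card := by positivity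
    calc (T.card : ℝ) * a ≤ T.card * (3 * P.card) := mul_le_mul_of_nonneg_left h3 hT0
      _ = 3 * (T.card * P.card) := by ring
      _ ≤ 3 * Nat.card H₀ := by linarith
  · intro c hc hcg
    by_contra hc0
    have h1 : c.natAbs • g ∈ H₁ := by
      rcases Int.natAbs_eq c with h | h
      · rw [← natCast_zsmul, ← h]; exact hcg
      · rw [← natCast_zsmul]
        have h2 : (c.natAbs : ℤ) = -c := by omega
        rw [h2, neg_smul]
        exact H₁.neg_mem hcg
    refine hnotin c.natAbs (Int.natAbs_pos.2 hc0) ?_ h1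
    rw [Int.abs_eq_natAbs] at hc
    have : c.natAbs ≤ 2 * l := by exact_mod_cast hc
    omega
  · intro h hh
    have hh' : h ∈ F0 := by rw [hF0, Set.Finite.mem_toFinset]; exact hh
    have := hcov hh'
    obtain ⟨t, ht, d, hd, rfl⟩ := Finset.mem_add.1 this
    obtain ⟨p, hp, p', hp', rfl⟩ := Finset.mem_sub.1 hd
    rw [hP, Finset.mem_image] at hp hp'
    obtain ⟨⟨c, u⟩, hcu, rfl⟩ := hp
    obtain ⟨⟨c', u'⟩, hcu', rfl⟩ := hp'
    simp only [Finset.mem_product, Finset.mem_range, hF1, Set.Finite.mem_toFinset,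
      SetLike.mem_coe] at hcu hcu'
    refine ⟨t, ht, (c : ℤ) - c', ?_, u - u', H₁.sub_mem hcu.2 hcu'.2, ?_⟩
    · rw [abs_le]; constructor <;> omega
    · simp only [sub_smul, natCast_zsmul]
      abel

/-- **shrinking to the volume of `A`** -/
theorem finish {k : ℕ} {v : Fin k → G} {L : Fin k → ℕ} {H : AddSubgroup G} [Finite H] {M : ℕ}
    (hM : Mp v L H M) (hM2 : 2 ≤ M) {T A : Finset G} (hA : A.Nonempty) (hst : St v L H T A) {W : ℝ}
    (hW1 : 1 ≤ W) (hvol : (((∏ i, (2 * L i + 1)) * Nat.card H : ℕ) : ℝ) ≤ W * A.card) :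
    ∃ (k' : ℕ) (v' : Fin k' → G) (L' : Fin k' → ℕ) (H' : AddSubgroup G) (T' : Finset G),
      (k' = k ∨ (k' = 1 ∧ A.card < Nat.card H)) ∧ Finite H' ∧ Mp v' L' H' 2 ∧
      (∏ i, (2 * L' i + 1)) * Nat.card H' ≤ A.card ∧
      (T'.card : ℝ) ≤ T.card * (9 ^ k * (3 * W ^ 2)) ∧ St v' L' H' T' A := by
  classical
  have hHpos : 0 < Nat.card H := Nat.card_pos
  have hHpos' : (0 : ℝ) < Nat.card H := by exact_mod_cast hHpos
  have hApos : (0 : ℝ) < A.card := by exact_mod_cast hA.card_pos
  have h9 : (1 : ℝ) ≤ 9 ^ k := one_le_pow₀ (by norm_num)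
  rcases le_or_gt (Nat.card H) A.card with hle | hgt
  · obtain ⟨V, hV⟩ : ∃ V, V = A.card / Nat.card H := ⟨_, rfl⟩
    have hV1 : 1 ≤ V := by rw [hV, Nat.le_div_iff_mul_le hHpos]; omega
    have hVH : V * Nat.card H ≤ A.card := by rw [hV]; exact Nat.div_mul_le_self _ _
    have hAV : A.card < (V + 1) * Nat.card H := by
      have := Nat.lt_div_mul_add hHpos (a := A.card)
      rw [← hV] at this
      linarith [add_mul V 1 (Nat.card H)]
    have hAV2 : (A.card : ℝ) ≤ 2 * V * Nat.card H := by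
      have h1 : A.card ≤ 2 * V * Nat.card H := by nlinarith
      exact_mod_cast h1
    have hLM : ((∏ i, (2 * L i + 1) : ℕ) : ℝ) ≤ (2 * W) * V := by
      have h1 : ((∏ i, (2 * L i + 1) : ℕ) : ℝ) * Nat.card H ≤ ((2 * W) * V) * Nat.card H := by
        calc ((∏ i, (2 * L i + 1) : ℕ) : ℝ) * Nat.card H ≤ W * A.card := by exact_mod_cast hvol
          _ ≤ W * (2 * V * Nat.card H) := by gcongr
          _ = _ := by ring
      exact le_of_mul_le_mul_right h1 hHpos'
    obtain ⟨L', Y, hL', hvol', hY, hcov⟩ := shrink L hV1 (M := 2 * W) (by linarith) hLM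
    refine ⟨k, v, L', H, T + Y.image fun y => ∑ i, y i • v i, Or.inl rfl, inferInstance,
      hM.mono hL' hM2, (Nat.mul_le_mul_right _ hvol').trans hVH, ?_, ?_⟩
    · have h1 : ((T + Y.image fun y => ∑ i, y i • v i).card : ℝ) ≤ T.card * Y.card := by
        exact_mod_cast card_add_le.trans (Nat.mul_le_mul_left _ card_image_le)
      refine h1.trans ?_
      have h2 : (Y.card : ℝ) ≤ 9 ^ k * (3 * W ^ 2) := by
        have h3 : 2 * W ≤ 3 * W ^ 2 := by nlinarith
        exact hY.trans (mul_le_mul_of_nonneg_left h3 (by positivity))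
      gcongr
    · intro a ha
      obtain ⟨t, ht, c, hc, h⟩ := hst a ha
      obtain ⟨y, hy, hyc⟩ := hcov c hc
      refine ⟨t + ∑ i, y i • v i, add_mem_add ht (mem_image_of_mem _ hy), fun i => c i - y i,
        hyc, ?_⟩
      have e : a - (t + ∑ i, y i • v i) - ∑ i, (c i - y i) • v i = a - t - ∑ i, c i • v i := by
        simp only [sub_smul, sum_sub_distrib]
        abel
      rw [e]
      exact h
  · obtain ⟨l, g, H₁, T₂, hfin1, -, hvol1, hT₂, hprop, hcov⟩ := big_proper H inferInstance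
      hA.card_pos hgt
    have hprod1 : (1 : ℝ) ≤ ((∏ i, (2 * L i + 1) : ℕ) : ℝ) := by
      have : 0 < ∏ i, (2 * L i + 1) := prod_pos fun i _ => by omega
      exact_mod_cast this
    have hvol2 : ((∏ i, (2 * L i + 1) : ℕ) : ℝ) * Nat.card H ≤ W * A.card := by
      exact_mod_cast hvol
    have hgt' : (A.card : ℝ) < Nat.card H := by exact_mod_cast hgt
    have hPW : ((∏ i, (2 * L i + 1) : ℕ) : ℝ) ≤ W := by
      have h1 : ((∏ i, (2 * L i + 1) : ℕ) : ℝ) * Nat.card H ≤ W * Nat.card H :=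
        hvol2.trans (by gcongr)
      exact le_of_mul_le_mul_right h1 hHpos'
    have hHW : (Nat.card H : ℝ) ≤ W * A.card := by nlinarith
    have hT₂W : (T₂.card : ℝ) ≤ 3 * W := by
      have h1 : (T₂.card : ℝ) * A.card ≤ (3 * W) * A.card := by
        refine hT₂.trans ?_
        linarith
      exact le_of_mul_le_mul_right h1 hApos
    refine ⟨1, fun _ => g, fun _ => l, H₁, T + ((gapBox L).image (fun c => ∑ i, c i • v i) + T₂),
      Or.inr ⟨rfl, hgt⟩, hfin1, ?_, ?_, ?_, ?_⟩
    · intro c hc hcH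
      rw [Fin.sum_univ_one] at hcH
      have h1 := hprop (c 0) (by have := hc 0; push_cast at this; exact this) hcH
      funext i
      rw [Subsingleton.elim i 0, h1]
      rfl
    · rw [Fin.prod_univ_one]
      exact hvol1
    · have h1 : ((T + ((gapBox L).image (fun c => ∑ i, c i • v i) + T₂)).card : ℝ) ≤
          T.card * ((gapBox L).card * T₂.card) := by
        exact_mod_cast card_add_le.trans (Nat.mul_le_mul_left _ (card_add_le.trans
          (Nat.mul_le_mul_right _ card_image_le)))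
      refine h1.trans ?_
      rw [gap_card_box]
      have h2 : ((∏ i, (2 * L i + 1) : ℕ) : ℝ) * T₂.card ≤ W * (3 * W) :=
        mul_le_mul hPW hT₂W (by positivity) (by linarith)
      have h3 : W * (3 * W) ≤ 9 ^ k * (3 * W ^ 2) := by
        have h4 : (0 : ℝ) ≤ 3 * W ^ 2 := by positivity
        nlinarith
      have h4 := h2.trans h3
      gcongr
    · intro a ha
      obtain ⟨t, ht, c, hc, h⟩ := hst a ha
      obtain ⟨t₂, ht₂, n, hn, h', hh', e⟩ := hcov _ h
      refine ⟨t + (∑ i, c i • v i + t₂), add_mem_add ht (add_mem_add (mem_image_of_mem _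
        (gap_mem_box.2 hc)) ht₂), fun _ => n, fun _ => hn, ?_⟩
      rw [Fin.sum_univ_one]
      have e1 : a - (t + (∑ i, c i • v i + t₂)) - n • g = h' := by
        have e2 : a = t + ∑ i, c i • v i + (t₂ + n • g + h') := by rw [← e]; abel
        rw [e2]
        abel
      rw [e1]
      exact hh'

end Pool.Agent.U546.FB
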