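import Pool.Agent.U546.FB.Avg
import Pool.Agent.U546.FB.Cov

/-!
# Coset progressions without short relations: the local Brunn–Minkowski inequality
-/

set_option autoImplicit false

namespace Pool.Agent.U546.FB

open Finset H112
open scoped Pointwise

variable {G : Type*} [AddCommGroup G] [DecidableEq G]

/-- no relation of height `M` modulo `H` -/
def Mp {k : ℕ} (v : Fin k → G) (L : Fin k → ℕ) (H : AddSubgroup G) (M : ℕ) : Prop :=
  ∀ c : Fin k → ℤ, (∀ i, |c i| ≤ M * L i) → ∑ i, c i • v i ∈ H → c = 0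

/-- the elements `∑ n_i v_i + h`, `|n_i| ≤ N L_i`, `h ∈ H` -/
noncomputable def Bx {k : ℕ} (v : Fin k → G) (L : Fin k → ℕ) (Hf : Finset G) (N : ℕ) : Finset G :=
  ((gapBox fun i => N * L i) ×ˢ Hf).image fun p => ∑ i, p.1 i • v i + p.2

/-- the elements `∑_{i ∈ I} n_i v_i`, `0 ≤ n_i < s` -/
noncomputable def Cb {k : ℕ} (v : Fin k → G) (I : Finset (Fin k)) (s : ℕ) : Finset G :=
  (Fintype.piFinset fun i => if i ∈ I then Finset.Ico (0 : ℤ) s else {0}).image
    fun c => ∑ i, c i • v i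

theorem mem_Bx {k : ℕ} {v : Fin k → G} {L : Fin k → ℕ} {Hf : Finset G} {N : ℕ} {x : G} :
    x ∈ Bx v L Hf N ↔ ∃ n : Fin k → ℤ, (∀ i, |n i| ≤ N * L i) ∧ ∃ h ∈ Hf,
      x = ∑ i, n i • v i + h := by
  unfold Bx
  rw [mem_image]
  constructor
  · rintro ⟨⟨n, h⟩, hp, rfl⟩
    rw [mem_product, gap_mem_box] at hp
    refine ⟨n, fun i => ?_, h, hp.2, rfl⟩
    have := hp.1 i
    push_cast at this
    exact this
  · rintro ⟨n, hn, h, hh, rfl⟩
    refine ⟨(n, h), ?_, rfl⟩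
    rw [mem_product, gap_mem_box]
    refine ⟨fun i => ?_, hh⟩
    push_cast
    exact hn i

theorem mem_Cb {k : ℕ} {v : Fin k → G} {I : Finset (Fin k)} {s : ℕ} {x : G} :
    x ∈ Cb v I s ↔ ∃ c : Fin k → ℤ, (∀ i ∈ I, 0 ≤ c i ∧ c i < s) ∧ (∀ i, i ∉ I → c i = 0) ∧
      x = ∑ i, c i • v i := by
  unfold Cb
  rw [mem_image]
  constructor
  · rintro ⟨c, hc, rfl⟩
    rw [Fintype.mem_piFinset] at hc
    refine ⟨c, fun i hi => ?_, fun i hi => ?_, rfl⟩
    · have := hc i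
      rw [if_pos hi, mem_Ico] at this
      exact this
    · have := hc i
      rw [if_neg hi, mem_singleton] at this
      exact this
  · rintro ⟨c, h1, h2, rfl⟩
    refine ⟨c, ?_, rfl⟩
    rw [Fintype.mem_piFinset]
    intro i
    by_cases hi : i ∈ I
    · rw [if_pos hi, mem_Ico]; exact h1 i hi
    · rw [if_neg hi, mem_singleton]; exact h2 i hi

theorem Bx_add {k : ℕ} {v : Fin k → G} {L : Fin k → ℕ} {Hf : Finset G}
    (hHa : ∀ x ∈ Hf, ∀ y ∈ Hf, x + y ∈ Hf) (a b : ℕ) :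
    Bx v L Hf a + Bx v L Hf b ⊆ Bx v L Hf (a + b) := by
  intro z hz
  obtain ⟨x, hx, y, hy, rfl⟩ := mem_add.1 hz
  obtain ⟨n, hn, h, hh, rfl⟩ := mem_Bx.1 hx
  obtain ⟨n', hn', h', hh', rfl⟩ := mem_Bx.1 hy
  rw [mem_Bx]
  refine ⟨n + n', fun i => ?_, h + h', hHa h hh h' hh', ?_⟩
  · have h1 := abs_add_le (n i) (n' i)
    have h2 := hn i
    have h3 := hn' i
    rw [Pi.add_apply]
    push_cast
    nlinarith
  · simp only [Pi.add_apply, add_smul, sum_add_distrib]
    abel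

theorem Cb_sub_Bx {k : ℕ} {v : Fin k → G} {L : Fin k → ℕ} {Hf : Finset G} (h0 : (0 : G) ∈ Hf)
    {I : Finset (Fin k)} {s N : ℕ} (hs : ∀ i ∈ I, s ≤ N * L i + 1) : Cb v I s ⊆ Bx v L Hf N := by
  intro x hx
  obtain ⟨c, h1, h2, rfl⟩ := mem_Cb.1 hx
  rw [mem_Bx]
  refine ⟨c, fun i => ?_, 0, h0, by rw [add_zero]⟩
  by_cases hi : i ∈ I
  · have h3 := h1 i hi
    have h4 : (s : ℤ) ≤ N * L i + 1 := by exact_mod_cast hs i hi
    rw [abs_of_nonneg h3.1]
    linarith
  · rw [h2 i hi, abs_zero]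
    positivity

theorem Cb_add {k : ℕ} {v : Fin k → G} {I : Finset (Fin k)} (s : ℕ) :
    Cb v I s + Cb v I s + Cb v I 2 ⊆ Cb v I (2 * s) := by
  intro z hz
  obtain ⟨y, hy, w, hw, rfl⟩ := mem_add.1 hz
  obtain ⟨x, hx, x', hx', rfl⟩ := mem_add.1 hy
  obtain ⟨a, a1, a2, rfl⟩ := mem_Cb.1 hx
  obtain ⟨b, b1, b2, rfl⟩ := mem_Cb.1 hx'
  obtain ⟨c, c1, c2, rfl⟩ := mem_Cb.1 hw
  rw [mem_Cb]
  refine ⟨a + b + c, fun i hi => ?_, fun i hi => ?_, ?_⟩
  · have h1 := a1 i hi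
    have h2 := b1 i hi
    have h3 := c1 i hi
    simp only [Pi.add_apply]
    push_cast at h3 ⊢
    omega
  · simp only [Pi.add_apply]
    rw [a2 i hi, b2 i hi, c2 i hi]
    rfl
  · simp only [Pi.add_apply, add_smul, sum_add_distrib]

theorem card_Bx {k : ℕ} {v : Fin k → G} {L : Fin k → ℕ} {H : AddSubgroup G} {Hf : Finset G}
    (hH : ∀ x, x ∈ Hf ↔ x ∈ H) {M : ℕ} (hM : Mp v L H M) {N : ℕ} (hN : 2 * N ≤ M) :
    (Bx v L Hf N).card = (∏ i, (2 * (N * L i) + 1)) * Hf.card := by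
  unfold Bx
  rw [card_image_of_injOn, card_product, gap_card_box]
  rintro ⟨n, h⟩ hp ⟨n', h'⟩ hp' e
  rw [mem_coe, mem_product, gap_mem_box] at hp hp'
  simp only at hp hp' e
  have e1 : ∑ i, (n - n') i • v i = h' - h := by
    simp only [Pi.sub_apply, sub_smul, sum_sub_distrib]
    rw [sub_eq_sub_iff_add_eq_add, e]
    abel
  have h1 : n - n' = 0 := hM _ (fun i => by
    have h2 := hp.1 i
    have h3 := hp'.1 i
    have h4 := abs_sub (n i) (n' i)
    rw [Pi.sub_apply]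
    have h5 : ((2 * N : ℕ) : ℤ) * L i ≤ M * L i := by
      have : ((2 * N : ℕ) : ℤ) ≤ M := by exact_mod_cast hN
      exact mul_le_mul_of_nonneg_right this (by positivity)
    push_cast at h2 h3 h5
    linarith) (by
    rw [e1]
    exact H.sub_mem ((hH _).1 hp'.2) ((hH _).1 hp.2))
  have h2 : n = n' := sub_eq_zero.1 h1
  subst h2
  rw [add_left_cancel e]

/-- **Brunn–Minkowski inside a progression without short relations** -/
theorem locBM {k : ℕ} {v : Fin k → G} {L : Fin k → ℕ} {H : AddSubgroup G} {Hf : Finset G}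
    (hH : ∀ x, x ∈ Hf ↔ x ∈ H) {M : ℕ} (hM : Mp v L H M) {a b : ℕ} (hab : 2 * (a + b + 1) ≤ M)
    {I : Finset (Fin k)} (hI : ∀ i ∈ I, 1 ≤ L i) (x y : G) (P Q : Finset G)
    (hP : ∀ p ∈ P, p - x ∈ Bx v L Hf a) (hQ : ∀ q ∈ Q, q - y ∈ Bx v L Hf b) :
    2 ^ I.card * min P.card Q.card ≤ (P + Q + Cb v I 2).card := by
  classical
  obtain ⟨r, hr⟩ : ∃ r, r = I.card := ⟨_, rfl⟩
  rw [← hr]
  let e : Fin r ≃ I := (finCongr hr).trans I.equivFin.symm
  choose! nP hnP hP' using fun p hp => mem_Bx.1 (hP p hp)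
  choose! hPf hhP eP using hP'
  choose! nQ hnQ hQ' using fun q hq => mem_Bx.1 (hQ q hq)
  choose! hQf hhQ eQ using hQ'
  obtain ⟨w, hw⟩ : ∃ w : Fin r → (Fin k → ℤ) × G, w = fun j => (Pi.single (e j : Fin k) 1, 0) :=
    ⟨_, rfl⟩
  have hwsum : ∀ δ : Fin r → ℤ, ∑ j, δ j • w j =
      ((fun i => if h : i ∈ I then δ (e.symm ⟨i, h⟩) else 0), 0) := by
    intro δ
    rw [Prod.ext_iff, Prod.fst_sum, Prod.snd_sum]
    constructor
    · funext i
      rw [Finset.sum_apply]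
      simp only
      by_cases hi : i ∈ I
      · rw [dif_pos hi, sum_eq_single (e.symm ⟨i, hi⟩)]
        · rw [hw]
          simp
        · intro j _ hj
          rw [hw]
          simp only [Prod.smul_mk, Pi.smul_apply, smul_eq_mul, mul_eq_zero]
          right
          rw [Pi.single_apply, if_neg]
          intro h
          apply hj
          rw [Equiv.eq_symm_apply]
          exact Subtype.ext h.symm
        · intro h; exact absurd (mem_univ _) h
      · rw [dif_neg hi]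
        apply sum_eq_zero
        intro j _
        rw [hw]
        simp only [Prod.smul_mk, Pi.smul_apply, smul_eq_mul, mul_eq_zero]
        right
        rw [Pi.single_apply, if_neg]
        intro h
        exact hi (h ▸ (e j).2)
    · simp [hw]
  have hind : ∀ c : Fin r → ℤ, ∑ j, c j • w j = 0 → c = 0 := by
    intro c hc
    rw [hwsum, Prod.ext_iff] at hc
    funext j
    have h1 := congrFun hc.1 (e j : Fin k)
    simp only [(e j).2, dif_pos] at h1
    simpa using h1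
  -- the lifts
  obtain ⟨P', hP'd⟩ : ∃ P' : Finset ((Fin k → ℤ) × G), P' = P.image fun p => (nP p, hPf p) :=
    ⟨_, rfl⟩
  obtain ⟨Q', hQ'd⟩ : ∃ Q' : Finset ((Fin k → ℤ) × G), Q' = Q.image fun q => (nQ q, hQf q) :=
    ⟨_, rfl⟩
  obtain ⟨D', hD'⟩ : ∃ D' : Finset ((Fin k → ℤ) × G),
      D' = (Fintype.piFinset fun _ : Fin r => ({0, 1} : Finset ℤ)).image fun δ => ∑ j, δ j • w j :=
    ⟨_, rfl⟩
  have hcP : P'.card = P.card := by
    rw [hP'd, card_image_of_injOn]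
    intro p hp p' hp' h
    simp only [Prod.mk.injEq] at h
    have h1 := eP p hp
    have h2 := eP p' hp'
    rw [h.1, h.2, ← h2] at h1
    exact sub_left_injective h1
  have hcQ : Q'.card = Q.card := by
    rw [hQ'd, card_image_of_injOn]
    intro p hp p' hp' h
    simp only [Prod.mk.injEq] at h
    have h1 := eQ p hp
    have h2 := eQ p' hp'
    rw [h.1, h.2, ← h2] at h1
    exact sub_left_injective h1
  have hbm := bmMin' w hind P' Q' (P' + Q' + D') (by
    intro p hp q hq δ hδ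
    refine add_mem_add (add_mem_add hp hq) ?_
    rw [hD', mem_image]
    refine ⟨δ, ?_, rfl⟩
    rw [Fintype.mem_piFinset]
    intro j
    rw [mem_insert, mem_singleton]
    exact hδ j)
  rw [hcP, hcQ] at hbm
  refine hbm.trans ?_
  -- pushing forward
  obtain ⟨Φ, hΦ⟩ : ∃ Φ : (Fin k → ℤ) × G → G, Φ = fun p => x + y + (∑ i, p.1 i • v i + p.2) :=
    ⟨_, rfl⟩
  have hS : ∀ z ∈ P' + Q' + D', (∀ i, |z.1 i| ≤ (a + b + 1) * L i) ∧ z.2 ∈ H ∧
      Φ z ∈ P + Q + Cb v I 2 := by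
    intro z hz
    obtain ⟨y', hy', d, hd, rfl⟩ := mem_add.1 hz
    obtain ⟨p', hp', q', hq', rfl⟩ := mem_add.1 hy'
    rw [hP'd] at hp'
    rw [hQ'd] at hq'
    rw [hD'] at hd
    obtain ⟨p, hp, rfl⟩ := mem_image.1 hp'
    obtain ⟨q, hq, rfl⟩ := mem_image.1 hq'
    obtain ⟨δ, hδ, rfl⟩ := mem_image.1 hd
    rw [Fintype.mem_piFinset] at hδ
    have hδ' : ∀ j, δ j = 0 ∨ δ j = 1 := by
      intro j
      have := hδ j
      rwa [mem_insert, mem_singleton] at this
    rw [hwsum]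
    obtain ⟨f, hf⟩ : ∃ f : Fin k → ℤ, f = fun i => if h : i ∈ I then δ (e.symm ⟨i, h⟩) else 0 :=
      ⟨_, rfl⟩
    rw [← hf]
    have hf1 : ∀ i ∈ I, 0 ≤ f i ∧ f i < (2 : ℕ) := by
      intro i hi
      rw [hf]
      simp only [dif_pos hi]
      rcases hδ' (e.symm ⟨i, hi⟩) with h | h <;> rw [h] <;> norm_num
    have hf2 : ∀ i, i ∉ I → f i = 0 := by
      intro i hi
      rw [hf]
      simp only [dif_neg hi]
    refine ⟨fun i => ?_, ?_, ?_⟩
    · simp only [Prod.mk_add_mk, Pi.add_apply]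
      have h1 := hnP p hp i
      have h2 := hnQ q hq i
      have h3 : |f i| ≤ L i := by
        by_cases hi : i ∈ I
        · have h4 := hf1 i hi
          have h5 : (1 : ℤ) ≤ L i := by exact_mod_cast hI i hi
          rw [abs_of_nonneg h4.1]
          push_cast at h4
          omega
        · rw [hf2 i hi, abs_zero]
          positivity
      have h4 := abs_add_three (nP p i) (nQ q i) (f i)
      nlinarith
    · simp only [Prod.mk_add_mk]
      exact H.add_mem (H.add_mem ((hH _).1 (hhP p hp)) ((hH _).1 (hhQ q hq))) H.zero_mem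
    · rw [hΦ]
      simp only [Prod.mk_add_mk, Pi.add_apply, add_smul, sum_add_distrib, add_zero]
      have h1 := eP p hp
      have h2 := eQ q hq
      have h3 : x + y + (∑ i, nP p i • v i + ∑ i, nQ q i • v i + ∑ i, f i • v i +
          (hPf p + hQf q)) = p + q + ∑ i, f i • v i := by
        have h4 : p = x + (∑ i, nP p i • v i + hPf p) := by rw [← h1]; abel
        have h5 : q = y + (∑ i, nQ q i • v i + hQf q) := by rw [← h2]; abel
        conv_rhs => rw [h4, h5]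
        abel
      rw [h3]
      exact add_mem_add (add_mem_add hp hq) (mem_Cb.2 ⟨f, hf1, hf2, rfl⟩)
  refine card_le_card_of_injOn Φ (fun z hz => (hS z hz).2.2) ?_
  intro z hz z' hz' h
  obtain ⟨h1, h2, -⟩ := hS z hz
  obtain ⟨h3, h4, -⟩ := hS z' hz'
  rw [hΦ] at h
  simp only at h
  have h5 : ∑ i, z.1 i • v i + z.2 = ∑ i, z'.1 i • v i + z'.2 := add_left_cancel h
  have e1 : ∑ i, (z.1 - z'.1) i • v i = z'.2 - z.2 := by
    simp only [Pi.sub_apply, sub_smul, sum_sub_distrib]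
    rw [sub_eq_sub_iff_add_eq_add, h5]
    abel
  have h6 : z.1 - z'.1 = 0 := hM _ (fun i => by
    have h7 := abs_sub (z.1 i) (z'.1 i)
    have h8 := h1 i
    have h9 := h3 i
    rw [Pi.sub_apply]
    have h10 : ((2 * (a + b + 1) : ℕ) : ℤ) * L i ≤ M * L i := by
      have : ((2 * (a + b + 1) : ℕ) : ℤ) ≤ M := by exact_mod_cast hab
      exact mul_le_mul_of_nonneg_right this (by positivity)
    push_cast at h10
    linarith) (by
    rw [e1]
    exact H.sub_mem h4 h2)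
  have h7 : z.1 = z'.1 := sub_eq_zero.1 h6
  rw [h7] at h5
  exact Prod.ext h7 (add_left_cancel h5)
where
  bmMin' {r : ℕ} {Γ : Type _} [AddCommGroup Γ] [DecidableEq Γ] (v : Fin r → Γ)
      (hind : ∀ c : Fin r → ℤ, ∑ i, c i • v i = 0 → c = 0)
      (A B S : Finset Γ)
      (hS : ∀ a ∈ A, ∀ b ∈ B, ∀ δ : Fin r → ℤ, (∀ i, δ i = 0 ∨ δ i = 1) →
        a + b + ∑ i, δ i • v i ∈ S) : 2 ^ r * min A.card B.card ≤ S.card :=
    PV.bmMin v hind A B S hS

end Pool.Agent.U546.FB
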