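import Pool.Agent.U546.FB.Cov
import Pool.Agent.U546.FB.Loc
import Pool.Agent.H112R2.Cover
import Pool.Agent.U546.PV.Struct

/-!
# The initial coset progression
-/

set_option autoImplicit false

namespace Pool.Agent.U546.FB

open Finset H112
open scoped Pointwise

/-- `A` is covered by the translates `t + P + H`, `t ∈ T` -/
def St {G : Type*} [AddCommGroup G] {k : ℕ} (v : Fin k → G) (L : Fin k → ℕ) (H : AddSubgroup G)
    (T A : Finset G) : Prop :=
  ∀ a ∈ A, ∃ t ∈ T, ∃ c : Fin k → ℤ, (∀ i, |c i| ≤ L i) ∧ a - t - ∑ i, c i • v i ∈ H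

theorem Yk_le {m : ℕ} {κ : ℝ} (hκ69 : 0.69 < κ) (hm : (m : ℝ) ≤ 300 * κ) :
    (4 * (m : ℝ) + 1) ^ m * (12 * (m : ℝ) ^ 3) ^ m ≤
      Real.exp (8400 * κ * (1 + Real.log (1 + κ))) := by
  have hlogκ : 0 ≤ Real.log (1 + κ) := Real.log_nonneg (by linarith)
  have h3 : ((4 * (m : ℝ) + 1)) ^ m ≤
      Real.exp ((300 * κ) * (8 * (1 + Real.log (1 + κ)))) :=
    pow_le_exp (by positivity) (log_4m_le hκ69 hm) hm (by positivity)
  have h4 : (12 * (m : ℝ) ^ 3) ^ m ≤
      Real.exp ((300 * κ) * (20 * (1 + Real.log (1 + κ)))) := by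
    rcases Nat.eq_zero_or_pos m with h0 | hpos
    · subst h0
      rw [pow_zero]
      exact Real.one_le_exp (by positivity)
    · have hm1 : (0 : ℝ) < m := by exact_mod_cast hpos
      exact pow_le_exp (by positivity) (log_12m_le hκ69 hm hpos) hm (by positivity)
  calc (4 * (m : ℝ) + 1) ^ m * (12 * (m : ℝ) ^ 3) ^ m
      ≤ Real.exp ((300 * κ) * (8 * (1 + Real.log (1 + κ)))) *
          Real.exp ((300 * κ) * (20 * (1 + Real.log (1 + κ)))) :=
        mul_le_mul h3 h4 (by positivity) (by positivity)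
    _ = _ := by rw [← Real.exp_add]; congr 1; ring

theorem init_fg {G : Type*} [AddCommGroup G] [AddGroup.FG G] [DecidableEq G] {K : ℝ}
    {A : Finset G} (hA : A.Nonempty) (hK : ((A + A).card : ℝ) ≤ K * A.card) (hK1 : 1 ≤ K)
    {κ : ℝ} (hκ : κ = Real.log (2 * K)) :
    ∃ (k : ℕ) (v : Fin k → G) (L : Fin k → ℕ) (H : AddSubgroup G) (T : Finset G),
      (k : ℝ) ≤ 300 * κ ∧ Finite H ∧
      (T.card : ℝ) ≤ Real.exp (16400 * κ * (1 + Real.log (1 + κ))) ∧
      (((∏ i, (2 * L i + 1)) * Nat.card H : ℕ) : ℝ) ≤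
        Real.exp (8000 * κ * (1 + Real.log (1 + κ))) * A.card ∧ St v L H T A := by
  classical
  have hκlog2 : Real.log 2 ≤ κ := by
    rw [hκ]; exact Real.log_le_log (by norm_num) (by linarith)
  have hκ69 : (0.69 : ℝ) < κ := lt_of_lt_of_le log_two_gt hκlog2
  obtain ⟨S, X, V, ρ, m, N, ψ, hfin, hV1, hsize, hρ0, hρ12, hX, hN, h1, h2, hm, hXV⟩ :=
    structure_thm hA hK hK1 hκ
  haveI hannfin : Finite (ann S) := ann_finite hfin
  have hLfin := gap_finite S hfin N ψ hN h1
  obtain ⟨k, v', L, Y, hkm, hvol, hY, hcov⟩ := cov_john N (r := ρ) hρ0.le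
    (hLfin.subset (gap_LL_mono N (by linarith)))
  have hXne : X.Nonempty := by
    obtain ⟨a, ha⟩ := hA
    obtain ⟨x, hx, _⟩ := hX a ha
    exact ⟨x, hx⟩
  have hX1 : (1 : ℝ) ≤ X.card := by exact_mod_cast hXne.card_pos
  have hsum : ∀ b : Fin k → ℤ, ψ (∑ i, b i • v' i) = ∑ i, b i • ψ (v' i) := by
    intro b
    rw [map_sum]
    exact sum_congr rfl fun i _ => map_zsmul ψ _ _
  refine ⟨k, fun i => ψ (v' i), L, ann S, X + Y.image ψ, ?_, hannfin, ?_, ?_, ?_⟩
  · have : (k : ℝ) ≤ m := by exact_mod_cast hkm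
    exact this.trans hm
  · have h3 : ((X + Y.image ψ).card : ℝ) ≤ X.card * Y.card := by
      exact_mod_cast card_add_le.trans (Nat.mul_le_mul_left _ card_image_le)
    calc ((X + Y.image ψ).card : ℝ) ≤ X.card * Y.card := h3
      _ ≤ Real.exp (8000 * κ * (1 + Real.log (1 + κ))) *
          Real.exp (8400 * κ * (1 + Real.log (1 + κ))) := by
          apply mul_le_mul _ (hY.trans (Yk_le hκ69 hm)) (by positivity) (by positivity)
          refine le_trans ?_ hXV
          exact le_mul_of_one_le_right (by positivity) hV1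
      _ = _ := by rw [← Real.exp_add]; congr 1; ring
  · have h3 : (LL N ρ).ncard * Nat.card (ann S) ≤ (bohr S (1 / 6)).ncard := by
      have hfL : (LL N ρ).Finite := hLfin.subset (gap_LL_mono N (by linarith))
      have hfA : (ann S : Set G).Finite := Set.toFinite _
      have h4 : (LL N ρ).ncard * Nat.card (ann S) =
          ((LL N ρ) ×ˢ (ann S : Set G)).ncard := by
        rw [Set.ncard_prod]
        rfl
      rw [h4]
      have hinj : Set.InjOn (fun p : (Fin m → ℤ) × G => ψ p.1 + p.2)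
          ((LL N ρ) ×ˢ (ann S : Set G)) := by
        rintro ⟨c, h⟩ hc ⟨c', h'⟩ hc' e
        rw [Set.mem_prod] at hc hc'
        simp only at e hc hc'
        have e1 : ψ c - ψ c' = h' - h := by
          rw [sub_eq_sub_iff_add_eq_add, e]
          abel
        have e2 : c = c' := cover_inj S hρ12 N ψ hN h1 le_rfl hc.1 hc'.1 (by
          rw [e1]
          exact (ann S).sub_mem hc'.2 hc.2)
        subst e2
        rw [add_left_cancel e]
      rw [← hinj.ncard_image]
      refine Set.ncard_le_ncard ?_ hfin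
      rintro _ ⟨⟨c, h⟩, hc, rfl⟩
      rw [Set.mem_prod] at hc
      exact cover_bohr_mono S (by linarith)
        (cover_mem' S hρ12 N ψ h1 hρ0.le le_rfl hc.1 hc.2)
    have h5 : V ≤ Real.exp (8000 * κ * (1 + Real.log (1 + κ))) := by
      refine le_trans ?_ hXV
      exact le_mul_of_one_le_left (by linarith) hX1
    calc (((∏ i, (2 * L i + 1)) * Nat.card (ann S) : ℕ) : ℝ)
        ≤ ((bohr S (1 / 6)).ncard : ℝ) := by
          exact_mod_cast (Nat.mul_le_mul_right _ hvol).trans h3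
      _ ≤ V * A.card := hsize
      _ ≤ _ := by gcongr
  · intro a ha
    obtain ⟨x, hx, hax⟩ := hX a ha
    obtain ⟨c, hc, hca⟩ := h2 _ hax
    obtain ⟨y, hy, b, hb, e⟩ := hcov c hc
    refine ⟨x + ψ y, add_mem_add hx (mem_image_of_mem _ hy), b, hb, ?_⟩
    have e1 : a - (x + ψ y) - ∑ i, b i • ψ (v' i) = a - x - ψ c := by
      rw [e, map_add, hsum]
      abel
    rw [e1]
    exact hca

/-- **the initial coset progression** -/
theorem init {G : Type*} [AddCommGroup G] [DecidableEq G] {K : ℝ}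
    {A : Finset G} (hA : A.Nonempty) (hK : ((A + A).card : ℝ) ≤ K * A.card) (hK1 : 1 ≤ K)
    {κ : ℝ} (hκ : κ = Real.log (2 * K)) :
    ∃ (k : ℕ) (v : Fin k → G) (L : Fin k → ℕ) (H : AddSubgroup G) (T : Finset G),
      (k : ℝ) ≤ 300 * κ ∧ Finite H ∧
      (T.card : ℝ) ≤ Real.exp (16400 * κ * (1 + Real.log (1 + κ))) ∧
      (((∏ i, (2 * L i + 1)) * Nat.card H : ℕ) : ℝ) ≤
        Real.exp (8000 * κ * (1 + Real.log (1 + κ))) * A.card ∧ St v L H T A := by
  classical
  obtain ⟨Γ, A', -, -, hfg, rfl, -, -⟩ := PV.models A ∅ ∅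
  have hinj : Function.Injective Γ.subtype := Γ.subtype_injective
  have hcA : (A'.image Γ.subtype).card = A'.card := card_image_of_injective _ hinj
  have hcAA : (A'.image Γ.subtype + A'.image Γ.subtype).card = (A' + A').card := by
    rw [← image_add, card_image_of_injective _ hinj]
  rw [hcAA, hcA] at hK
  obtain ⟨k, v, L, H, T, hk, hH, hT, hvol, hst⟩ := init_fg (G := Γ) (image_nonempty.1 hA) hK hK1 hκ
  refine ⟨k, fun i => Γ.subtype (v i), L, H.map Γ.subtype, T.image Γ.subtype, hk, ?_, ?_, ?_, ?_⟩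
  · have : (H.map Γ.subtype : Set G).Finite := by
      rw [AddSubgroup.coe_map]
      exact (Set.toFinite (H : Set Γ)).image _
    exact this.to_subtype
  · refine le_trans ?_ hT
    exact_mod_cast card_image_le
  · have h1 : Nat.card (H.map Γ.subtype) = Nat.card H :=
      Nat.card_congr (H.equivMapOfInjective Γ.subtype hinj).toEquiv.symm
    rw [h1, hcA]
    exact hvol
  · intro a ha
    obtain ⟨a', ha', rfl⟩ := mem_image.1 ha
    obtain ⟨t, ht, c, hc, h⟩ := hst a' ha'
    refine ⟨Γ.subtype t, mem_image_of_mem _ ht, c, hc, ?_⟩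
    have e1 : ∑ i, c i • Γ.subtype (v i) = Γ.subtype (∑ i, c i • v i) := by
      rw [map_sum]
      simp only [map_zsmul]
    rw [e1, ← map_sub, ← map_sub]
    exact ⟨_, h, rfl⟩

end Pool.Agent.U546.FB
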