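import Pool.Agent.U546.FB.Qst
import Pool.Agent.U546.FB.Drop

/-!
# Removing all short relations at the level of norms
-/

set_option autoImplicit false

namespace Pool.Agent.U546.FB

open Finset H112
open scoped Pointwise

variable {G : Type*} [AddCommGroup G]

theorem supH (H : AddSubgroup G) [Finite H] (x : G) {μ : ℕ} (hμ : 0 < μ) (hx : μ • x ∈ H) :
    Finite (H ⊔ AddSubgroup.zmultiples x : AddSubgroup G) ∧
      Nat.card (H ⊔ AddSubgroup.zmultiples x : AddSubgroup G) ≤ μ * Nat.card H := by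
  refine ⟨?_, cover_sup_card H x hμ hx⟩
  have hadd : addOrderOf x ≠ 0 := by
    have h1 : Nat.card H • (μ • x) = 0 := by
      have h2 : Nat.card H • (⟨μ • x, hx⟩ : H) = 0 := card_nsmul_eq_zero'
      have h3 := congrArg H.subtype h2
      rw [map_nsmul, map_zero] at h3
      exact h3
    rw [smul_smul] at h1
    have h4 := addOrderOf_dvd_of_nsmul_eq_zero h1
    intro h0
    rw [h0, zero_dvd_iff] at h4
    have : 0 < Nat.card H * μ := Nat.mul_pos Nat.card_pos hμ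
    omega
  have hz : Finite (AddSubgroup.zmultiples x) :=
    (finite_zmultiples.2 (addOrderOf_ne_zero_iff.1 hadd)).to_subtype
  have hs : ((H : Set G) + (AddSubgroup.zmultiples x : Set G)).Finite :=
    (Set.toFinite (H : Set G)).add (Set.toFinite (AddSubgroup.zmultiples x : Set G))
  refine Set.Finite.to_subtype (s := ((H ⊔ AddSubgroup.zmultiples x : AddSubgroup G) : Set G))
    (hs.subset ?_)
  intro y hy
  rw [SetLike.mem_coe, AddSubgroup.mem_sup] at hy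
  obtain ⟨y, hy, z, hz, rfl⟩ := hy
  exact Set.add_mem_add hy hz

/-- no relation of norm at most `M` modulo `H` -/
def NR {m : ℕ} (N : Seminorm ℝ (Fin m → ℝ)) (ψ : (Fin m → ℤ) →+ G) (H : AddSubgroup G) (M : ℝ) :
    Prop := ∀ c ∈ LL N M, ψ c ∈ H → c = 0

/-- `A` is covered by the translates `t + ψ(B) + H`, `B` the lattice points of the unit ball -/
def Lst {m : ℕ} (N : Seminorm ℝ (Fin m → ℝ)) (ψ : (Fin m → ℤ) →+ G) (H : AddSubgroup G)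
    (T A : Finset G) : Prop := ∀ a ∈ A, ∃ t ∈ T, ∃ c ∈ LL N 1, a - t - ψ c ∈ H

theorem latIter {A T : Finset G} {M : ℝ} (hM : 1 ≤ M) {k₀ : ℕ} (hk₀ : 1 ≤ k₀) {δ : ℝ}
    (hδ0 : 0 ≤ δ) (hδ : 16 * k₀ * δ ≤ 1) :
    ∀ (m : ℕ) (N : Seminorm ℝ (Fin m → ℝ)) (ψ : (Fin m → ℤ) →+ G) (H : AddSubgroup G) (ρ : ℝ),
      Finite H → (∀ t, (LL N t).Finite) → Th N δ → 5 / 8 + 3 * m / (8 * k₀) ≤ ρ → ρ ≤ 1 →
      Lst N ψ H T A →
      ∃ (m' : ℕ) (N' : Seminorm ℝ (Fin m' → ℝ)) (ψ' : (Fin m' → ℤ) →+ G) (H' : AddSubgroup G),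
        m' ≤ m ∧ Finite H' ∧ (∀ t, (LL N' t).Finite) ∧ Th N' δ ∧ NR N' ψ' H' M ∧
        ((LL N' (5 / 8)).ncard : ℝ) * Nat.card H' ≤
          (16 * k₀ * M) ^ m * ((LL N ρ).ncard * Nat.card H) ∧ Lst N' ψ' H' T A := by
  have hk₀' : (1 : ℝ) ≤ k₀ := by exact_mod_cast hk₀
  have hk0 : (0 : ℝ) < k₀ := by linarith
  have hkM : (1 : ℝ) ≤ 16 * k₀ * M := by nlinarith
  intro m
  induction m using Nat.strong_induction_on with
  | _ m ih =>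
  intro N ψ H ρ hH hfin hTh hρ hρ1 hL
  by_cases hNR : NR N ψ H M
  · refine ⟨m, N, ψ, H, le_rfl, hH, hfin, hTh, hNR, ?_, hL⟩
    have h1 : ((LL N (5 / 8)).ncard : ℝ) ≤ (LL N ρ).ncard := by
      have h2 : (5 : ℝ) / 8 ≤ ρ := by
        have : (0 : ℝ) ≤ 3 * m / (8 * k₀) := by positivity
        linarith
      exact_mod_cast Set.ncard_le_ncard (gap_LL_mono N h2) (hfin _)
    calc ((LL N (5 / 8)).ncard : ℝ) * Nat.card H ≤ (LL N ρ).ncard * Nat.card H := by gcongr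
      _ ≤ _ := le_mul_of_one_le_left (by positivity) (one_le_pow₀ hkM)
  unfold NR at hNR
  push Not at hNR
  obtain ⟨c, hcM, hcH, hc⟩ := hNR
  obtain ⟨m', w, N', μ, g, hmm, hμ, hcg, hrep, hfin', hTh', hcount⟩ :=
    qstep N hfin hδ0 hTh hc (by linarith) hcM
  have hμg : μ • ψ g ∈ H := by
    rw [← map_nsmul]
    rcases hcg with h | h
    · rwa [← h]
    · have h1 : μ • g = -c := by rw [h, neg_neg]
      rw [h1, map_neg]
      exact H.neg_mem hcH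
  obtain ⟨hH'f, hH'c⟩ := supH H (ψ g) hμ hμg
  obtain ⟨H', hH'⟩ : ∃ H' : AddSubgroup G, H' = H ⊔ AddSubgroup.zmultiples (ψ g) := ⟨_, rfl⟩
  rw [← hH'] at hH'f hH'c
  obtain ⟨ψ', hψ'⟩ : ∃ ψ' : (Fin m' → ℤ) →+ G, ∀ y, ψ' y = ψ (∑ j, y j • w j) := by
    refine ⟨⟨⟨fun y => ψ (∑ j, y j • w j), by simp⟩, ?_⟩, fun y => rfl⟩
    intro a b
    simp only [Pi.add_apply, add_smul, sum_add_distrib, map_add]
  have hL' : Lst N' ψ' H' T A := by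
    intro a ha
    obtain ⟨t, ht, n, hn, h⟩ := hL a ha
    obtain ⟨y, j, e, hy⟩ := hrep n
    refine ⟨t, ht, y, hy 1 hn, ?_⟩
    have e1 : a - t - ψ' y = (a - t - ψ n) + j • ψ g := by
      rw [hψ', e, map_add, map_zsmul]
      abel
    rw [e1, hH']
    exact AddSubgroup.add_mem _ ((le_sup_left : H ≤ _) h)
      ((le_sup_right : AddSubgroup.zmultiples (ψ g) ≤ _)
        (AddSubgroup.zsmul_mem _ (AddSubgroup.mem_zmultiples _) _))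
  -- the radii
  have hm1 : (m : ℝ) = m' + 1 := by exact_mod_cast hmm.symm
  obtain ⟨κ, hκ⟩ : ∃ κ : ℝ, κ = 1 / k₀ := ⟨_, rfl⟩
  have hκ0 : 0 < κ := by rw [hκ]; positivity
  have hκ1 : κ ≤ 1 := by rw [hκ, div_le_one hk0]; exact hk₀'
  have hδκ : δ ≤ κ / 16 := by
    rw [hκ, div_div, le_div_iff₀ (by positivity)]
    linarith
  have e1 : 3 * (m : ℝ) / (8 * k₀) = 3 / 8 * (m' * κ) + 3 / 8 * κ := by
    rw [hm1, hκ]; field_simp
  have e2 : 3 * (m' : ℝ) / (8 * k₀) = 3 / 8 * (m' * κ) := by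
    rw [hκ]; field_simp
  have hm'κ : 0 ≤ (m' : ℝ) * κ := by positivity
  rw [e1] at hρ
  obtain ⟨ρ₁, hρ₁⟩ : ∃ ρ₁, ρ₁ = ρ - δ := ⟨_, rfl⟩
  have hρ₁2 : 1 / 2 ≤ ρ₁ := by rw [hρ₁]; linarith
  have hρ₁1 : ρ₁ ≤ 1 := by rw [hρ₁]; linarith
  have hρ2 : 5 / 8 + 3 / 8 * (m' * κ) ≤ ρ₁ * (1 - κ / 4) - δ := by
    have h1 : ρ₁ * (κ / 4) ≤ κ / 4 := by nlinarith
    have h2 : ρ₁ * (1 - κ / 4) - δ = ρ - δ - ρ₁ * (κ / 4) - δ := by rw [hρ₁]; ring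
    rw [h2]
    linarith
  have hρ3 : ρ₁ * (1 - κ / 4) - δ ≤ 1 := by nlinarith
  obtain ⟨m₂, N₂, ψ₂, H₂, hm₂, hH₂, hfin₂, hTh₂, hNR₂, hvol₂, hL₂⟩ :=
    ih m' (by omega) N' ψ' H' (ρ₁ * (1 - κ / 4) - δ) hH'f hfin' hTh' (by rw [e2]; exact hρ2) hρ3 hL'
  refine ⟨m₂, N₂, ψ₂, H₂, by omega, hH₂, hfin₂, hTh₂, hNR₂, ?_, hL₂⟩
  have h1 := hcount ρ₁ (κ / 4) (by linarith) (by positivity)
  rw [hρ₁, sub_add_cancel, ← hρ₁] at h1
  have h2 : 2 * M / (ρ₁ * (κ / 4)) ≤ 16 * k₀ * M := by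
    rw [div_le_iff₀ (by positivity)]
    have h3 : (k₀ : ℝ) * κ = 1 := by rw [hκ]; field_simp
    calc 2 * M = 4 * M * (1 / 2) * (k₀ * κ) := by rw [h3]; ring
      _ ≤ 4 * M * ρ₁ * (k₀ * κ) := by gcongr
      _ = 16 * k₀ * M * (ρ₁ * (κ / 4)) := by ring
  have h3 : ((LL N' (ρ₁ * (1 - κ / 4) - δ)).ncard : ℝ) * Nat.card H' ≤
      (16 * k₀ * M) * ((LL N ρ).ncard * Nat.card H) := by
    have h4 : (Nat.card H' : ℝ) ≤ μ * Nat.card H := by exact_mod_cast hH'c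
    calc ((LL N' (ρ₁ * (1 - κ / 4) - δ)).ncard : ℝ) * Nat.card H'
        ≤ ((LL N' (ρ₁ * (1 - κ / 4) - δ)).ncard : ℝ) * (μ * Nat.card H) := by gcongr
      _ = (((LL N' (ρ₁ * (1 - κ / 4) - δ)).ncard : ℝ) * μ) * Nat.card H := by ring
      _ ≤ ((2 * M / (ρ₁ * (κ / 4))) * (LL N ρ).ncard) * Nat.card H := by gcongr
      _ ≤ ((16 * k₀ * M) * (LL N ρ).ncard) * Nat.card H := by gcongr
      _ = _ := by ring
  have e3 : (16 * (k₀ : ℝ) * M) ^ m = (16 * k₀ * M) ^ m' * (16 * k₀ * M) := by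
    rw [← hmm, pow_succ]
  calc ((LL N₂ (5 / 8)).ncard : ℝ) * Nat.card H₂
      ≤ (16 * k₀ * M) ^ m' * ((LL N' (ρ₁ * (1 - κ / 4) - δ)).ncard * Nat.card H') := hvol₂
    _ ≤ (16 * k₀ * M) ^ m' * ((16 * k₀ * M) * ((LL N ρ).ncard * Nat.card H)) := by gcongr
    _ = _ := by rw [e3]; ring

end Pool.Agent.U546.FB
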