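import Pool.Agent.U546.FB.Quot

/-!
# Lattice points of thick norms, and quotients by a short vector
-/

set_option autoImplicit false

namespace Pool.Agent.U546.FB

open Finset H112
open scoped Pointwise

section norm

variable {m : ℕ} (N : Seminorm ℝ (Fin m → ℝ))

theorem mem_LL {c : Fin m → ℤ} {r : ℝ} : c ∈ LL N r ↔ N (fun i => (c i : ℝ)) ≤ r := Iff.rfl

theorem LL_zsmul {c : Fin m → ℤ} {r : ℝ} (hc : c ∈ LL N r) (n : ℤ) : n • c ∈ LL N (|(n : ℝ)| * r) := by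
  rw [mem_LL] at hc ⊢
  have h : (fun i => (((n • c) i : ℤ) : ℝ)) = (n : ℝ) • fun i => (c i : ℝ) := by
    funext i; simp
  rw [h, map_smul_eq_mul, Real.norm_eq_abs]
  gcongr

theorem LL_two {c : Fin m → ℤ} {r : ℝ} : (2 : ℤ) • c ∈ LL N (2 * r) ↔ c ∈ LL N r := by
  rw [mem_LL, mem_LL]
  have h : (fun i => ((((2 : ℤ) • c) i : ℤ) : ℝ)) = (2 : ℝ) • fun i => (c i : ℝ) := by
    funext i; simp
  rw [h, map_smul_eq_mul, Real.norm_eq_abs]
  norm_num

/-- every class modulo two has a representative of norm at most `δ` -/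
def Th (δ : ℝ) : Prop := ∀ y : Fin m → ℤ, ∃ z : Fin m → ℤ, y - (2 : ℤ) • z ∈ LL N δ

variable {N}

theorem par_reps {δ : ℝ} (h : Th N δ) : ∃ (e : (Fin m → ℤ) → (Fin m → ℤ))
    (Pm : Finset (Fin m → ℤ)), Pm.card = 2 ^ m ∧ (∀ p, e p ∈ LL N δ) ∧
      (∀ c : Fin m → ℤ, ∃ p ∈ Pm, ∃ z, c = (2 : ℤ) • z + e p) ∧
      (∀ p ∈ Pm, ∀ p' ∈ Pm, ∀ z z', (2 : ℤ) • z + e p = (2 : ℤ) • z' + e p' → p = p' ∧ z = z') := by
  classical
  choose f hf using h
  refine ⟨fun p => p - (2 : ℤ) • f p, Fintype.piFinset fun _ => ({0, 1} : Finset ℤ), ?_, hf, ?_, ?_⟩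
  · rw [Fintype.card_piFinset]
    simp
  · intro c
    refine ⟨fun i => c i % 2, ?_, (fun i => c i / 2) + f (fun i => c i % 2), ?_⟩
    · rw [Fintype.mem_piFinset]
      intro i
      rw [mem_insert, mem_singleton]
      omega
    · funext i
      simp only [Pi.add_apply, Pi.sub_apply, Pi.smul_apply, smul_eq_mul]
      have := Int.emod_add_mul_ediv (c i) 2
      linarith
  · intro p hp p' hp' z z' h
    rw [Fintype.mem_piFinset] at hp hp'
    have h1 : p = p' := by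
      funext i
      have h2 := hp i
      have h3 := hp' i
      rw [mem_insert, mem_singleton] at h2 h3
      have h4 := congrFun h i
      simp only [Pi.add_apply, Pi.sub_apply, Pi.smul_apply, smul_eq_mul] at h4
      omega
    subst h1
    refine ⟨rfl, ?_⟩
    have h2 := add_right_cancel h
    funext i
    have h3 := congrFun h2 i
    simp only [Pi.smul_apply, smul_eq_mul] at h3
    omega

theorem sc1 {δ : ℝ} (h : Th N δ) {t : ℝ} (hfin : (LL N (t + δ / 2)).Finite) :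
    (LL N (2 * t)).ncard ≤ 2 ^ m * (LL N (t + δ / 2)).ncard := by
  classical
  obtain ⟨e, Pm, hPm, he, hrep, -⟩ := par_reps h
  choose p hp z hz using hrep
  have hz' : ∀ c ∈ LL N (2 * t), z c ∈ LL N (t + δ / 2) := by
    intro c hc
    rw [← LL_two]
    have h1 : (2 : ℤ) • z c = c - e (p c) := by
      have := hz c
      exact eq_sub_of_add_eq this.symm
    rw [h1]
    have h2 := gap_LL_sub N hc (he (p c))
    have h3 : 2 * t + δ = 2 * (t + δ / 2) := by ring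
    rwa [h3] at h2
  obtain ⟨F, hF⟩ : ∃ F : Finset ((Fin m → ℤ) × (Fin m → ℤ)), F = Pm ×ˢ hfin.toFinset := ⟨_, rfl⟩
  have hinj : Set.InjOn (fun c => (p c, z c)) (LL N (2 * t)) := by
    intro c _ c' _ h'
    simp only [Prod.mk.injEq] at h'
    rw [hz c, hz c', h'.1, h'.2]
  rw [← hinj.ncard_image, ← hPm, Set.ncard_eq_toFinset_card _ hfin, ← card_product, ← hF,
    ← Set.ncard_coe_finset]
  refine Set.ncard_le_ncard ?_ F.finite_toSet
  rintro _ ⟨c, hc, rfl⟩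
  rw [hF, mem_coe, mem_product, Set.Finite.mem_toFinset]
  exact ⟨hp c, hz' c hc⟩

theorem sc2 {δ : ℝ} (h : Th N δ) {t : ℝ} (hfin : (LL N (2 * t + δ)).Finite)
    (hfin' : (LL N t).Finite) :
    2 ^ m * (LL N t).ncard ≤ (LL N (2 * t + δ)).ncard := by
  classical
  obtain ⟨e, Pm, hPm, he, -, hinj⟩ := par_reps h
  obtain ⟨F, hF⟩ : ∃ F : Finset ((Fin m → ℤ) × (Fin m → ℤ)), F = Pm ×ˢ hfin'.toFinset := ⟨_, rfl⟩
  have hinj' : Set.InjOn (fun q : (Fin m → ℤ) × (Fin m → ℤ) => (2 : ℤ) • q.2 + e q.1)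
      (F : Set ((Fin m → ℤ) × (Fin m → ℤ))) := by
    intro q hq q' hq' h'
    rw [hF, mem_coe, mem_product] at hq hq'
    obtain ⟨h1, h2⟩ := hinj q.1 hq.1 q'.1 hq'.1 q.2 q'.2 h'
    exact Prod.ext h1 h2
  rw [← hPm, Set.ncard_eq_toFinset_card _ hfin', ← card_product, ← hF, ← Set.ncard_coe_finset,
    ← hinj'.ncard_image]
  refine Set.ncard_le_ncard ?_ hfin
  rintro _ ⟨q, hq, rfl⟩
  rw [hF, mem_coe, mem_product, Set.Finite.mem_toFinset] at hq
  exact gap_LL_add N ((LL_two N).2 hq.2) (he _)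

theorem sc1_iter {δ : ℝ} (hδ : 0 ≤ δ) (h : Th N δ) (hfin : ∀ t, (LL N t).Finite) (a : ℕ) (t : ℝ) :
    (LL N (2 ^ a * t)).ncard ≤ 2 ^ (a * m) * (LL N (t + δ)).ncard := by
  suffices hs : ∀ (a : ℕ) (t : ℝ), (LL N (2 ^ a * t)).ncard ≤
      2 ^ (a * m) * (LL N (t + δ * (1 - 1 / 2 ^ a))).ncard by
    refine (hs a t).trans (Nat.mul_le_mul_left _ (Set.ncard_le_ncard (gap_LL_mono N ?_) (hfin _)))
    have h1 : (0 : ℝ) ≤ 1 / 2 ^ a := by positivity
    nlinarith
  clear a t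
  intro a
  induction a with
  | zero =>
    intro t
    simp
  | succ a ih =>
    intro t
    have h1 := sc1 h (t := 2 ^ a * t) (hfin _)
    have h2 := ih (t + δ / 2 ^ (a + 1))
    have e1 : (2 : ℝ) ^ (a + 1) * t = 2 * (2 ^ a * t) := by ring
    have e2 : (2 : ℝ) ^ a * t + δ / 2 = 2 ^ a * (t + δ / 2 ^ (a + 1)) := by
      field_simp; ring
    have e3 : t + δ / 2 ^ (a + 1) + δ * (1 - 1 / 2 ^ a) = t + δ * (1 - 1 / 2 ^ (a + 1)) := by
      field_simp; ring
    rw [e1]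
    rw [e2] at h1
    rw [e3] at h2
    calc _ ≤ 2 ^ m * (2 ^ (a * m) * (LL N (t + δ * (1 - 1 / 2 ^ (a + 1)))).ncard) :=
          h1.trans (Nat.mul_le_mul_left _ h2)
      _ = _ := by rw [← mul_assoc, ← pow_add]; ring_nf

theorem sc2_iter {δ : ℝ} (h : Th N δ) (hfin : ∀ t, (LL N t).Finite) (hδ : 0 ≤ δ) (a : ℕ) (t : ℝ) :
    2 ^ (a * m) * (LL N t).ncard ≤ (LL N (2 ^ a * (t + δ))).ncard := by
  suffices hs : ∀ (a : ℕ), 2 ^ (a * m) * (LL N t).ncard ≤
      (LL N (2 ^ a * t + δ * (2 ^ a - 1))).ncard by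
    refine (hs a).trans (Set.ncard_le_ncard (gap_LL_mono N ?_) (hfin _))
    linarith
  clear a
  intro a
  induction a with
  | zero => simp
  | succ a ih =>
    have h1 := sc2 h (t := 2 ^ a * t + δ * (2 ^ a - 1)) (hfin _) (hfin _)
    have e1 : 2 * ((2 : ℝ) ^ a * t + δ * (2 ^ a - 1)) + δ =
        2 ^ (a + 1) * t + δ * (2 ^ (a + 1) - 1) := by ring
    rw [e1] at h1
    refine le_trans ?_ h1
    calc 2 ^ ((a + 1) * m) * (LL N t).ncard = 2 ^ m * (2 ^ (a * m) * (LL N t).ncard) := by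
          rw [← mul_assoc, ← pow_add]; ring_nf
      _ ≤ _ := Nat.mul_le_mul_left _ ih

end norm

/-- the quotient seminorm of `N` by the line through `g`, in the coordinates `W` -/
theorem exists_qN {m m' : ℕ} (N : Seminorm ℝ (Fin m → ℝ))
    (W : (Fin m' → ℝ) →ₗ[ℝ] (Fin m → ℝ)) (g : Fin m → ℝ) :
    ∃ N' : Seminorm ℝ (Fin m' → ℝ), (∀ y (β : ℝ), N' y ≤ N (W y + β • g)) ∧
      ∀ y a, N' y < a → ∃ β : ℝ, N (W y + β • g) < a := by
  obtain ⟨f, hf⟩ : ∃ f : (Fin m' → ℝ) → ℝ, f = fun y => ⨅ β : ℝ, N (W y + β • g) := ⟨_, rfl⟩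
  have hbdd : ∀ y, BddBelow (Set.range fun β : ℝ => N (W y + β • g)) := fun y =>
    ⟨0, by rintro _ ⟨β, rfl⟩; exact apply_nonneg N _⟩
  have h1 : ∀ y β, f y ≤ N (W y + β • g) := fun y β => by
    rw [hf]; exact ciInf_le (hbdd y) β
  have h2 : ∀ y a, f y < a → ∃ β : ℝ, N (W y + β • g) < a := fun y a h => by
    rw [hf] at h; exact exists_lt_of_ciInf_lt h
  have h0 : ∀ y, 0 ≤ f y := fun y => by
    rw [hf]; exact Real.iInf_nonneg fun β => apply_nonneg N _
  refine ⟨Seminorm.ofSMulLE f ?_ ?_ ?_, h1, h2⟩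
  · refine le_antisymm ?_ (h0 0)
    have := h1 0 0
    simpa using this
  · intro x y
    refine le_of_forall_pos_le_add fun ε hε => ?_
    obtain ⟨β, hβ⟩ := h2 x (f x + ε / 2) (by linarith)
    obtain ⟨β', hβ'⟩ := h2 y (f y + ε / 2) (by linarith)
    have h3 := h1 (x + y) (β + β')
    have h4 : W (x + y) + (β + β') • g = (W x + β • g) + (W y + β' • g) := by
      rw [map_add, add_smul]; abel
    rw [h4] at h3
    have h5 := map_add_le_add N (W x + β • g) (W y + β' • g)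
    linarith
  · intro r x
    rcases eq_or_ne r 0 with rfl | hr
    · rw [zero_smul, norm_zero, zero_mul]
      have := h1 0 0
      simpa using this
    refine le_of_forall_pos_le_add fun ε hε => ?_
    have hr0 : 0 < ‖r‖ := norm_pos_iff.2 hr
    obtain ⟨β, hβ⟩ := h2 x (f x + ε / ‖r‖) (by
      have : 0 < ε / ‖r‖ := by positivity
      linarith)
    have h3 := h1 (r • x) (r * β)
    have h4 : W (r • x) + (r * β) • g = r • (W x + β • g) := by
      rw [map_smul, smul_add, mul_smul]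
    rw [h4, map_smul_eq_mul] at h3
    calc f (r • x) ≤ ‖r‖ * N (W x + β • g) := h3
      _ ≤ ‖r‖ * (f x + ε / ‖r‖) := by gcongr
      _ = ‖r‖ * f x + ε := by field_simp

end Pool.Agent.U546.FB
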