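import Pool.Agent.U546.FB.Lat

/-!
# Dividing a thick norm by a short vector: the number of lattice points
-/

set_option autoImplicit false

namespace Pool.Agent.U546.FB

open Finset H112
open scoped Pointwise

theorem qstep {m : ℕ} (N : Seminorm ℝ (Fin m → ℝ)) (hfin : ∀ t, (LL N t).Finite) {δ : ℝ}
    (hδ : 0 ≤ δ) (hTh : Th N δ) {c : Fin m → ℤ} (hc : c ≠ 0) {M : ℝ} (hM : 0 < M)
    (hcM : c ∈ LL N M) :
    ∃ (m' : ℕ) (w : Fin m' → (Fin m → ℤ)) (N' : Seminorm ℝ (Fin m' → ℝ)) (μ : ℕ)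
      (g : Fin m → ℤ), m' + 1 = m ∧ 0 < μ ∧ (c = μ • g ∨ c = -(μ • g)) ∧
      (∀ n : Fin m → ℤ, ∃ (y : Fin m' → ℤ) (j : ℤ), n = ∑ i, y i • w i + j • g ∧
        ∀ r, n ∈ LL N r → y ∈ LL N' r) ∧
      (∀ t, (LL N' t).Finite) ∧ Th N' δ ∧
      ∀ ρ₁ α : ℝ, 0 < ρ₁ → 0 < α → ((LL N' (ρ₁ * (1 - α) - δ)).ncard : ℝ) * μ ≤
        (2 * M / (ρ₁ * α)) * (LL N (ρ₁ + δ)).ncard := by
  classical
  obtain ⟨i₀, hi₀⟩ : ∃ j, c j ≠ 0 := by
    by_contra hcon
    push Not at hcon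
    exact hc (funext hcon)
  obtain ⟨q, μ, g, hq, hμ, hμq, hg, hgq, hgen, hcg⟩ := line_gen c i₀ hi₀
  obtain ⟨m', w, hmk, hw1, hw2⟩ := line_quot c i₀ hi₀
  obtain ⟨W, hW⟩ : ∃ W : (Fin m' → ℝ) →ₗ[ℝ] (Fin m → ℝ), ∀ y i, W y i = ∑ j, y j * w j i := by
    refine ⟨(Matrix.of fun (i : Fin m) (j : Fin m') => (w j i : ℝ)).mulVecLin, fun y i => ?_⟩
    rw [Matrix.mulVecLin_apply, Matrix.mulVec, dotProduct]
    refine sum_congr rfl fun j _ => ?_
    rw [Matrix.of_apply]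
    ring
  obtain ⟨γ, hγ⟩ : ∃ γ : Fin m → ℝ, γ = fun i => (g i : ℝ) := ⟨_, rfl⟩
  obtain ⟨N', hN1, hN2⟩ := exists_qN N W γ
  have hcast : ∀ (y : Fin m' → ℤ) (j : ℤ), (fun i => (((∑ i, y i • w i + j • g) i : ℤ) : ℝ)) =
      W (fun i => (y i : ℝ)) + (j : ℝ) • γ := by
    intro y j
    funext i
    have e1 : (W (fun i => (y i : ℝ)) + (j : ℝ) • γ) i =
        W (fun i => (y i : ℝ)) i + ((j : ℝ) • γ) i := rfl
    rw [e1, hW, hγ]
    simp only [Pi.add_apply, Finset.sum_apply, Pi.smul_apply, smul_eq_mul]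
    push_cast
    rfl
  have hμ0 : (0 : ℝ) < μ := by exact_mod_cast hμ
  have hγN : (μ : ℝ) * N γ ≤ M := by
    have h1 : N (fun i => (c i : ℝ)) = μ * N γ := by
      rcases hcg with h | h
      · have e : (fun i => (c i : ℝ)) = (μ : ℝ) • γ := by
          funext i; rw [h, hγ]; simp
        rw [e, map_smul_eq_mul, Real.norm_eq_abs, abs_of_pos hμ0]
      · have e : (fun i => (c i : ℝ)) = -((μ : ℝ) • γ) := by
          funext i; rw [h, hγ]; simp
        rw [e, map_neg_eq_map, map_smul_eq_mul, Real.norm_eq_abs, abs_of_pos hμ0]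
    rw [← h1]
    exact hcM
  have hγ0 : 0 ≤ N γ := apply_nonneg N _
  have hjg : ∀ j : ℤ, j • g = 0 → j = 0 := by
    intro j hj
    have h1 := congrFun hj i₀
    simp only [Pi.smul_apply, smul_eq_mul, hgq, Pi.zero_apply, mul_eq_zero] at h1
    rcases h1 with h1 | h1
    · exact h1
    · exact absurd h1 (by exact_mod_cast hq.ne')
  have huniq : ∀ (y y' : Fin m' → ℤ) (j j' : ℤ), ∑ i, y i • w i + j • g =
      ∑ i, y' i • w i + j' • g → y = y' ∧ j = j' := by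
    intro y y' j j' h
    have h1 : y = y' := by
      apply hw2
      have e : ∑ i, y i • w i - ∑ i, y' i • w i = (j' - j) • g := by
        rw [sub_smul, sub_eq_sub_iff_add_eq_add, h]
        abel
      rw [e]
      exact (line c i₀).smul_mem _ hg
    subst h1
    refine ⟨rfl, ?_⟩
    have h2 := add_left_cancel h
    have h3 := hjg (j - j') (by rw [sub_smul, h2, sub_self])
    omega
  have hnear : ∀ (y : Fin m' → ℤ) (β : ℝ) (i : ℤ) (r e : ℝ),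
      N (W (fun i => (y i : ℝ)) + β • γ) ≤ r → |(i : ℝ) - β| ≤ e →
      ∑ j, y j • w j + i • g ∈ LL N (r + e * N γ) := by
    intro y β i r e h1 h2
    rw [mem_LL, hcast]
    have e1 : W (fun i => (y i : ℝ)) + (i : ℝ) • γ =
        (W (fun i => (y i : ℝ)) + β • γ) + ((i : ℝ) - β) • γ := by
      rw [sub_smul]; abel
    rw [e1]
    refine (map_add_le_add N _ _).trans (add_le_add h1 ?_)
    rw [map_smul_eq_mul, Real.norm_eq_abs]
    gcongr
  have hN'fin : ∀ t, (LL N' t).Finite := by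
    intro t
    have hex : ∀ y ∈ LL N' t, ∃ i : ℤ, ∑ j, y j • w j + i • g ∈ LL N (t + 1 + 1 * N γ) := by
      intro y hy
      obtain ⟨β, hβ⟩ := hN2 _ (t + 1) (lt_of_le_of_lt hy (by linarith))
      refine ⟨⌊β⌋, hnear y β ⌊β⌋ (t + 1) 1 hβ.le ?_⟩
      rw [abs_le]
      have h1 := Int.floor_le β
      have h2 := Int.lt_floor_add_one β
      constructor <;> linarith
    choose! i hi using hex
    refine Set.Finite.of_finite_image (f := fun y => ∑ j, y j • w j + i y • g)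
      ((hfin (t + 1 + 1 * N γ)).subset ?_) ?_
    · rintro _ ⟨y, hy, rfl⟩
      exact hi y hy
    · intro y _ y' _ h
      exact (huniq _ _ _ _ h).1
  have hrep : ∀ n : Fin m → ℤ, ∃ (y : Fin m' → ℤ) (j : ℤ), n = ∑ i, y i • w i + j • g ∧
      ∀ r, n ∈ LL N r → y ∈ LL N' r := by
    intro n
    obtain ⟨y, hy⟩ := hw1 n
    have h1 := hgen _ hy
    refine ⟨y, (n - ∑ j, y j • w j) i₀ / q, ?_, ?_⟩
    · rw [← h1]; abel
    · intro r hr
      rw [mem_LL] at hr ⊢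
      refine (hN1 _ (((n - ∑ j, y j • w j) i₀ / q : ℤ) : ℝ)).trans ?_
      rw [← hcast, ← h1]
      have e : ∑ i, y i • w i + (n - ∑ j, y j • w j) = n := by abel
      rw [e]
      exact hr
  have hTh' : Th N' δ := by
    intro y
    obtain ⟨z, hz⟩ := hTh (∑ j, y j • w j)
    obtain ⟨z', j, hz', -⟩ := hrep z
    refine ⟨z', ?_⟩
    rw [mem_LL] at hz ⊢
    refine (hN1 _ ((-(2 * j) : ℤ) : ℝ)).trans ?_
    rw [← hcast]
    have e : ∑ i, (y - (2 : ℤ) • z') i • w i + (-(2 * j)) • g = ∑ j, y j • w j - (2 : ℤ) • z := by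
      rw [hz']
      simp only [Pi.sub_apply, Pi.smul_apply, smul_eq_mul, sub_smul, sum_sub_distrib, mul_smul,
        ← smul_sum, smul_add, neg_smul]
      abel
    rw [e]
    exact hz
  refine ⟨m', w, N', μ, g, hmk, hμ, hcg, hrep, hN'fin, hTh', ?_⟩
  intro ρ₁ α hρ₁ hα
  obtain ⟨x, hx⟩ : ∃ x : ℝ, x = ρ₁ * α * μ / M := ⟨_, rfl⟩
  have hx0 : 0 < x := by rw [hx]; positivity
  obtain ⟨a, ha⟩ : ∃ a : ℕ, 1 ≤ 2 ^ a * x := by
    obtain ⟨a, ha⟩ := pow_unbounded_of_one_lt (1 / x) (by norm_num : (1 : ℝ) < 2)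
    refine ⟨a, ?_⟩
    rw [div_lt_iff₀ hx0] at ha
    exact ha.le
  obtain ⟨X, hX⟩ : ∃ X : ℝ, X = 2 ^ a * x := ⟨_, rfl⟩
  rw [← hX] at ha
  obtain ⟨F, hF⟩ : ∃ F : ℕ, F = ⌊X⌋₊ := ⟨_, rfl⟩
  have hF1 : (F : ℝ) ≤ X := by rw [hF]; exact Nat.floor_le (by linarith)
  have hF2 : X / 2 ≤ F := by
    have h1 : X < F + 1 := by rw [hF]; exact Nat.lt_floor_add_one X
    have h2 : (1 : ℝ) ≤ F := by
      rw [hF]
      exact_mod_cast (Nat.one_le_floor_iff X).2 ha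
    linarith
  obtain ⟨t, ht⟩ : ∃ t : ℝ, t = 2 ^ a * ρ₁ := ⟨_, rfl⟩
  have ht0 : 0 < t := by rw [ht]; positivity
  have hXt : X / 2 * N γ ≤ t * (α / 2) := by
    have h1 : X * M = t * α * μ := by
      rw [hX, hx, ht]; field_simp
    have h2 : X / 2 * N γ * μ ≤ t * (α / 2) * μ := by
      have hX0 : 0 ≤ X := by linarith
      calc X / 2 * N γ * μ = X / 2 * (μ * N γ) := by ring
        _ ≤ X / 2 * M := by gcongr
        _ = t * (α / 2) * μ := by linarith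
    exact le_of_mul_le_mul_right h2 hμ0
  have hQ1 : (LL N' (t * (1 - α))).ncard * F ≤ (LL N t).ncard := by
    have hex : ∀ y ∈ LL N' (t * (1 - α)), ∃ β : ℝ,
        N (W (fun i => (y i : ℝ)) + β • γ) < t * (1 - α / 2) := by
      intro y hy
      refine hN2 _ _ (lt_of_le_of_lt hy ?_)
      have : 0 < t * α := mul_pos ht0 hα
      linarith
    choose! β hβ using hex
    obtain ⟨E, hE⟩ : ∃ E : Finset ((Fin m' → ℤ) × ℕ),
        E = (hN'fin (t * (1 - α))).toFinset ×ˢ range F := ⟨_, rfl⟩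
    have hEc : E.card = (LL N' (t * (1 - α))).ncard * F := by
      rw [hE, card_product, card_range, Set.ncard_eq_toFinset_card _ (hN'fin (t * (1 - α)))]
    have hinj : Set.InjOn (fun p : (Fin m' → ℤ) × ℕ =>
        ∑ j, p.1 j • w j + (⌈β p.1 - X / 2⌉ + (p.2 : ℤ)) • g) (E : Set ((Fin m' → ℤ) × ℕ)) := by
      rintro ⟨y, l⟩ _ ⟨y', l'⟩ _ h
      obtain ⟨h1, h2⟩ := huniq _ _ _ _ h
      simp only at h1 h2
      subst h1
      have h3 : (l : ℤ) = l' := add_left_cancel h2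
      rw [Prod.mk.injEq]
      exact ⟨rfl, by exact_mod_cast h3⟩
    rw [← hEc, ← Set.ncard_coe_finset, ← hinj.ncard_image]
    refine Set.ncard_le_ncard ?_ (hfin t)
    rintro _ ⟨⟨y, l⟩, hp, rfl⟩
    rw [hE, mem_coe, mem_product, Set.Finite.mem_toFinset, mem_range] at hp
    have h1 := hnear y (β y) (⌈β y - X / 2⌉ + (l : ℤ)) (t * (1 - α / 2)) (X / 2)
      (hβ y hp.1).le (by
        have h2 := Int.le_ceil (β y - X / 2)
        have h3 := Int.ceil_lt_add_one (β y - X / 2)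
        have h4 : (l : ℝ) + 1 ≤ F := by exact_mod_cast hp.2
        have h5 : (0 : ℝ) ≤ l := by positivity
        push_cast
        rw [abs_le]
        constructor <;> linarith)
    refine gap_LL_mono N ?_ h1
    linarith
  have hA := sc2_iter hTh' hN'fin hδ a (ρ₁ * (1 - α) - δ)
  have hB := sc1_iter hδ hTh hfin a ρ₁
  have e1 : (2 : ℝ) ^ a * (ρ₁ * (1 - α) - δ + δ) = t * (1 - α) := by rw [ht]; ring
  rw [e1] at hA
  rw [← ht] at hB
  have e3 : (2 : ℕ) ^ (a * m) = 2 ^ (a * m') * 2 ^ a := by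
    rw [← hmk, Nat.mul_succ, pow_add]
  have hC : 2 ^ (a * m') * ((LL N' (ρ₁ * (1 - α) - δ)).ncard * F) ≤
      2 ^ (a * m') * (2 ^ a * (LL N (ρ₁ + δ)).ncard) := by
    calc 2 ^ (a * m') * ((LL N' (ρ₁ * (1 - α) - δ)).ncard * F)
        = (2 ^ (a * m') * (LL N' (ρ₁ * (1 - α) - δ)).ncard) * F := by ring
      _ ≤ (LL N' (t * (1 - α))).ncard * F := Nat.mul_le_mul_right _ hA
      _ ≤ (LL N t).ncard := hQ1
      _ ≤ 2 ^ (a * m) * (LL N (ρ₁ + δ)).ncard := hB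
      _ = _ := by rw [e3, mul_assoc]
  have hD := Nat.le_of_mul_le_mul_left hC (by positivity)
  have hD' : ((LL N' (ρ₁ * (1 - α) - δ)).ncard : ℝ) * F ≤ 2 ^ a * (LL N (ρ₁ + δ)).ncard := by
    exact_mod_cast hD
  obtain ⟨u, hu⟩ : ∃ u : ℝ, u = ((LL N' (ρ₁ * (1 - α) - δ)).ncard : ℝ) := ⟨_, rfl⟩
  obtain ⟨b, hb⟩ : ∃ b : ℝ, b = ((LL N (ρ₁ + δ)).ncard : ℝ) := ⟨_, rfl⟩
  rw [← hu, ← hb] at hD' ⊢
  have hu0 : 0 ≤ u := by rw [hu]; positivity
  have h2a : (0 : ℝ) < 2 ^ a := by positivity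
  have hE : u * (x / 2) ≤ b := by
    have h1 : 2 ^ a * (u * (x / 2)) ≤ 2 ^ a * b := by
      calc 2 ^ a * (u * (x / 2)) = u * (X / 2) := by rw [hX]; ring
        _ ≤ u * F := by gcongr
        _ ≤ 2 ^ a * b := hD'
    exact le_of_mul_le_mul_left h1 h2a
  have e2 : u * μ = (2 * M / (ρ₁ * α)) * (u * (x / 2)) := by
    rw [hx]; field_simp
  rw [e2]
  gcongr

end Pool.Agent.U546.FB
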