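import Pool.Agent.U546.FB.Cov
import Pool.Agent.H112R2.Cover

/-!
# Dividing out a short relation

The quotient of `ℤ^k` by the saturated subgroup generated by a vector `c`, together with the norm
for which the image of the box `L` has radius one.
-/

set_option autoImplicit false

namespace Pool.Agent.U546.FB

open Finset H112
open scoped Pointwise

/-- the saturated line through `c` -/
def line {k : ℕ} (c : Fin k → ℤ) (i₀ : Fin k) : Submodule ℤ (Fin k → ℤ) where
  carrier := {n | ∀ i, n i * c i₀ = n i₀ * c i}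
  zero_mem' := by intro i; simp
  add_mem' := by
    intro a b ha hb i
    simp only [Pi.add_apply, add_mul]
    rw [ha i, hb i]
  smul_mem' := by
    intro m a ha i
    simp only [Pi.smul_apply, smul_eq_mul, mul_assoc]
    rw [ha i]

theorem mem_line {k : ℕ} {c : Fin k → ℤ} {i₀ : Fin k} {n : Fin k → ℤ} :
    n ∈ line c i₀ ↔ ∀ i, n i * c i₀ = n i₀ * c i := Iff.rfl

/-- a generator of the line -/
theorem line_gen {k : ℕ} (c : Fin k → ℤ) (i₀ : Fin k) (hc : c i₀ ≠ 0) :
    ∃ (q μ : ℕ) (g : Fin k → ℤ), 0 < q ∧ 0 < μ ∧ μ * q = (c i₀).natAbs ∧ g ∈ line c i₀ ∧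
      g i₀ = q ∧ (∀ n ∈ line c i₀, n = (n i₀ / q) • g) ∧ (c = μ • g ∨ c = -(μ • g)) := by
  classical
  have hex : ∃ q : ℕ, 0 < q ∧ ∃ n ∈ line c i₀, n i₀ = q := by
    refine ⟨(c i₀).natAbs, Int.natAbs_pos.2 hc, ?_⟩
    rcases Int.natAbs_eq (c i₀) with h | h
    · exact ⟨c, fun i => by ring, h⟩
    · refine ⟨-c, fun i => ?_, ?_⟩
      · simp only [Pi.neg_apply]; ring
      · simp only [Pi.neg_apply]; omega
  obtain ⟨q, hq⟩ : ∃ q, q = Nat.find hex := ⟨_, rfl⟩
  obtain ⟨hq0, g, hg, hgq⟩ : 0 < q ∧ ∃ n ∈ line c i₀, n i₀ = q := by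
    rw [hq]; exact Nat.find_spec hex
  have hq0' : (q : ℤ) ≠ 0 := by exact_mod_cast hq0.ne'
  have hgen : ∀ n ∈ line c i₀, n = (n i₀ / q) • g := by
    intro n hn
    have hmem : n - (n i₀ / q) • g ∈ line c i₀ :=
      (line c i₀).sub_mem hn ((line c i₀).smul_mem _ hg)
    have h1 : (n - (n i₀ / q) • g) i₀ = n i₀ % q := by
      simp only [Pi.sub_apply, Pi.smul_apply, smul_eq_mul, hgq]
      have := Int.emod_add_mul_ediv (n i₀) q
      linarith
    have h2 : n i₀ % q = 0 := by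
      by_contra hne
      have h3 := Int.emod_nonneg (n i₀) hq0'
      have h4 := Int.emod_lt_of_pos (n i₀) (by positivity : (0 : ℤ) < q)
      have h5 : (n i₀ % q).toNat < q := by omega
      rw [hq] at h5
      apply Nat.find_min hex h5
      rw [← hq]
      refine ⟨by omega, n - (n i₀ / q) • g, hmem, ?_⟩
      rw [h1]
      omega
    rw [h2] at h1
    have h3 : n - (n i₀ / q) • g = 0 := by
      funext i
      have h4 := mem_line.1 hmem i
      rw [h1, zero_mul] at h4
      rcases mul_eq_zero.1 h4 with h | h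
      · exact h
      · exact absurd h hc
    exact sub_eq_zero.1 h3
  have hcl : c ∈ line c i₀ := fun i => by ring
  have hcg := hgen c hcl
  have hci : c i₀ = (c i₀ / q) * q := by
    have := congrFun hcg i₀
    simp only [Pi.smul_apply, smul_eq_mul, hgq] at this
    exact this
  refine ⟨q, (c i₀ / q).natAbs, g, hq0, ?_, ?_, hg, hgq, hgen, ?_⟩
  · rw [Int.natAbs_pos]
    intro h
    rw [h, zero_mul] at hci
    exact hc hci
  · conv_rhs => rw [hci]
    rw [Int.natAbs_mul, Int.natAbs_natCast]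
  · rcases Int.natAbs_eq (c i₀ / q) with h | h
    · left
      rw [← natCast_zsmul, ← h]
      exact hcg
    · right
      rw [← natCast_zsmul, ← neg_smul, ← h]
      exact hcg

theorem line_finrank {k : ℕ} (c : Fin k → ℤ) (i₀ : Fin k) (hc : c i₀ ≠ 0) :
    Module.finrank ℤ (line c i₀) = 1 := by
  obtain ⟨q, μ, g, hq, hμ, -, hg, hgq, hgen, -⟩ := line_gen c i₀ hc
  have hbij : Function.Bijective (LinearMap.toSpanSingleton ℤ (line c i₀) ⟨g, hg⟩) := by
    constructor
    · rw [injective_iff_map_eq_zero]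
      intro j hj
      rw [LinearMap.toSpanSingleton_apply, Subtype.ext_iff] at hj
      have h1 := congrFun hj i₀
      simp only [Submodule.coe_smul, Submodule.coe_zero, Pi.smul_apply, smul_eq_mul, hgq,
        Pi.zero_apply, mul_eq_zero] at h1
      rcases h1 with h1 | h1
      · exact h1
      · exact absurd h1 (by exact_mod_cast hq.ne')
    · rintro ⟨n, hn⟩
      refine ⟨n i₀ / q, ?_⟩
      rw [LinearMap.toSpanSingleton_apply]
      apply Subtype.ext
      exact (hgen n hn).symm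
  rw [← (LinearEquiv.ofBijective _ hbij).finrank_eq, Module.finrank_self]

/-- the quotient by the line is free of smaller rank -/
theorem line_quot {k : ℕ} (c : Fin k → ℤ) (i₀ : Fin k) (hc : c i₀ ≠ 0) :
    ∃ (m : ℕ) (w : Fin m → (Fin k → ℤ)), m + 1 = k ∧
      (∀ n : Fin k → ℤ, ∃ y : Fin m → ℤ, n - ∑ j, y j • w j ∈ line c i₀) ∧
      (∀ y y' : Fin m → ℤ, ∑ j, y j • w j - ∑ j, y' j • w j ∈ line c i₀ → y = y') := by
  classical
  have htf : Module.IsTorsionFree ℤ ((Fin k → ℤ) ⧸ line c i₀) := by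
    refine ⟨fun r hr => ?_⟩
    have hr0 : r ≠ 0 := hr.ne_zero
    intro x y hxy
    obtain ⟨a, rfl⟩ := Submodule.Quotient.mk_surjective _ x
    obtain ⟨b, rfl⟩ := Submodule.Quotient.mk_surjective _ y
    simp only at hxy
    rw [← Submodule.Quotient.mk_smul, ← Submodule.Quotient.mk_smul, Submodule.Quotient.eq,
      ← smul_sub] at hxy
    rw [Submodule.Quotient.eq]
    intro i
    have h1 := mem_line.1 hxy i
    simp only [Pi.smul_apply, smul_eq_mul, mul_assoc] at h1
    exact mul_left_cancel₀ hr0 h1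
  haveI : Module.Free ℤ ((Fin k → ℤ) ⧸ line c i₀) := Module.free_of_finite_type_torsion_free'
  obtain ⟨m, hm⟩ : ∃ m, m = Module.finrank ℤ ((Fin k → ℤ) ⧸ line c i₀) := ⟨_, rfl⟩
  have b : Module.Basis (Fin m) ℤ ((Fin k → ℤ) ⧸ line c i₀) := by
    rw [hm]
    exact Module.finBasis ℤ _
  choose w hw using fun j => Submodule.Quotient.mk_surjective (line c i₀) (b j)
  have hsum : ∀ y : Fin m → ℤ, (Submodule.Quotient.mk (∑ j, y j • w j) :
      (Fin k → ℤ) ⧸ line c i₀) = ∑ j, y j • b j := by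
    intro y
    have h1 : (Submodule.Quotient.mk (∑ j, y j • w j) : (Fin k → ℤ) ⧸ line c i₀) =
        (line c i₀).mkQ (∑ j, y j • w j) := rfl
    rw [h1, map_sum]
    refine sum_congr rfl fun j _ => ?_
    rw [map_smul]
    congr 1
    exact hw j
  refine ⟨m, w, ?_, ?_, ?_⟩
  · have h1 := Submodule.finrank_quotient_add_finrank (line c i₀)
    rw [← hm, Module.finrank_fin_fun] at h1
    rw [line_finrank c i₀ hc] at h1
    exact h1
  · intro n
    refine ⟨fun j => b.repr (Submodule.Quotient.mk n) j, ?_⟩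
    rw [← Submodule.Quotient.eq, hsum]
    exact (b.sum_repr _).symm
  · intro y y' h
    rw [← Submodule.Quotient.eq, hsum, hsum] at h
    have h1 := Fintype.linearIndependent_iff.1 b.linearIndependent (fun j => y j - y' j) (by
      simp only [sub_smul, sum_sub_distrib]
      exact sub_eq_zero.2 h)
    funext j
    exact sub_eq_zero.1 (h1 j)

/-- the sheared coordinates -/
noncomputable def shear {k : ℕ} (c : Fin k → ℤ) (i₀ : Fin k) (n : Fin k → ℤ) (i : Fin k) : ℝ :=
  n i - n i₀ * c i / c i₀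

theorem shear_line {k : ℕ} {c : Fin k → ℤ} {i₀ : Fin k} (hc : c i₀ ≠ 0) {n n' : Fin k → ℤ}
    (h : n - n' ∈ line c i₀) (i : Fin k) : shear c i₀ n i = shear c i₀ n' i := by
  have h1 := mem_line.1 h i
  simp only [Pi.sub_apply] at h1
  have h2 : ((n i : ℝ) - n' i) * c i₀ = (n i₀ - n' i₀) * c i := by exact_mod_cast h1
  have hc' : (c i₀ : ℝ) ≠ 0 := by exact_mod_cast hc
  unfold shear
  field_simp
  linarith

theorem shear_sum {k m : ℕ} (c : Fin k → ℤ) (i₀ : Fin k) (w : Fin m → (Fin k → ℤ))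
    (y : Fin m → ℤ) (i : Fin k) :
    shear c i₀ (∑ j, y j • w j) i = ∑ j, (y j : ℝ) * shear c i₀ (w j) i := by
  unfold shear
  simp only [Finset.sum_apply, Pi.smul_apply, smul_eq_mul]
  push_cast
  rw [sum_mul, sum_div, ← sum_sub_distrib]
  refine sum_congr rfl fun j _ => ?_
  ring

/-- the number of lattice points with small sheared coordinates, modulo the line -/
theorem shear_count {k : ℕ} (c : Fin k → ℤ) (i₀ : Fin k) (L : Fin k → ℕ) (q : ℕ) (r : ℝ)
    (hr : 0 ≤ r) :
    ∃ E : Finset (Fin k → ℤ), (∀ n : Fin k → ℤ, 0 ≤ n i₀ → n i₀ < q →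
      (∀ i, |shear c i₀ n i| ≤ r * (2 * L i + 1 / 2)) → n ∈ E) ∧
      (r = 1 → E.card ≤ q * ∏ i, (if i = i₀ then 1 else (4 * L i + 2))) := by
  classical
  obtain ⟨F, hF⟩ : ∃ F : ℕ → Finset (Fin k → ℤ), F = fun (t : ℕ) => Fintype.piFinset fun i =>
      if i = i₀ then {(t : ℤ)} else
        Finset.Icc ⌈(t : ℝ) * c i / c i₀ - r * (2 * L i + 1 / 2)⌉
          ⌊(t : ℝ) * c i / c i₀ + r * (2 * L i + 1 / 2)⌋ := ⟨_, rfl⟩
  refine ⟨(range q).biUnion F, ?_, ?_⟩
  · intro n h0 hq h
    rw [mem_biUnion]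
    refine ⟨(n i₀).toNat, by rw [mem_range]; omega, ?_⟩
    rw [hF, Fintype.mem_piFinset]
    have ht : (((n i₀).toNat : ℤ)) = n i₀ := Int.toNat_of_nonneg h0
    have ht' : (((n i₀).toNat : ℝ)) = n i₀ := by exact_mod_cast ht
    intro i
    by_cases hi : i = i₀
    · rw [if_pos hi, mem_singleton, hi, ht]
    · rw [if_neg hi, mem_Icc, Int.ceil_le, Int.le_floor, ht']
      have h1 := h i
      unfold shear at h1
      rw [abs_le] at h1
      constructor <;> linarith [h1.1, h1.2]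
  · intro hr1
    refine card_biUnion_le.trans ?_
    rw [← card_range q, ← smul_eq_mul, ← sum_const, card_range]
    refine sum_le_sum fun t _ => ?_
    rw [hF]
    simp only
    rw [Fintype.card_piFinset]
    refine Finset.prod_le_prod' fun i _ => ?_
    by_cases hi : i = i₀
    · rw [if_pos hi, if_pos hi, card_singleton]
    · rw [if_neg hi, if_neg hi, Int.card_Icc, hr1]
      obtain ⟨x, hx⟩ : ∃ x : ℝ, x = (t : ℝ) * c i / c i₀ := ⟨_, rfl⟩
      rw [← hx]
      have h1 := Int.floor_le (x + 1 * (2 * L i + 1 / 2))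
      have h2 := Int.le_ceil (x - 1 * (2 * L i + 1 / 2))
      have h3 : ((⌊x + 1 * (2 * L i + 1 / 2)⌋ + 1 - ⌈x - 1 * (2 * L i + 1 / 2)⌉ : ℤ) : ℝ) ≤
          ((4 * L i + 2 : ℤ) : ℝ) := by
        push_cast
        linarith
      have h4 : ⌊x + 1 * (2 * L i + 1 / 2)⌋ + 1 - ⌈x - 1 * (2 * L i + 1 / 2)⌉ ≤
          (4 * L i + 2 : ℤ) := by exact_mod_cast h3
      omega

end Pool.Agent.U546.FB
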