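import Pool.Agent.U546.FB.CoreA

/-!
# The choice of the parameters
-/

set_option autoImplicit false

namespace Pool.Agent.U546.FB

open Finset H112
open scoped Pointwise

theorem num_base {kh : ℕ} {κ lam : ℝ} (hκ : 0.69 < κ) (hlam : lam = 1 + Real.log (1 + κ))
    (h1 : 1 ≤ kh) (h2 : (kh : ℝ) ≤ 302 * κ) :
    (32 * (kh : ℝ)) ^ kh * ((4 * kh + 1) ^ kh * (12 * kh ^ 3) ^ kh) ≤
      Real.exp (302 * κ * (37 * lam)) := by
  have hk1 : (1 : ℝ) ≤ kh := by exact_mod_cast h1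
  have hlog : 0 ≤ Real.log (1 + κ) := Real.log_nonneg (by linarith)
  have e : (32 * (kh : ℝ)) ^ kh * ((4 * kh + 1) ^ kh * (12 * kh ^ 3) ^ kh) =
      ((32 * kh) * ((4 * kh + 1) * (12 * kh ^ 3))) ^ kh := by
    rw [← mul_pow, ← mul_pow]
  rw [e]
  refine pow_le_exp (by positivity) ?_ h2 (by rw [hlam]; positivity)
  have h3 : (32 * (kh : ℝ)) * ((4 * kh + 1) * (12 * kh ^ 3)) ≤ (1920 * 302 ^ 5) * (1 + κ) ^ 5 := by
    have h4 : (kh : ℝ) ≤ 302 * (1 + κ) := by linarith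
    calc (32 * (kh : ℝ)) * ((4 * kh + 1) * (12 * kh ^ 3))
        ≤ (32 * (kh : ℝ)) * ((5 * kh) * (12 * kh ^ 3)) := by gcongr; linarith
      _ = 1920 * (kh : ℝ) ^ 5 := by ring
      _ ≤ 1920 * (302 * (1 + κ)) ^ 5 := by gcongr
      _ = _ := by ring
  have h4 : Real.log ((32 * (kh : ℝ)) * ((4 * kh + 1) * (12 * kh ^ 3))) ≤
      Real.log (1920 * 302 ^ 5) + 5 * Real.log (1 + κ) := by
    rw [← Real.log_rpow (by linarith), ← Real.log_mul (by norm_num) (by positivity)]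
    apply Real.log_le_log (by positivity)
    refine h3.trans (le_of_eq ?_)
    norm_num
  have h5 : Real.log (1920 * 302 ^ 5) ≤ 37 := by
    rw [Real.log_le_iff_le_exp (by norm_num)]
    have h6 : (2.718 : ℝ) ≤ Real.exp 1 := by have := Real.exp_one_gt_d9; linarith
    calc (1920 * 302 ^ 5 : ℝ) ≤ 2.718 ^ 37 := by norm_num
      _ ≤ Real.exp 1 ^ 37 := pow_le_pow_left₀ (by norm_num) h6 37
      _ = Real.exp 37 := by rw [← Real.exp_nat_mul]; norm_num
  rw [hlam]
  linarith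

theorem num_W {kh R n : ℕ} {κ lam μ d : ℝ} (hκ : 0.69 < κ) (hlam : lam = 1 + Real.log (1 + κ))
    (h1 : 1 ≤ kh) (h2 : (kh : ℝ) ≤ 302 * κ) (hR1 : 1 ≤ R) (hd : 1 ≤ d)
    (hR : (R : ℝ) ≤ 2401 * d) (hμ : Real.log d ≤ μ) (hμ1 : 1 ≤ μ) :
    (32 * (kh : ℝ) ^ 2 * (8 * R ^ n)) ^ kh ≤
      Real.exp (302 * κ * (17 * lam + n * (9 * μ))) := by
  have hk1 : (1 : ℝ) ≤ kh := by exact_mod_cast h1
  have hR1' : (1 : ℝ) ≤ R := by exact_mod_cast hR1
  have hlog : 0 ≤ Real.log (1 + κ) := Real.log_nonneg (by linarith)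
  have hR0 : (0 : ℝ) < R := by linarith
  have hlam1 : 1 ≤ lam := by rw [hlam]; linarith
  refine pow_le_exp (by positivity) ?_ h2 (by positivity)
  have e : 32 * (kh : ℝ) ^ 2 * (8 * R ^ n) = (256 * kh ^ 2) * R ^ n := by ring
  rw [e, Real.log_mul (by positivity) (by positivity), Real.log_pow]
  have h3 : Real.log (256 * (kh : ℝ) ^ 2) ≤ 17 * lam := by
    have h4 : (256 * (kh : ℝ) ^ 2) ≤ (256 * 302 ^ 2) * (1 + κ) ^ 2 := by
      have h5 : (kh : ℝ) ≤ 302 * (1 + κ) := by linarith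
      calc (256 * (kh : ℝ) ^ 2) ≤ 256 * (302 * (1 + κ)) ^ 2 := by gcongr
        _ = _ := by ring
    have h5 : Real.log (256 * (kh : ℝ) ^ 2) ≤ Real.log (256 * 302 ^ 2) + 2 * Real.log (1 + κ) := by
      rw [← Real.log_rpow (by linarith), ← Real.log_mul (by norm_num) (by positivity)]
      apply Real.log_le_log (by positivity)
      refine h4.trans (le_of_eq ?_)
      norm_num
    have h6 : Real.log (256 * 302 ^ 2) ≤ 17 := by
      rw [Real.log_le_iff_le_exp (by norm_num)]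
      have h6 : (2.718 : ℝ) ≤ Real.exp 1 := by have := Real.exp_one_gt_d9; linarith
      calc (256 * 302 ^ 2 : ℝ) ≤ 2.718 ^ 17 := by norm_num
        _ ≤ Real.exp 1 ^ 17 := pow_le_pow_left₀ (by norm_num) h6 17
        _ = Real.exp 17 := by rw [← Real.exp_nat_mul]; norm_num
    rw [hlam]
    linarith
  have h4 : Real.log R ≤ 9 * μ := by
    have h5 : Real.log R ≤ Real.log 2401 + Real.log d := by
      rw [← Real.log_mul (by norm_num) (by positivity)]
      exact Real.log_le_log hR0 hR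
    have h6 : Real.log 2401 ≤ 8 := by
      rw [Real.log_le_iff_le_exp (by norm_num)]
      have h6 : (2.7 : ℝ) ≤ Real.exp 1 := by have := Real.exp_one_gt_d9; linarith
      calc (2401 : ℝ) ≤ 2.7 ^ 8 := by norm_num
        _ ≤ Real.exp 1 ^ 8 := pow_le_pow_left₀ (by norm_num) h6 8
        _ = Real.exp 8 := by rw [← Real.exp_nat_mul]; norm_num
    linarith
  have hn0 : (0 : ℝ) ≤ n := by positivity
  have h5 : (n : ℝ) * Real.log R ≤ n * (9 * μ) := mul_le_mul_of_nonneg_left h4 hn0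
  linarith

/-- **sharp-rank Freiman theorem with near-polynomial bounds, all abelian groups** -/
theorem main {G : Type*} [AddCommGroup G] [DecidableEq G] {K : ℝ} {A : Finset G}
    (hA : A.Nonempty) (hK : ((A + A).card : ℝ) ≤ K * A.card) {δ : ℝ} (hδ0 : 0 < δ) (hδ1 : δ ≤ 1) :
    ∃ (k : ℕ) (v : Fin k → G) (L : Fin k → ℕ) (H : AddSubgroup G) (T : Finset G),
      ((k : ℝ) ≤ Real.logb 2 K + δ * Real.logb 2 (2 * K) ∨
        (k = 1 ∧ ∃ H₂ : AddSubgroup G, Finite H₂ ∧ A.card < Nat.card H₂)) ∧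
      Finite H ∧ Mp v L H 2 ∧ (∏ i, (2 * L i + 1)) * Nat.card H ≤ A.card ∧
      (T.card : ℝ) ≤ (2 * K) ^ (140000000000 * (1 + Real.log (1 + Real.log (2 * K))) *
        Real.log (2 + 1 / δ) / δ ^ 2) ∧ St v L H T A := by
  classical
  have hApos : (0 : ℝ) < A.card := by exact_mod_cast hA.card_pos
  have hK1 : 1 ≤ K := by
    have h1 : (A.card : ℝ) ≤ (A + A).card := by
      exact_mod_cast Finset.card_le_card_add_right hA
    exact le_of_mul_le_mul_right (by linarith : 1 * (A.card : ℝ) ≤ K * A.card) hApos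
  obtain ⟨κ, hκ⟩ : ∃ κ : ℝ, κ = Real.log (2 * K) := ⟨_, rfl⟩
  obtain ⟨lam, hlam⟩ : ∃ lam : ℝ, lam = 1 + Real.log (1 + κ) := ⟨_, rfl⟩
  obtain ⟨d, hd⟩ : ∃ d : ℝ, d = 1 / δ := ⟨_, rfl⟩
  obtain ⟨μ, hμ⟩ : ∃ μ : ℝ, μ = Real.log (2 + d) := ⟨_, rfl⟩
  have hκlog2 : Real.log 2 ≤ κ := by
    rw [hκ]; exact Real.log_le_log (by norm_num) (by linarith)
  have hκ69 : (0.69 : ℝ) < κ := lt_of_lt_of_le log_two_gt hκlog2
  have hlog2 : Real.log 2 < 0.7 := by have := Real.log_two_lt_d9; linarith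
  have hκ0 : 0 < κ := by linarith
  have hd1 : 1 ≤ d := by rw [hd, le_div_iff₀ hδ0]; linarith
  have hdδ : d * δ = 1 := by rw [hd]; field_simp
  have hlam1 : 1 ≤ lam := by
    have : 0 ≤ Real.log (1 + κ) := Real.log_nonneg (by linarith)
    rw [hlam]; linarith
  have hμ1 : 1 ≤ μ := by
    rw [hμ, Real.le_log_iff_exp_le (by linarith)]
    have := Real.exp_one_lt_d9
    linarith
  have hμd : Real.log d ≤ μ := by
    rw [hμ]; exact Real.log_le_log (by linarith) (by linarith)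
  have h2K : (1 : ℝ) < 2 * K := by linarith
  obtain ⟨s, hs⟩ : ∃ s : ℝ, s = δ * Real.logb 2 (2 * K) := ⟨_, rfl⟩
  have hs2 : s * Real.log 2 = δ * κ := by
    rw [hs, Real.logb, hκ]
    have : Real.log 2 ≠ 0 := by have := log_two_gt; linarith
    field_simp
  have hs0 : 0 < s := by
    rw [hs]; exact mul_pos hδ0 (Real.logb_pos (by norm_num) h2K)
  have h2s : ∀ x : ℝ, (2 : ℝ) ^ (s * x) = Real.exp (δ * κ * x) := by
    intro x
    rw [Real.rpow_def_of_pos (by norm_num)]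
    congr 1
    rw [← hs2]; ring
  obtain ⟨k₀, v₀, L₀, H₀, T₀, hk₀, hH₀, hT₀, hvol₀, hst₀⟩ := init hA hK hK1 hκ
  rw [← hlam] at hT₀ hvol₀
  -- parameters
  obtain ⟨kh, hkh⟩ : ∃ kh : ℕ, kh = k₀ + 1 := ⟨_, rfl⟩
  have hkhr : (kh : ℝ) ≤ 302 * κ := by rw [hkh]; push_cast; linarith
  have hkh1 : 1 ≤ kh := by omega
  obtain ⟨n, hn⟩ : ∃ n : ℕ, n = ⌈112000 * lam * d⌉₊ := ⟨_, rfl⟩
  have hld : 1 ≤ lam * d := one_le_mul_of_one_le_of_one_le hlam1 hd1
  have hn1 : 112000 * lam * d ≤ n := by rw [hn]; exact Nat.le_ceil _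
  have hn2 : (n : ℝ) ≤ 112001 * (lam * d) := by
    have : (n : ℝ) < 112000 * lam * d + 1 := by rw [hn]; exact Nat.ceil_lt_add_one (by positivity)
    linarith
  have hn0 : 0 < n := by
    have : (0 : ℝ) < n := by linarith
    exact_mod_cast this
  obtain ⟨R, hR⟩ : ∃ R : ℕ, R = ⌈2400 * d⌉₊ := ⟨_, rfl⟩
  have hR1 : 2400 * d ≤ R := by rw [hR]; exact Nat.le_ceil _
  have hR2 : (R : ℝ) ≤ 2401 * d := by
    have : (R : ℝ) < 2400 * d + 1 := by rw [hR]; exact Nat.ceil_lt_add_one (by positivity)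
    linarith
  have hR3 : 2 ≤ R := by
    have : (2 : ℝ) ≤ R := by linarith
    exact_mod_cast this
  have hR0 : (0 : ℝ) < R := by linarith
  obtain ⟨J, hJ⟩ : ∃ J : ℕ, J = ⌈630000000 * (lam * μ * d ^ 2)⌉₊ := ⟨_, rfl⟩
  have hlmd : 1 ≤ lam * μ * d ^ 2 := by
    have h1 : 1 ≤ lam * μ := one_le_mul_of_one_le_of_one_le hlam1 hμ1
    have h2 : 1 ≤ d ^ 2 := one_le_pow₀ hd1
    exact one_le_mul_of_one_le_of_one_le h1 h2
  have hJ1 : 630000000 * (lam * μ * d ^ 2) ≤ J := by rw [hJ]; exact Nat.le_ceil _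
  have hJ2 : (J : ℝ) + 1 ≤ 630000002 * (lam * μ * d ^ 2) := by
    have : (J : ℝ) < 630000000 * (lam * μ * d ^ 2) + 1 := by
      rw [hJ]; exact Nat.ceil_lt_add_one (by positivity)
    linarith
  -- the state without short relations
  have hM' : 1 ≤ 8 * R ^ n := by
    have : 0 < R ^ n := Nat.pow_pos (by omega)
    omega
  obtain ⟨k₁, v₁, L₁, H₁, T₁, hk₁, hH₁, hMp₁, hT₁, hvol₁, hst₁⟩ :=
    iter2 hH₀ hst₀ hM' (kh := kh) (by omega)
  -- sizes
  have hκl : 0 ≤ κ * lam := by positivity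
  obtain ⟨Z, hZ⟩ : ∃ Z : ℝ, Z = κ * lam * μ * d := ⟨_, rfl⟩
  have hμd1 : 1 ≤ μ * d := one_le_mul_of_one_le_of_one_le hμ1 hd1
  have hZ1 : κ * lam ≤ Z := by
    rw [hZ, mul_assoc (κ * lam)]
    exact le_mul_of_one_le_right hκl hμd1
  have hZ2 : κ ≤ Z := le_trans (le_mul_of_one_le_right hκ0.le hlam1) hZ1
  have hZ0 : 0.69 < Z := by linarith
  have hT₁' : (T₁.card : ℝ) ≤ Real.exp (28000 * (κ * lam)) := by
    refine hT₁.trans ?_
    calc (T₀.card : ℝ) * ((32 * kh) ^ kh * ((4 * kh + 1) ^ kh * (12 * kh ^ 3) ^ kh))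
        ≤ Real.exp (16400 * κ * lam) * Real.exp (302 * κ * (37 * lam)) :=
          mul_le_mul hT₀ (num_base hκ69 hlam hkh1 hkhr) (by positivity) (by positivity)
      _ = Real.exp (27574 * (κ * lam)) := by rw [← Real.exp_add]; congr 1; ring
      _ ≤ _ := Real.exp_le_exp.2 (by linarith)
  have hvol₁' : (((∏ i, (2 * L₁ i + 1)) * Nat.card H₁ : ℕ) : ℝ) ≤
      Real.exp (310000000 * Z) * A.card := by
    refine hvol₁.trans ?_
    have h1 := num_W (n := n) hκ69 hlam hkh1 hkhr (by omega : 1 ≤ R) hd1 hR2 hμd hμ1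
    have h2 : 302 * κ * (17 * lam + n * (9 * μ)) + 8000 * κ * lam ≤ 310000000 * Z := by
      have h3 : κ * ((n : ℝ) * μ) ≤ κ * ((112001 * (lam * d)) * μ) := by gcongr
      have h4 : κ * ((112001 * (lam * d)) * μ) = 112001 * Z := by rw [hZ]; ring
      have h5 : 302 * κ * (17 * lam + n * (9 * μ)) + 8000 * κ * lam =
          13134 * (κ * lam) + 2718 * (κ * ((n : ℝ) * μ)) := by ring
      rw [h5]
      linarith
    have h3 : (((8 * R ^ n : ℕ)) : ℝ) = 8 * (R : ℝ) ^ n := by push_cast; ring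
    rw [h3]
    calc (32 * (kh : ℝ) ^ 2 * (8 * (R : ℝ) ^ n)) ^ kh *
          (((∏ i, (2 * L₀ i + 1)) * Nat.card H₀ : ℕ) : ℝ)
        ≤ Real.exp (302 * κ * (17 * lam + n * (9 * μ))) *
            (Real.exp (8000 * κ * lam) * A.card) :=
          mul_le_mul h1 hvol₀ (by positivity) (by positivity)
      _ = Real.exp (302 * κ * (17 * lam + n * (9 * μ)) + 8000 * κ * lam) * A.card := by
          rw [Real.exp_add]; ring
      _ ≤ _ := by gcongr
  have hW1 : 1 ≤ Real.exp (310000000 * Z) := Real.one_le_exp (by positivity)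
  have hΘ : Real.exp (28000 * (κ * lam)) ≤ ((2 : ℝ) ^ (s / 4)) ^ n := by
    have e1 : s / 4 = s * (1 / 4) := by ring
    rw [e1, h2s, ← Real.exp_nat_mul]
    apply Real.exp_le_exp.2
    have h1 : 112000 * lam * d * δ ≤ n * δ := by gcongr
    have h2 : 112000 * lam * d * δ = 112000 * lam := by
      rw [mul_assoc (112000 * lam), hdδ, mul_one]
    rw [h2] at h1
    have h3 : κ * (112000 * lam) ≤ κ * (n * δ) := by gcongr
    linarith
  have hR' : (1 + 2 / (R : ℝ)) ^ k₀ ≤ 2 ^ (s / 4) := by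
    have e1 : s / 4 = s * (1 / 4) := by ring
    rw [e1, h2s]
    have h1 : 1 + 2 / (R : ℝ) ≤ Real.exp (2 / R) := by
      have := Real.add_one_le_exp (2 / (R : ℝ))
      linarith
    calc (1 + 2 / (R : ℝ)) ^ k₀ ≤ Real.exp (2 / R) ^ k₀ :=
          pow_le_pow_left₀ (by positivity) h1 _
      _ = Real.exp (k₀ * (2 / R)) := by rw [← Real.exp_nat_mul]
      _ ≤ Real.exp (δ * κ * (1 / 4)) := by
          apply Real.exp_le_exp.2
          have h2 : 2 / (R : ℝ) ≤ δ / 1200 := by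
            rw [div_le_div_iff₀ hR0 (by norm_num)]
            have h3 : δ * (2400 * d) ≤ δ * R := by gcongr
            have h4 : δ * (2400 * d) = 2400 := by
              rw [mul_left_comm, mul_comm δ d, hdδ, mul_one]
            linarith
          calc (k₀ : ℝ) * (2 / R) ≤ (300 * κ) * (δ / 1200) := by gcongr
            _ = _ := by ring
  have hJ' : Real.exp (28000 * (κ * lam)) * (3 ^ k₀ * (Real.exp (310000000 * Z) * K)) <
      ((2 : ℝ) ^ (s / 2)) ^ (J + 1) := by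
    have e1 : s / 2 = s * (1 / 2) := by ring
    rw [e1, h2s, ← Real.exp_nat_mul]
    have h1 : (3 : ℝ) ^ k₀ ≤ Real.exp (330 * κ) := by
      have h2 : (3 : ℝ) ≤ Real.exp 1.1 := by
        have h3 : Real.log 3 ≤ 1.1 := by
          have h5 : (0 : ℝ) < 3 := by norm_num
          rw [Real.log_le_iff_le_exp h5]
          have h6 : (2.718 : ℝ) ≤ Real.exp 1 := by have := Real.exp_one_gt_d9; linarith
          have h7 : Real.exp 1.1 = Real.exp 1 * Real.exp 0.1 := by
            rw [← Real.exp_add]; norm_num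
          have h8 : (1.105 : ℝ) ≤ Real.exp 0.1 := by
            have := Real.quadratic_le_exp_of_nonneg (x := 0.1) (by norm_num)
            norm_num at this ⊢
            linarith
          rw [h7]
          calc (3 : ℝ) ≤ 2.718 * 1.105 := by norm_num
            _ ≤ _ := mul_le_mul h6 h8 (by norm_num) (Real.exp_pos _).le
        rwa [Real.log_le_iff_le_exp (by norm_num)] at h3
      calc (3 : ℝ) ^ k₀ ≤ Real.exp 1.1 ^ k₀ := pow_le_pow_left₀ (by norm_num) h2 _
        _ = Real.exp (k₀ * 1.1) := by rw [← Real.exp_nat_mul]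
        _ ≤ _ := Real.exp_le_exp.2 (by linarith)
    have h2 : K ≤ Real.exp κ := by
      rw [hκ, Real.exp_log (by linarith)]; linarith
    calc Real.exp (28000 * (κ * lam)) * (3 ^ k₀ * (Real.exp (310000000 * Z) * K))
        ≤ Real.exp (28000 * (κ * lam)) *
            (Real.exp (330 * κ) * (Real.exp (310000000 * Z) * Real.exp κ)) := by gcongr
      _ = Real.exp (28000 * (κ * lam) + (330 * κ + (310000000 * Z + κ))) := by
          rw [← Real.exp_add, ← Real.exp_add, ← Real.exp_add]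
      _ < _ := by
          apply Real.exp_lt_exp.2
          have h3 : ((J + 1 : ℕ) : ℝ) * (δ * κ * (1 / 2)) ≥
              (630000000 * (lam * μ * d ^ 2)) * (δ * κ * (1 / 2)) := by
            push_cast
            gcongr
            linarith
          have h4 : (630000000 * (lam * μ * d ^ 2)) * (δ * κ * (1 / 2)) = 315000000 * Z := by
            have : (630000000 * (lam * μ * d ^ 2)) * (δ * κ * (1 / 2)) =
                315000000 * (κ * lam * μ * d) * (d * δ) := by ring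
            rw [this, hdδ, mul_one, hZ]
          rw [h4] at h3
          linarith
  obtain ⟨k, v, L, H, T, hk, hH, hMp, hvol, hT, hst⟩ := coreA hA hK1 hK hH₁ hst₁ hMp₁ hn0 hR3 hs0
    hT₁' hΘ hW1 hvol₁' hk₁ hR' hJ'
  refine ⟨k, v, L, H, T, ?_, hH, hMp, hvol, ?_, hst⟩
  · rw [← hs]; exact hk
  refine hT.trans ?_
  rw [Real.rpow_def_of_pos (by linarith), ← hκ, ← hlam, ← hd, ← hμ]
  have e1 : κ * (140000000000 * lam * μ / δ ^ 2) = 140000000000 * (Z * d) := by
    rw [hZ, hd]; field_simp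
  rw [e1]
  have h9 : (9 : ℝ) ^ k₀ ≤ Real.exp (660 * κ) := by
    have h2 : (9 : ℝ) ≤ Real.exp 2.2 := by
      have h6 : (2.718 : ℝ) ≤ Real.exp 1 := by have := Real.exp_one_gt_d9; linarith
      have h7 : Real.exp 2.2 = Real.exp 1 ^ 2 * Real.exp 0.2 := by
        rw [← Real.exp_nat_mul, ← Real.exp_add]; norm_num
      have h8 : (1.22 : ℝ) ≤ Real.exp 0.2 := by
        have := Real.quadratic_le_exp_of_nonneg (x := 0.2) (by norm_num)
        norm_num at this ⊢
        linarith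
      rw [h7]
      have h9 : (2.718 : ℝ) ^ 2 ≤ Real.exp 1 ^ 2 := pow_le_pow_left₀ (by norm_num) h6 2
      calc (9 : ℝ) ≤ 2.718 ^ 2 * 1.22 := by norm_num
        _ ≤ _ := by gcongr
    calc (9 : ℝ) ^ k₀ ≤ Real.exp 2.2 ^ k₀ := pow_le_pow_left₀ (by norm_num) h2 _
      _ = Real.exp (k₀ * 2.2) := by rw [← Real.exp_nat_mul]
      _ ≤ _ := Real.exp_le_exp.2 (by linarith)
  have h2J : ((2 : ℝ) ^ (J + 1)) ^ k₀ ≤ Real.exp (132400000000 * (Z * d)) := by
    have h2 : (2 : ℝ) = Real.exp (Real.log 2) := (Real.exp_log (by norm_num)).symm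
    rw [← pow_mul]
    conv_lhs => rw [h2]
    rw [← Real.exp_nat_mul]
    apply Real.exp_le_exp.2
    push_cast
    have hlog20 : 0 ≤ Real.log 2 := by have := log_two_gt; linarith
    calc ((J : ℝ) + 1) * k₀ * Real.log 2
        ≤ (630000002 * (lam * μ * d ^ 2)) * (300 * κ) * 0.7 := by gcongr
      _ = 132300000420 / 1000 * 1000 * (Z * d) := by rw [hZ]; ring_nf
      _ ≤ _ := by
          have : 0 ≤ Z * d := by positivity
          linarith
  have hZd : Z ≤ Z * d := le_mul_of_one_le_right (by linarith) hd1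
  have h3 : (3 : ℝ) ≤ Real.exp (1.6 * Z) := by
    have h4 : (3 : ℝ) ≤ Real.exp 1.104 := by
      have h6 : (2.718 : ℝ) ≤ Real.exp 1 := by have := Real.exp_one_gt_d9; linarith
      have h7 : Real.exp 1.104 = Real.exp 1 * Real.exp 0.104 := by
        rw [← Real.exp_add]; norm_num
      have h8 : (1.109 : ℝ) ≤ Real.exp 0.104 := by
        have := Real.quadratic_le_exp_of_nonneg (x := 0.104) (by norm_num)
        norm_num at this ⊢
        linarith
      rw [h7]
      calc (3 : ℝ) ≤ 2.718 * 1.109 := by norm_num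
        _ ≤ _ := mul_le_mul h6 h8 (by norm_num) (Real.exp_pos _).le
    exact h4.trans (Real.exp_le_exp.2 (by linarith))
  calc Real.exp (28000 * (κ * lam)) * (2 ^ (J + 1)) ^ k₀ *
        (9 ^ k₀ * (3 * Real.exp (310000000 * Z) ^ 2))
      ≤ Real.exp (28000 * (κ * lam)) * Real.exp (132400000000 * (Z * d)) *
        (Real.exp (660 * κ) * (Real.exp (1.6 * Z) * Real.exp (310000000 * Z) ^ 2)) := by gcongr
    _ = Real.exp (28000 * (κ * lam) + 132400000000 * (Z * d) +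
          (660 * κ + (1.6 * Z + 620000000 * Z))) := by
        rw [← Real.exp_nat_mul, ← Real.exp_add, ← Real.exp_add, ← Real.exp_add, ← Real.exp_add]
        congr 1
        push_cast
        ring
    _ ≤ _ := Real.exp_le_exp.2 (by linarith)

end Pool.Agent.U546.FB
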